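import Pool.Graph.R_pool_sql_team_seeded_3997aac3.Q284.WE.All
import Pool.Graph.R_pool_sql_team_seeded_3997aac3.Q53.PS.Gen
import Pool.Graph.R_pool_sql_team_seeded_3997aac3.Q53.PS.HC
import Pool.Graph.R_pool_sql_team_seeded_3997aac3.Q166.PS.Van

/-!
# Polynomials over a finite field: finite sets, translations, division with remainder
-/

set_option autoImplicit false

open Finset Polynomial
open Pool.Agent.H341R2.Sharp (Mon mem_Mon)

namespace Pool.Agent.H23.FF

variable {F : Type} [Field F] [Fintype F]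

variable (F) in
theorem finite_lo (h : ℕ) : {v : F[X] | v.degree < (h : WithBot ℕ)}.Finite := by
  have e := (degreeLTEquiv F h).toEquiv
  have : Finite (degreeLT F h) := Finite.of_equiv _ e.symm
  have h1 : {v : F[X] | v.degree < (h : WithBot ℕ)} = (degreeLT F h : Set F[X]) := by
    ext v
    simp [mem_degreeLT]
  rw [h1]
  exact Set.toFinite _

variable (F) in
/-- the polynomials of degree less than `h` -/
noncomputable def Lo (h : ℕ) : Finset F[X] := (finite_lo F h).toFinset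

theorem mem_Lo {h : ℕ} {v : F[X]} : v ∈ Lo F h ↔ v.degree < (h : WithBot ℕ) := by
  simp [Lo]

theorem zero_mem_Lo (h : ℕ) : (0 : F[X]) ∈ Lo F h := by
  rw [mem_Lo, degree_zero]
  exact WithBot.bot_lt_coe h

theorem add_mem_Lo {h : ℕ} {u v : F[X]} (hu : u ∈ Lo F h) (hv : v ∈ Lo F h) : u + v ∈ Lo F h := by
  rw [mem_Lo] at *
  exact (degree_add_le _ _).trans_lt (max_lt hu hv)

theorem sub_mem_Lo {h : ℕ} {u v : F[X]} (hu : u ∈ Lo F h) (hv : v ∈ Lo F h) : u - v ∈ Lo F h := by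
  rw [mem_Lo] at *
  exact (degree_sub_le _ _).trans_lt (max_lt hu hv)

theorem neg_mem_Lo {h : ℕ} {v : F[X]} (hv : v ∈ Lo F h) : -v ∈ Lo F h := by
  rw [mem_Lo] at *
  rwa [degree_neg]

theorem Lo_mono {h m : ℕ} (hm : m ≤ h) {v : F[X]} (hv : v ∈ Lo F m) : v ∈ Lo F h := by
  rw [mem_Lo] at *
  exact hv.trans_le (by exact_mod_cast hm)

theorem mem_Lo_iff_sub {n : ℕ} {f g : F[X]} (hf : f ∈ Mon F n) (hg : g ∈ Mon F n) :
    f - g ∈ Lo F n := by
  rw [mem_Mon] at hf hg
  rw [mem_Lo]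
  have h1 : f.degree = g.degree := by
    rw [degree_eq_natDegree hf.1.ne_zero, degree_eq_natDegree hg.1.ne_zero, hf.2, hg.2]
  have h2 := degree_sub_lt_left h1 hf.1.ne_zero (by rw [hf.1.leadingCoeff, hg.1.leadingCoeff])
  rwa [degree_eq_natDegree hf.1.ne_zero, hf.2] at h2

theorem add_mem_Mon {n : ℕ} {f v : F[X]} (hf : f ∈ Mon F n) (hv : v ∈ Lo F n) : f + v ∈ Mon F n := by
  rw [mem_Mon] at *
  rw [mem_Lo] at hv
  have h1 : v.degree < f.degree := by rwa [degree_eq_natDegree hf.1.ne_zero, hf.2]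
  refine ⟨hf.1.add_of_left h1, ?_⟩
  rw [natDegree_add_eq_left_of_degree_lt h1, hf.2]

theorem X_pow_mem_Mon (n : ℕ) : (X ^ n : F[X]) ∈ Mon F n := by
  rw [mem_Mon]
  exact ⟨monic_X_pow n, natDegree_X_pow n⟩

theorem card_Mon (n : ℕ) : (Mon F n).card = Fintype.card F ^ n :=
  (Pool.Agent.Q53.PS.t_CMON F).1 n

theorem card_Lo (n : ℕ) : (Lo F n).card = Fintype.card F ^ n := by
  rw [← card_Mon]
  refine Finset.card_nbij' (fun v => X ^ n + v) (fun f => f - X ^ n) ?_ ?_ ?_ ?_
  · intro v hv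
    exact add_mem_Mon (X_pow_mem_Mon n) hv
  · intro f hf
    exact mem_Lo_iff_sub hf (X_pow_mem_Mon n)
  · intro v _
    simp
  · intro f _
    simp

theorem sum_Mon_add {M : Type*} [AddCommMonoid M] {n : ℕ} {v : F[X]} (hv : v ∈ Lo F n)
    (G : F[X] → M) : ∑ f ∈ Mon F n, G (f + v) = ∑ f ∈ Mon F n, G f := by
  refine Finset.sum_nbij' (fun f => f + v) (fun f => f - v) ?_ ?_ ?_ ?_ ?_
  · intro f hf
    exact add_mem_Mon hf hv
  · intro f hf
    rw [sub_eq_add_neg]
    exact add_mem_Mon hf (neg_mem_Lo hv)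
  · intro f _
    simp
  · intro f _
    simp
  · intro f _
    rfl

theorem sum_Lo_add {M : Type*} [AddCommMonoid M] {n : ℕ} {v : F[X]} (hv : v ∈ Lo F n)
    (G : F[X] → M) : ∑ f ∈ Lo F n, G (f + v) = ∑ f ∈ Lo F n, G f := by
  refine Finset.sum_nbij' (fun f => f + v) (fun f => f - v) ?_ ?_ ?_ ?_ ?_
  · intro f hf
    exact add_mem_Lo hf hv
  · intro f hf
    exact sub_mem_Lo hf hv
  · intro f _
    simp
  · intro f _
    simp
  · intro f _
    rfl

theorem sum_Lo_neg {M : Type*} [AddCommMonoid M] {n : ℕ}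
    (G : F[X] → M) : ∑ f ∈ Lo F n, G (-f) = ∑ f ∈ Lo F n, G f := by
  refine Finset.sum_nbij' (fun f => -f) (fun f => -f) ?_ ?_ ?_ ?_ ?_
  · intro f hf
    exact neg_mem_Lo hf
  · intro f hf
    exact neg_mem_Lo hf
  · intro f _
    simp
  · intro f _
    simp
  · intro f _
    rfl

theorem mul_mem_Lo {k j : ℕ} {g u : F[X]} (hg : g.Monic) (hk : g.natDegree = k) (hu : u ∈ Lo F j) :
    g * u ∈ Lo F (k + j) := by
  rw [mem_Lo] at *
  rcases eq_or_ne u 0 with rfl | h0
  · rw [mul_zero, degree_zero]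
    exact WithBot.bot_lt_coe _
  · rw [degree_eq_natDegree h0] at hu
    have h1 : u.natDegree < j := by exact_mod_cast hu
    rw [degree_eq_natDegree (mul_ne_zero hg.ne_zero h0), hg.natDegree_mul' h0]
    exact_mod_cast (by omega : g.natDegree + u.natDegree < k + j)

/-- for arbitrary factors -/
theorem mul_mem_Lo' {k j : ℕ} {g u : F[X]} (hg : g ∈ Lo F (k + 1)) (hu : u ∈ Lo F j) :
    g * u ∈ Lo F (k + j) := by
  rw [mem_Lo] at *
  rcases eq_or_ne u 0 with rfl | h0
  · rw [mul_zero, degree_zero]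
    exact WithBot.bot_lt_coe _
  rcases eq_or_ne g 0 with rfl | h1
  · rw [zero_mul, degree_zero]
    exact WithBot.bot_lt_coe _
  · rw [degree_eq_natDegree h0] at hu
    rw [degree_eq_natDegree h1] at hg
    have h2 : u.natDegree < j := by exact_mod_cast hu
    have h3 : g.natDegree < k + 1 := by exact_mod_cast hg
    rw [degree_eq_natDegree (mul_ne_zero h1 h0), natDegree_mul h1 h0]
    exact_mod_cast (by omega : g.natDegree + u.natDegree < k + j)

theorem mod_mem_Lo {k : ℕ} {g : F[X]} (hg : g.Monic) (hk : g.natDegree = k) (f : F[X]) :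
    f %ₘ g ∈ Lo F k := by
  rw [mem_Lo, ← hk, ← degree_eq_natDegree hg.ne_zero]
  exact degree_modByMonic_lt _ hg

theorem div_mem_Lo {k m : ℕ} {g f : F[X]} (hg : g.Monic) (hk : g.natDegree = k)
    (hf : f ∈ Lo F (k + m)) : f /ₘ g ∈ Lo F m := by
  rw [mem_Lo] at *
  rcases eq_or_ne (f /ₘ g) 0 with h0 | h0
  · rw [h0, degree_zero]
    exact WithBot.bot_lt_coe _
  · have h1 : f ≠ 0 := by
      rintro rfl
      exact h0 (zero_divByMonic _)
    rw [degree_eq_natDegree h1] at hf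
    have h2 : f.natDegree < k + m := by exact_mod_cast hf
    rw [degree_eq_natDegree h0, natDegree_divByMonic _ hg]
    have h3 : k ≤ f.natDegree := by
      by_contra hc
      apply h0
      rw [divByMonic_eq_zero_iff hg]
      rw [degree_eq_natDegree h1, degree_eq_natDegree hg.ne_zero]
      exact_mod_cast (by omega : f.natDegree < g.natDegree)
    have h4 : 0 < m := by omega
    exact_mod_cast (by omega : f.natDegree - g.natDegree < m)

theorem div_mod_unique {k : ℕ} {g u b : F[X]} (hg : g.Monic) (hk : g.natDegree = k)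
    (hb : b ∈ Lo F k) : (g * u + b) /ₘ g = u ∧ (g * u + b) %ₘ g = b := by
  apply div_modByMonic_unique (f := g * u + b) (g := g) u b hg
  refine ⟨by ring, ?_⟩
  rw [mem_Lo] at hb
  rwa [degree_eq_natDegree hg.ne_zero, hk]

theorem sum_Lo_dec {M : Type*} [AddCommMonoid M] {k m : ℕ} {g : F[X]} (hg : g.Monic)
    (hk : g.natDegree = k) (G : F[X] → M) :
    ∑ v ∈ Lo F (k + m), G v = ∑ u ∈ Lo F m, ∑ b ∈ Lo F k, G (g * u + b) := by
  rw [← Finset.sum_product' (Lo F m) (Lo F k) (fun u b => G (g * u + b))]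
  refine Finset.sum_nbij' (fun v => (v /ₘ g, v %ₘ g)) (fun x => g * x.1 + x.2) ?_ ?_ ?_ ?_ ?_
  · intro v hv
    rw [mem_product]
    exact ⟨div_mem_Lo hg hk hv, mod_mem_Lo hg hk v⟩
  · intro x hx
    rw [mem_product] at hx
    exact add_mem_Lo (mul_mem_Lo hg hk hx.1) (Lo_mono (by omega) hx.2)
  · intro v _
    change g * (v /ₘ g) + v %ₘ g = v
    rw [add_comm]
    exact modByMonic_add_div v g
  · intro x hx
    rw [mem_product] at hx
    obtain ⟨h1, h2⟩ := div_mod_unique (u := x.1) hg hk hx.2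
    change ((g * x.1 + x.2) /ₘ g, (g * x.1 + x.2) %ₘ g) = x
    rw [h1, h2]
  · intro v _
    change G v = G (g * (v /ₘ g) + v %ₘ g)
    rw [add_comm, modByMonic_add_div v g]

theorem sum_Mon_dec {M : Type*} [AddCommMonoid M] {k m : ℕ} {g : F[X]} (hg : g.Monic)
    (hk : g.natDegree = k) (G : F[X] → M) :
    ∑ f ∈ Mon F (k + m), G f = ∑ u ∈ Mon F m, ∑ b ∈ Lo F k, G (g * u + b) := by
  rw [← Finset.sum_product' (Mon F m) (Lo F k) (fun u b => G (g * u + b))]
  have hgm : ∀ u ∈ Mon F m, g * u ∈ Mon F (k + m) := by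
    intro u hu
    rw [mem_Mon] at *
    exact ⟨hg.mul hu.1, by rw [hg.natDegree_mul hu.1, hk, hu.2]⟩
  refine Finset.sum_nbij' (fun v => (v /ₘ g, v %ₘ g)) (fun x => g * x.1 + x.2) ?_ ?_ ?_ ?_ ?_
  · intro v hv
    rw [mem_product]
    refine ⟨?_, mod_mem_Lo hg hk v⟩
    rw [mem_Mon] at *
    refine ⟨?_, ?_⟩
    · have h1 : g.degree ≤ v.degree := by
        rw [degree_eq_natDegree hg.ne_zero, degree_eq_natDegree hv.1.ne_zero, hv.2, hk]
        exact_mod_cast (by omega : k ≤ k + m)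
      rw [Monic, leadingCoeff_divByMonic_of_monic hg h1]
      exact hv.1
    · rw [natDegree_divByMonic _ hg, hk, hv.2]
      omega
  · intro x hx
    rw [mem_product] at hx
    exact add_mem_Mon (hgm _ hx.1) (Lo_mono (by omega) hx.2)
  · intro v _
    change g * (v /ₘ g) + v %ₘ g = v
    rw [add_comm]
    exact modByMonic_add_div v g
  · intro x hx
    rw [mem_product] at hx
    obtain ⟨h1, h2⟩ := div_mod_unique (u := x.1) hg hk hx.2
    change ((g * x.1 + x.2) /ₘ g, (g * x.1 + x.2) %ₘ g) = x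
    rw [h1, h2]
  · intro v _
    change G v = G (g * (v /ₘ g) + v %ₘ g)
    rw [add_comm, modByMonic_add_div v g]

/-- a function is periodic modulo `g` -/
def Per {M : Type*} (g : F[X]) (G : F[X] → M) : Prop := ∀ x y : F[X], G (x + g * y) = G x

omit [Fintype F] in
theorem Per.mod {M : Type*} {g : F[X]} {G : F[X] → M} (hG : Per g G) (f : F[X]) :
    G (f %ₘ g) = G f := by
  conv_rhs => rw [← modByMonic_add_div f g]
  rw [hG]

omit [Fintype F] in
theorem Per.congr {M : Type*} {g : F[X]} {G : F[X] → M} (hG : Per g G) {f f' : F[X]}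
    (h : g ∣ f - f') : G f = G f' := by
  obtain ⟨y, hy⟩ := h
  have : f = f' + g * y := by rw [← hy]; ring
  rw [this, hG]

/-- sums of periodic functions over a complete system of residues, translated -/
theorem sum_Lo_per {M : Type*} [AddCommMonoid M] {k : ℕ} {g : F[X]} (hg : g.Monic)
    (hk : g.natDegree = k) {G : F[X] → M} (hG : Per g G) (f : F[X]) :
    ∑ b ∈ Lo F k, G (f + b) = ∑ b ∈ Lo F k, G b := by
  have h1 : ∀ b ∈ Lo F k, G (f + b) = G (b + f %ₘ g) := by
    intro b _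
    apply hG.congr
    have h2 := modByMonic_add_div f g
    refine ⟨f /ₘ g, ?_⟩
    calc f + b - (b + f %ₘ g) = f - f %ₘ g := by ring
      _ = g * (f /ₘ g) := by
        nth_rewrite 1 [← h2]
        ring
  rw [sum_congr rfl h1]
  exact sum_Lo_add (mod_mem_Lo hg hk f) G

end Pool.Agent.H23.FF
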