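import Mathlib

/-!
# The pure sieve: Bonferroni's inequalities for products
-/

set_option autoImplicit false

open Finset

namespace Pool.Agent.H23.FF

variable {α : Type*}

/-- elementary symmetric functions -/
noncomputable def es (x : α → ℝ) (s : Finset α) (j : ℕ) : ℝ := ∑ S ∈ s.powersetCard j, ∏ P ∈ S, x P

theorem es_zero (x : α → ℝ) (s : Finset α) : es x s 0 = 1 := by
  simp [es]

theorem es_empty_succ (x : α → ℝ) (j : ℕ) : es x ∅ (j + 1) = 0 := by
  unfold es
  rw [powersetCard_eq_empty.2 (by simp), sum_empty]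

theorem es_insert [DecidableEq α] (x : α → ℝ) {p : α} {s : Finset α} (h : p ∉ s) (j : ℕ) :
    es x (insert p s) (j + 1) = es x s (j + 1) + x p * es x s j := by
  unfold es
  rw [powersetCard_succ_insert h, sum_union, sum_image, mul_sum]
  · congr 1
    apply sum_congr rfl
    intro S hS
    rw [mem_powersetCard] at hS
    rw [prod_insert (fun hp => h (hS.1 hp))]
  · intro S hS T hT hST
    rw [mem_coe, mem_powersetCard] at hS hT
    have h1 : p ∉ S := fun hp => h (hS.1 hp)
    have h2 : p ∉ T := fun hp => h (hT.1 hp)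
    rw [← erase_insert h1, ← erase_insert h2]
    have h3 : insert p S = insert p T := hST
    rw [h3]
  · rw [disjoint_left]
    intro S hS hS'
    rw [mem_powersetCard] at hS
    rw [mem_image] at hS'
    obtain ⟨T, _, rfl⟩ := hS'
    exact h (hS.1 (mem_insert_self p T))

theorem es_nonneg {x : α → ℝ} {s : Finset α} (hx : ∀ p ∈ s, 0 ≤ x p) (j : ℕ) : 0 ≤ es x s j := by
  unfold es
  apply sum_nonneg
  intro S hS
  rw [mem_powersetCard] at hS
  exact prod_nonneg fun p hp => hx p (hS.1 hp)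

/-- the truncated product -/
noncomputable def DD (x : α → ℝ) (s : Finset α) (J : ℕ) : ℝ :=
  ∑ j ∈ range J, (-1) ^ j * es x s j

theorem DD_insert [DecidableEq α] (x : α → ℝ) {p : α} {s : Finset α} (h : p ∉ s) (J : ℕ) :
    DD x (insert p s) (J + 1) = DD x s (J + 1) - x p * DD x s J := by
  unfold DD
  rw [sum_range_succ', sum_range_succ' (fun j => (-1) ^ j * es x s j), es_zero, es_zero, mul_sum]
  have h1 : ∀ j ∈ range J, (-1 : ℝ) ^ (j + 1) * es x (insert p s) (j + 1) =
      (-1) ^ (j + 1) * es x s (j + 1) - x p * ((-1) ^ j * es x s j) := by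
    intro j _
    rw [es_insert x h, pow_succ]
    ring
  rw [sum_congr rfl h1, sum_sub_distrib]
  ring

/-- **Bonferroni's inequalities** -/
theorem bonf [DecidableEq α] (x : α → ℝ) (s : Finset α) (hx : ∀ p ∈ s, 0 ≤ x p ∧ x p ≤ 1) (J : ℕ) :
    0 ≤ (-1) ^ J * (∏ p ∈ s, (1 - x p) - DD x s J) ∧
    (-1) ^ J * (∏ p ∈ s, (1 - x p) - DD x s J) ≤ es x s J := by
  induction s using Finset.induction_on generalizing J with
  | empty =>
    cases J with
    | zero => simp [DD, es_zero]
    | succ J =>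
      have h1 : DD x ∅ (J + 1) = 1 := by
        unfold DD
        rw [sum_range_succ', es_zero, sum_eq_zero]
        · norm_num
        · intro j _
          rw [es_empty_succ, mul_zero]
      rw [h1, es_empty_succ]
      simp
  | insert p s hp ih =>
    have hx' : ∀ p ∈ s, 0 ≤ x p ∧ x p ≤ 1 := fun a ha => hx a (mem_insert_of_mem ha)
    have hxp := hx p (mem_insert_self p s)
    cases J with
    | zero =>
      have h1 : 0 ≤ ∏ p ∈ insert p s, (1 - x p) := by
        apply prod_nonneg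
        intro a ha
        have := (hx a ha).2
        linarith
      have h2 : ∏ p ∈ insert p s, (1 - x p) ≤ 1 := by
        apply prod_le_one
        · intro a ha
          have := (hx a ha).2
          linarith
        · intro a ha
          have := (hx a ha).1
          linarith
      simp only [DD, range_zero, sum_empty, es_zero, pow_zero, one_mul, sub_zero]
      exact ⟨h1, h2⟩
    | succ J =>
      obtain ⟨h1, h2⟩ := ih hx' (J + 1)
      obtain ⟨h3, h4⟩ := ih hx' J
      rw [prod_insert hp, DD_insert x hp, es_insert x hp]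
      have h5 : (-1 : ℝ) ^ (J + 1) * ((1 - x p) * ∏ p ∈ s, (1 - x p) - (DD x s (J + 1) - x p * DD x s J)) =
          (-1) ^ (J + 1) * (∏ p ∈ s, (1 - x p) - DD x s (J + 1)) +
          x p * ((-1) ^ J * (∏ p ∈ s, (1 - x p) - DD x s J)) := by
        rw [pow_succ]
        ring
      rw [h5]
      have h6 := mul_nonneg hxp.1 h3
      have h7 := mul_le_mul_of_nonneg_left h4 hxp.1
      constructor <;> linarith

theorem bonf_abs [DecidableEq α] (x : α → ℝ) (s : Finset α) (hx : ∀ p ∈ s, 0 ≤ x p ∧ x p ≤ 1)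
    (J : ℕ) : |∏ p ∈ s, (1 - x p) - DD x s J| ≤ es x s J := by
  obtain ⟨h1, h2⟩ := bonf x s hx J
  have h3 : |∏ p ∈ s, (1 - x p) - DD x s J| = |(-1) ^ J * (∏ p ∈ s, (1 - x p) - DD x s J)| := by
    rw [abs_mul, abs_pow, abs_neg, abs_one, one_pow, one_mul]
  rw [h3, abs_of_nonneg h1]
  exact h2

theorem es_le (x : α → ℝ) (s : Finset α) (hx : ∀ p ∈ s, 0 ≤ x p) (J : ℕ) {t : ℝ} (ht : 0 < t) :
    es x s J ≤ Real.exp (t * ∑ p ∈ s, x p) / t ^ J := by
  classical
  rw [le_div_iff₀ (by positivity)]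
  have h1 : es x s J * t ^ J = ∑ S ∈ s.powersetCard J, ∏ P ∈ S, (t * x P) := by
    unfold es
    rw [sum_mul]
    apply sum_congr rfl
    intro S hS
    rw [mem_powersetCard] at hS
    rw [prod_mul_distrib, prod_const, hS.2]
    ring
  rw [h1]
  have h2 : ∑ S ∈ s.powersetCard J, ∏ P ∈ S, (t * x P) ≤ ∑ S ∈ s.powerset, ∏ P ∈ S, (t * x P) := by
    apply sum_le_sum_of_subset_of_nonneg (fun S hS => mem_powerset.2 (mem_powersetCard.1 hS).1)
    intro S hS _
    rw [mem_powerset] at hS
    exact prod_nonneg fun p hp => mul_nonneg ht.le (hx p (hS hp))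
  have h3 : ∑ S ∈ s.powerset, ∏ P ∈ S, (t * x P) = ∏ p ∈ s, (1 + t * x p) := by
    rw [prod_one_add]
  rw [h3] at h2
  refine h2.trans ?_
  rw [mul_sum, Real.exp_sum]
  apply prod_le_prod
  · intro p hp
    have := mul_nonneg ht.le (hx p hp)
    linarith
  · intro p _
    have := Real.add_one_le_exp (t * x p)
    linarith

/-- the number of small subsets -/
theorem card_small (s : Finset α) (J : ℕ) :
    ∑ j ∈ range (J + 1), (s.powersetCard j).card ≤ (s.card + 1) ^ J := by
  rw [add_pow]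
  apply sum_le_sum
  intro j hj
  rw [mem_range] at hj
  rw [card_powersetCard, one_pow, mul_one]
  have h1 : s.card.choose j ≤ s.card ^ j := Nat.choose_le_pow _ _
  have h2 : 1 ≤ J.choose j := Nat.choose_pos (by omega)
  calc s.card.choose j ≤ s.card ^ j * 1 := by omega
    _ ≤ s.card ^ j * J.choose j := Nat.mul_le_mul_left _ h2

open Classical in
/-- **The pure sieve.** -/
theorem brun {ι : Type*} (Ω : Finset ι) (w : ι → ℝ) (hw : ∀ f ∈ Ω, 0 ≤ w f) (s : Finset α)
    (bad : α → ι → Prop) (ω : α → ℝ) (hω : ∀ p ∈ s, 0 ≤ ω p ∧ ω p ≤ 1) (Y R : ℝ) (hY : 0 ≤ Y)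
    (J : ℕ)
    (h : ∀ S ⊆ s, S.card ≤ J → |∑ f ∈ Ω with ∀ p ∈ S, bad p f, w f - Y * ∏ p ∈ S, ω p| ≤ R) :
    |∑ f ∈ Ω with ∀ p ∈ s, ¬ bad p f, w f - Y * ∏ p ∈ s, (1 - ω p)| ≤
      2 * Y * es ω s J + R * ((s.card + 1 : ℕ) : ℝ) ^ J := by
  have hR : 0 ≤ R := (abs_nonneg _).trans (h ∅ (empty_subset _) (by simp))
  set x : ι → α → ℝ := fun f p => if bad p f then 1 else 0 with hx
  have hx01 : ∀ f, ∀ p ∈ s, 0 ≤ x f p ∧ x f p ≤ 1 := by
    intro f p _
    rw [hx]
    dsimp only
    split_ifs <;> norm_num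
  -- products of indicators
  have hprod : ∀ f, ∀ S : Finset α, ∏ p ∈ S, x f p = if ∀ p ∈ S, bad p f then 1 else 0 := by
    intro f S
    by_cases hS : ∀ p ∈ S, bad p f
    · rw [if_pos hS]
      apply prod_eq_one
      intro p hp
      exact if_pos (hS p hp)
    · rw [if_neg hS]
      push Not at hS
      obtain ⟨p, hp, hb⟩ := hS
      exact prod_eq_zero hp (if_neg hb)
  have hprod' : ∀ f, ∏ p ∈ s, (1 - x f p) = if ∀ p ∈ s, ¬ bad p f then 1 else 0 := by
    intro f
    by_cases hS : ∀ p ∈ s, ¬ bad p f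
    · rw [if_pos hS]
      apply prod_eq_one
      intro p hp
      rw [hx]
      dsimp only
      rw [if_neg (hS p hp), sub_zero]
    · rw [if_neg hS]
      push Not at hS
      obtain ⟨p, hp, hb⟩ := hS
      apply prod_eq_zero hp
      rw [hx]
      dsimp only
      rw [if_pos hb, sub_self]
  have hes : ∀ j, ∑ f ∈ Ω, w f * es (x f) s j =
      ∑ S ∈ s.powersetCard j, ∑ f ∈ Ω with ∀ p ∈ S, bad p f, w f := by
    intro j
    unfold es
    simp_rw [mul_sum]
    rw [sum_comm]
    apply sum_congr rfl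
    intro S _
    rw [sum_filter]
    apply sum_congr rfl
    intro f _
    rw [hprod]
    split_ifs <;> simp
  have hesb : ∀ j ≤ J, |∑ f ∈ Ω, w f * es (x f) s j - Y * es ω s j| ≤
      R * ((s.powersetCard j).card : ℝ) := by
    intro j hj
    rw [hes]
    unfold es
    rw [mul_sum, ← sum_sub_distrib]
    refine (abs_sum_le_sum_abs _ _).trans ?_
    rw [mul_comm, ← nsmul_eq_mul, ← sum_const]
    apply sum_le_sum
    intro S hS
    rw [mem_powersetCard] at hS
    exact h S hS.1 (by omega)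
  have h1 : ∑ f ∈ Ω with ∀ p ∈ s, ¬ bad p f, w f = ∑ f ∈ Ω, w f * ∏ p ∈ s, (1 - x f p) := by
    rw [sum_filter]
    apply sum_congr rfl
    intro f _
    rw [hprod']
    split_ifs <;> simp
  -- the pointwise inequality
  have h2 : |∑ f ∈ Ω, w f * ∏ p ∈ s, (1 - x f p) - ∑ f ∈ Ω, w f * DD (x f) s J| ≤
      ∑ f ∈ Ω, w f * es (x f) s J := by
    rw [← sum_sub_distrib]
    refine (abs_sum_le_sum_abs _ _).trans ?_
    apply sum_le_sum
    intro f hf
    rw [← mul_sub, abs_mul, abs_of_nonneg (hw f hf)]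
    exact mul_le_mul_of_nonneg_left (bonf_abs (x f) s (hx01 f) J) (hw f hf)
  have h3 : |∑ f ∈ Ω, w f * DD (x f) s J - Y * DD ω s J| ≤
      ∑ j ∈ range J, R * ((s.powersetCard j).card : ℝ) := by
    have h4 : ∑ f ∈ Ω, w f * DD (x f) s J - Y * DD ω s J =
        ∑ j ∈ range J, (-1) ^ j * (∑ f ∈ Ω, w f * es (x f) s j - Y * es ω s j) := by
      unfold DD
      simp_rw [mul_sum]
      rw [sum_comm, ← sum_sub_distrib]
      apply sum_congr rfl
      intro j _
      rw [mul_sub, mul_sum]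
      congr 1
      · apply sum_congr rfl
        intro f _
        ring
      · ring
    rw [h4]
    refine (abs_sum_le_sum_abs _ _).trans ?_
    apply sum_le_sum
    intro j hj
    rw [mem_range] at hj
    rw [abs_mul, abs_pow, abs_neg, abs_one, one_pow, one_mul]
    exact hesb j (by omega)
  have h5 : |Y * DD ω s J - Y * ∏ p ∈ s, (1 - ω p)| ≤ Y * es ω s J := by
    rw [← mul_sub, abs_mul, abs_of_nonneg hY, abs_sub_comm]
    exact mul_le_mul_of_nonneg_left (bonf_abs ω s hω J) hY
  have h6 : ∑ f ∈ Ω, w f * es (x f) s J ≤ Y * es ω s J + R * ((s.powersetCard J).card : ℝ) := by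
    have := (abs_le.1 (hesb J le_rfl)).2
    linarith
  have h7 : ∑ j ∈ range J, R * ((s.powersetCard j).card : ℝ) + R * ((s.powersetCard J).card : ℝ) ≤
      R * ((s.card + 1 : ℕ) : ℝ) ^ J := by
    rw [← sum_range_succ (fun j => R * ((s.powersetCard j).card : ℝ)), ← mul_sum]
    apply mul_le_mul_of_nonneg_left _ hR
    have := card_small s J
    exact_mod_cast this
  rw [h1]
  have h8 := abs_sub_le (∑ f ∈ Ω, w f * ∏ p ∈ s, (1 - x f p)) (∑ f ∈ Ω, w f * DD (x f) s J)
    (Y * ∏ p ∈ s, (1 - ω p))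
  have h9 := abs_sub_le (∑ f ∈ Ω, w f * DD (x f) s J) (Y * DD ω s J) (Y * ∏ p ∈ s, (1 - ω p))
  linarith

end Pool.Agent.H23.FF
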