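import Pool.Agent.H23.FF.Dir

/-!
# The circle method: the Fourier transform of the primes in short intervals, on average
-/

set_option autoImplicit false

open Finset Polynomial ComplexConjugate
open Pool.Agent.H341R2.Sharp (Mon mem_Mon)

namespace Pool.Agent.H23.FF

variable {F : Type} [Field F] [Fintype F]

/-- local Fourier transform -/
noncomputable def hat (G : F[X] → ℝ) (h : ℕ) (γ : AddChar F[X] ℂ) (f : F[X]) : ℂ :=
  ∑ v ∈ Lo F h, (G (f + v) : ℂ) * γ v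

/-- a form of Minkowski's inequality -/
theorem mink {ι : Type*} (S : Finset ι) (z e : ι → ℂ) (M E N : ℝ) (hM : 0 ≤ M) (hE : 0 ≤ E)
    (hz : ∀ i ∈ S, ‖z i‖ ≤ M) (he : ∑ i ∈ S, ‖e i‖ ^ 2 ≤ N * E ^ 2) (hN : (S.card : ℝ) = N) :
    ∑ i ∈ S, ‖z i + e i‖ ^ 2 ≤ N * (M + E) ^ 2 := by
  have hN0 : 0 ≤ N := by rw [← hN]; exact Nat.cast_nonneg _
  have h1 : ∑ i ∈ S, ‖z i + e i‖ ^ 2 ≤ ∑ i ∈ S, (M ^ 2 + 2 * M * ‖e i‖ + ‖e i‖ ^ 2) := by
    apply sum_le_sum
    intro i hi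
    have h2 := norm_add_le (z i) (e i)
    have h3 := hz i hi
    have h4 := norm_nonneg (e i)
    have h5 := norm_nonneg (z i + e i)
    have h6 : ‖z i + e i‖ ≤ M + ‖e i‖ := by linarith
    calc ‖z i + e i‖ ^ 2 ≤ (M + ‖e i‖) ^ 2 := pow_le_pow_left₀ h5 h6 2
      _ = M ^ 2 + 2 * M * ‖e i‖ + ‖e i‖ ^ 2 := by ring
  have h2 : ∑ i ∈ S, (M ^ 2 + 2 * M * ‖e i‖ + ‖e i‖ ^ 2) =
      N * M ^ 2 + 2 * M * ∑ i ∈ S, ‖e i‖ + ∑ i ∈ S, ‖e i‖ ^ 2 := by
    rw [sum_add_distrib, sum_add_distrib, sum_const, nsmul_eq_mul, hN, mul_sum]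
  have h3 : ∑ i ∈ S, ‖e i‖ ≤ N * E := by
    have h4 := sq_sum_le_card_mul_sum_sq (s := S) (f := fun i => ‖e i‖)
    rw [hN] at h4
    have h5 : (∑ i ∈ S, ‖e i‖) ^ 2 ≤ (N * E) ^ 2 := by
      refine h4.trans ?_
      calc N * ∑ i ∈ S, ‖e i‖ ^ 2 ≤ N * (N * E ^ 2) := mul_le_mul_of_nonneg_left he hN0
        _ = (N * E) ^ 2 := by ring
    exact le_of_sq_le_sq h5 (by positivity) |>.trans le_rfl
  nlinarith [mul_nonneg (mul_nonneg (by norm_num : (0:ℝ) ≤ 2) hM) (sub_nonneg.2 h3)]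

open Classical in
/-- the size of the main term -/
noncomputable def kap (γ : AddChar F[X] ℂ) (g : F[X]) (h : ℕ) : ℝ :=
  if ∀ v ∈ Lo F h, γ v = eta γ g v then ‖cE (eta γ g) g‖ / phi g else 0

theorem kap_nonneg (γ : AddChar F[X] ℂ) (g : F[X]) (h : ℕ) : 0 ≤ kap γ g h := by
  unfold kap
  split_ifs
  · positivity
  · exact le_rfl

theorem kap_le_one (γ : AddChar F[X] ℂ) {g : F[X]} (hg : g.Monic) (h : ℕ) : kap γ g h ≤ 1 := by
  unfold kap
  split_ifs
  · have h1 : (0 : ℝ) < phi g := by exact_mod_cast phi_pos hg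
    rw [div_le_one h1]
    exact norm_cE_le _ _
  · exact zero_le_one

/-- the sum of the weight over a residue class -/
noncomputable def Wc (n d : ℕ) (g f : F[X]) : ℝ := ∑ u ∈ Lo F d, wt n g (f + g * u)

theorem err_bound {k d l : ℕ} {g : F[X]} (hg : g.Monic) (hk : g.natDegree = k) (hdl : 1 ≤ d + l)
    (ζ : AddChar F[X] ℂ) (hζ : Per g ζ) :
    ∑ f ∈ Mon F (k + d + l), ‖∑ v ∈ Lo F (k + d), (wt (k + d + l) g (f + v) : ℂ) * ζ (f + v)‖ ^ 2 ≤
      q F ^ (2 * k + d) * ((k + l + 2 : ℝ) ^ 2 * q F ^ (k + d + l)) := by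
  set n := k + d + l with hn
  have h1 : ∀ f : F[X], ∑ v ∈ Lo F (k + d), (wt n g (f + v) : ℂ) * ζ (f + v) =
      ∑ b ∈ Lo F k, ζ (f + b) * (Wc n d g (f + b) : ℂ) := by
    intro f
    rw [sum_Lo_dec hg hk, sum_comm]
    apply sum_congr rfl
    intro b _
    unfold Wc
    push_cast
    rw [mul_sum]
    apply sum_congr rfl
    intro u _
    have h2 : f + (g * u + b) = (f + b) + g * u := by ring
    rw [h2, hζ]
    ring
  have h2 : ∀ f ∈ Mon F n, ‖∑ v ∈ Lo F (k + d), (wt n g (f + v) : ℂ) * ζ (f + v)‖ ^ 2 ≤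
      q F ^ k * ∑ b ∈ Lo F k, Wc n d g (f + b) ^ 2 := by
    intro f _
    rw [h1]
    have h3 : ‖∑ b ∈ Lo F k, ζ (f + b) * (Wc n d g (f + b) : ℂ)‖ ≤
        ∑ b ∈ Lo F k, |Wc n d g (f + b)| := by
      refine (norm_sum_le _ _).trans (le_of_eq ?_)
      apply sum_congr rfl
      intro b _
      rw [norm_mul, norm_char, one_mul, Complex.norm_real, Real.norm_eq_abs]
    have h4 := sq_sum_le_card_mul_sum_sq (s := Lo F k) (f := fun b => |Wc n d g (f + b)|)
    calc ‖∑ b ∈ Lo F k, ζ (f + b) * (Wc n d g (f + b) : ℂ)‖ ^ 2 ≤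
        (∑ b ∈ Lo F k, |Wc n d g (f + b)|) ^ 2 := pow_le_pow_left₀ (norm_nonneg _) h3 2
      _ ≤ _ := h4
      _ = q F ^ k * ∑ b ∈ Lo F k, Wc n d g (f + b) ^ 2 := by
        rw [card_Lo]
        unfold q
        push_cast
        congr 1
        apply sum_congr rfl
        intro b _
        rw [sq_abs]
  refine (sum_le_sum h2).trans ?_
  rw [← mul_sum, sum_comm]
  have h3 : ∀ b ∈ Lo F k, ∑ f ∈ Mon F n, Wc n d g (f + b) ^ 2 = ∑ f ∈ Mon F n, Wc n d g f ^ 2 := by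
    intro b hb
    exact sum_Mon_add (Lo_mono (by omega) hb) (fun f => Wc n d g f ^ 2)
  rw [sum_congr rfl h3, sum_const, card_Lo, nsmul_eq_mul]
  have h4 := variance hg hk hdl (m := d) (l := l)
  have h5 : ∑ f ∈ Mon F n, Wc n d g f ^ 2 ≤ q F ^ d * ((k + l + 2 : ℝ) ^ 2 * q F ^ n) := h4
  have h6 : 0 < q F := q_pos F
  have h7 : ((Fintype.card F ^ k : ℕ) : ℝ) = q F ^ k := by unfold q; push_cast; rfl
  rw [h7]
  calc q F ^ k * (q F ^ k * ∑ f ∈ Mon F n, Wc n d g f ^ 2) ≤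
      q F ^ k * (q F ^ k * (q F ^ d * ((k + l + 2 : ℝ) ^ 2 * q F ^ n))) := by gcongr
    _ = q F ^ (2 * k + d) * ((k + l + 2 : ℝ) ^ 2 * q F ^ n) := by
      rw [pow_add, two_mul, pow_add]
      ring

open Classical in
/-- the constant part -/
theorem const_part {k d : ℕ} {g : F[X]} (hg : g.Monic) (hk : g.natDegree = k)
    (ζ : AddChar F[X] ℂ) (hζ : Per g ζ) (f : F[X]) :
    ∑ v ∈ Lo F (k + d), (((if IsCoprime (f + v) g then q F ^ g.natDegree / phi g else 0 : ℝ)) : ℂ) *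
      ζ (f + v) = (q F : ℂ) ^ (k + d) / phi g * cE ζ g := by
  set G : F[X] → ℂ := fun x =>
    (((if IsCoprime x g then q F ^ g.natDegree / phi g else 0 : ℝ)) : ℂ) * ζ x with hG
  have hper : Per g G := by
    intro x y
    rw [hG]
    change (((if IsCoprime (x + g * y) g then q F ^ g.natDegree / phi g else 0 : ℝ)) : ℂ) *
      ζ (x + g * y) = (((if IsCoprime x g then q F ^ g.natDegree / phi g else 0 : ℝ)) : ℂ) * ζ x
    rw [hζ x y]
    by_cases h : IsCoprime x g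
    · rw [if_pos h, if_pos (IsCoprime.add_mul_left_left_iff.2 h)]
    · rw [if_neg h, if_neg (fun h' => h (IsCoprime.add_mul_left_left_iff.1 h'))]
  have h1 : ∑ v ∈ Lo F (k + d), G (f + v) = ∑ u ∈ Lo F d, ∑ b ∈ Lo F k, G (f + b) := by
    rw [sum_Lo_dec hg hk]
    apply sum_congr rfl
    intro u _
    apply sum_congr rfl
    intro b _
    have h2 : f + (g * u + b) = (f + b) + g * u := by ring
    rw [h2, hper]
  change ∑ v ∈ Lo F (k + d), G (f + v) = _
  rw [h1, sum_const, card_Lo, sum_Lo_per hg hk hper, nsmul_eq_mul]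
  have h2 : ∑ b ∈ Lo F k, G b = (q F : ℂ) ^ k / phi g * cE ζ g := by
    unfold cE
    rw [mul_sum, hk, sum_filter]
    apply sum_congr rfl
    intro b _
    rw [hG]
    change (((if IsCoprime b g then q F ^ g.natDegree / phi g else 0 : ℝ)) : ℂ) * ζ b = _
    by_cases h : IsCoprime b g
    · rw [if_pos h, if_pos h, hk]
      push_cast
      ring
    · rw [if_neg h, if_neg h]
      simp
  rw [h2]
  unfold q
  push_cast
  rw [pow_add]
  ring

/-- **The primes in short intervals and additive characters, on average.** -/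
theorem circ {n h d : ℕ} (h2d : 2 * d ≤ h) (hhn : h ≤ n) (hn : 1 ≤ n) (γ : AddChar F[X] ℂ) {g : F[X]}
    (hg : g.Monic) (hgd : g.natDegree ≤ d) (hγ : ∀ v ∈ Lo F d, γ (g * v) = 1) :
    ∑ f ∈ Mon F n, ‖hat (th n) h γ f‖ ^ 2 ≤
      q F ^ n * (q F ^ h * kap γ g h + q F ^ h * ((n + 2 : ℝ) / (√(q F)) ^ d)) ^ 2 := by
  classical
  obtain ⟨k, hk⟩ : ∃ k, g.natDegree = k := ⟨_, rfl⟩
  obtain ⟨h', hh'⟩ : ∃ h', h = k + d + h' := ⟨h - (k + d), by omega⟩
  obtain ⟨l, hl⟩ : ∃ l, n = k + d + l := ⟨n - (k + d), by omega⟩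
  have hdl : 1 ≤ d + l := by omega
  have hq := q_pos F
  have hq1 : (1 : ℝ) ≤ q F := by have := two_le_q F; linarith
  set η := eta γ g with hη
  have hper : Per g η := eta_per γ hg
  set X₀ : F[X] := X ^ (k + d) with hX₀
  have hX₀m : X₀.Monic := monic_X_pow _
  have hX₀d : X₀.natDegree = k + d := natDegree_X_pow _
  -- the error
  set D : F[X] → ℂ := fun f => ∑ v ∈ Lo F (k + d), (wt n g (f + v) : ℂ) * η (f + v) with hD
  set S₀ : ℂ := (q F : ℂ) ^ (k + d) / phi g * cE η g with hS₀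
  have hS : ∀ f : F[X], ∑ v ∈ Lo F (k + d), (th n (f + v) : ℂ) * η (f + v) = D f + S₀ := by
    intro f
    have h0 := const_part (d := d) hg hk η hper f
    rw [← hS₀] at h0
    rw [← h0]
    change _ = ∑ v ∈ Lo F (k + d), (wt n g (f + v) : ℂ) * η (f + v) + _
    rw [← sum_add_distrib]
    apply sum_congr rfl
    intro v _
    unfold wt
    push_cast
    ring
  -- the decomposition of the Fourier transform
  have hdec : ∀ f : F[X], hat (th n) h γ f =
      S₀ * η (-f) * ∑ y ∈ Lo F h', γ (X₀ * y) * η (-(X₀ * y)) +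
      ∑ y ∈ Lo F h', γ (X₀ * y) * η (-(f + X₀ * y)) * D (f + X₀ * y) := by
    intro f
    unfold hat
    rw [hh', sum_Lo_dec hX₀m hX₀d, mul_sum, ← sum_add_distrib]
    apply sum_congr rfl
    intro y _
    have h1 : ∑ v ∈ Lo F (k + d), (th n (f + (X₀ * y + v)) : ℂ) * γ (X₀ * y + v) =
        γ (X₀ * y) * η (-(f + X₀ * y)) *
          ∑ v ∈ Lo F (k + d), (th n (f + X₀ * y + v) : ℂ) * η (f + X₀ * y + v) := by
      rw [mul_sum]
      apply sum_congr rfl
      intro v hv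
      rw [AddChar.map_add_eq_mul, eta_eq γ hg hk hγ hv, ← hη, AddChar.map_add_eq_mul η (f + X₀ * y) v,
        ← add_assoc]
      have h2 := char_mul_neg η (f + X₀ * y)
      calc (th n (f + X₀ * y + v) : ℂ) * (γ (X₀ * y) * η v) =
          (th n (f + X₀ * y + v) : ℂ) * (γ (X₀ * y) * η v) * 1 := by ring
        _ = (th n (f + X₀ * y + v) : ℂ) * (γ (X₀ * y) * η v) *
            (η (f + X₀ * y) * η (-(f + X₀ * y))) := by rw [h2]
        _ = γ (X₀ * y) * η (-(f + X₀ * y)) *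
            ((th n (f + X₀ * y + v) : ℂ) * (η (f + X₀ * y) * η v)) := by ring
    rw [h1, hS, neg_add, AddChar.map_add_eq_mul η (-f)]
    ring
  -- the main term
  have hmain : ∀ f ∈ Mon F n, ‖S₀ * η (-f) * ∑ y ∈ Lo F h', γ (X₀ * y) * η (-(X₀ * y))‖ ≤
      q F ^ h * kap γ g h := by
    intro f _
    rw [norm_mul, norm_mul, norm_char, mul_one]
    have hphi : (0 : ℝ) < phi g := by exact_mod_cast phi_pos hg
    have h1 : ‖S₀‖ = q F ^ (k + d) * (‖cE η g‖ / phi g) := by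
      rw [hS₀, norm_mul, norm_div, norm_pow, Complex.norm_real, Real.norm_eq_abs, abs_of_pos hq,
        Complex.norm_natCast]
      ring
    by_cases hc : ∀ v ∈ Lo F h, γ v = η v
    · have h2 : kap γ g h = ‖cE η g‖ / phi g := by
        unfold kap
        rw [if_pos hc]
      have h3 : ‖∑ y ∈ Lo F h', γ (X₀ * y) * η (-(X₀ * y))‖ ≤ q F ^ h' := by
        refine (norm_sum_le _ _).trans ?_
        have h4 : ∀ y ∈ Lo F h', ‖γ (X₀ * y) * η (-(X₀ * y))‖ = 1 := by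
          intro y _
          rw [norm_mul, norm_char, norm_char, mul_one]
        rw [sum_congr rfl h4, sum_const, card_Lo, nsmul_eq_mul, mul_one]
        unfold q
        push_cast
        exact le_rfl
      rw [h1, h2, hh', pow_add (q F) (k + d) h']
      have h5 : 0 ≤ ‖cE η g‖ / phi g := by positivity
      calc q F ^ (k + d) * (‖cE η g‖ / phi g) * ‖∑ y ∈ Lo F h', γ (X₀ * y) * η (-(X₀ * y))‖ ≤
          q F ^ (k + d) * (‖cE η g‖ / phi g) * q F ^ h' := by gcongr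
        _ = q F ^ (k + d) * q F ^ h' * (‖cE η g‖ / phi g) := by ring
    · have h2 : ∑ y ∈ Lo F h', γ (X₀ * y) * η (-(X₀ * y)) = 0 := by
        push Not at hc
        obtain ⟨v, hv, hne⟩ := hc
        rw [hh'] at hv
        -- v = X₀ y + b
        set y := v /ₘ X₀ with hy
        set b := v %ₘ X₀ with hb
        have hyb : v = X₀ * y + b := by
          rw [add_comm]
          exact (modByMonic_add_div v X₀).symm
        have hyl : y ∈ Lo F h' := div_mem_Lo hX₀m hX₀d hv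
        have hbl : b ∈ Lo F (k + d) := mod_mem_Lo hX₀m hX₀d v
        have hne2 : γ (X₀ * y) * η (-(X₀ * y)) ≠ 1 := by
          intro h3
          apply hne
          have h4 : γ (X₀ * y) = η (X₀ * y) := by
            have h5 := char_mul_neg η (X₀ * y)
            calc γ (X₀ * y) = γ (X₀ * y) * (η (X₀ * y) * η (-(X₀ * y))) := by rw [h5, mul_one]
              _ = (γ (X₀ * y) * η (-(X₀ * y))) * η (X₀ * y) := by ring
              _ = η (X₀ * y) := by rw [h3, one_mul]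
          rw [hyb, AddChar.map_add_eq_mul, AddChar.map_add_eq_mul, h4, eta_eq γ hg hk hγ hbl]
        set ξ : AddChar F[X] ℂ :=
          { toFun := fun v => γ v * η (-v)
            map_zero_eq_one' := by rw [neg_zero, AddChar.map_zero_eq_one, AddChar.map_zero_eq_one,
              mul_one]
            map_add_eq_mul' := by
              intro a b
              rw [neg_add, AddChar.map_add_eq_mul, AddChar.map_add_eq_mul]
              ring } with hξ
        exact sum_char_zero ξ h' X₀ hyl hne2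
      have h3 := kap_nonneg γ g h
      rw [h2, norm_zero, mul_zero]
      positivity
  -- the error term
  have herr : ∑ f ∈ Mon F n, ‖∑ y ∈ Lo F h', γ (X₀ * y) * η (-(f + X₀ * y)) * D (f + X₀ * y)‖ ^ 2 ≤
      q F ^ n * (q F ^ h * ((n + 2 : ℝ) / (√(q F)) ^ d)) ^ 2 := by
    have h1 : ∀ f ∈ Mon F n,
        ‖∑ y ∈ Lo F h', γ (X₀ * y) * η (-(f + X₀ * y)) * D (f + X₀ * y)‖ ^ 2 ≤
        q F ^ h' * ∑ y ∈ Lo F h', ‖D (f + X₀ * y)‖ ^ 2 := by
      intro f _
      have h3 : ‖∑ y ∈ Lo F h', γ (X₀ * y) * η (-(f + X₀ * y)) * D (f + X₀ * y)‖ ≤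
          ∑ y ∈ Lo F h', ‖D (f + X₀ * y)‖ := by
        refine (norm_sum_le _ _).trans (le_of_eq ?_)
        apply sum_congr rfl
        intro b _
        rw [norm_mul, norm_mul, norm_char, norm_char, one_mul, one_mul]
      have h4 := sq_sum_le_card_mul_sum_sq (s := Lo F h') (f := fun y => ‖D (f + X₀ * y)‖)
      refine (pow_le_pow_left₀ (norm_nonneg _) h3 2).trans (h4.trans (le_of_eq ?_))
      rw [card_Lo]
      unfold q
      push_cast
      rfl
    refine (sum_le_sum h1).trans ?_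
    rw [← mul_sum, sum_comm]
    have h2 : ∀ y ∈ Lo F h', ∑ f ∈ Mon F n, ‖D (f + X₀ * y)‖ ^ 2 = ∑ f ∈ Mon F n, ‖D f‖ ^ 2 := by
      intro y hy
      apply sum_Mon_add (G := fun f => ‖D f‖ ^ 2)
      exact Lo_mono (by omega) (mul_mem_Lo hX₀m hX₀d hy)
    rw [sum_congr rfl h2, sum_const, card_Lo, nsmul_eq_mul]
    have h3 := err_bound hg hk hdl η hper (d := d) (l := l)
    rw [← hl] at h3
    have h4 : ∑ f ∈ Mon F n, ‖D f‖ ^ 2 ≤ q F ^ (2 * k + d) * ((k + l + 2 : ℝ) ^ 2 * q F ^ n) := h3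
    have h5 : ((Fintype.card F ^ h' : ℕ) : ℝ) = q F ^ h' := by unfold q; push_cast; rfl
    rw [h5]
    have h6 : (k + l + 2 : ℝ) ≤ n + 2 := by
      have : k + l ≤ n := by omega
      have : ((k + l : ℕ) : ℝ) ≤ n := by exact_mod_cast this
      push_cast at this
      linarith
    have h7 : (k + l + 2 : ℝ) ^ 2 ≤ (n + 2 : ℝ) ^ 2 := pow_le_pow_left₀ (by positivity) h6 2
    have h8 : (√(q F) ^ d) ^ 2 = q F ^ d := by
      rw [← pow_mul, mul_comm, pow_mul, Real.sq_sqrt hq.le]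
    have h9 : q F ^ n * (q F ^ h * ((n + 2 : ℝ) / (√(q F)) ^ d)) ^ 2 =
        q F ^ h' * (q F ^ h' * (q F ^ (2 * k + d) * ((n + 2 : ℝ) ^ 2 * q F ^ n))) := by
      rw [mul_pow, div_pow, h8, hh']
      have h10 : q F ^ d ≠ 0 := by positivity
      field_simp
      ring
    rw [h9]
    calc q F ^ h' * (q F ^ h' * ∑ f ∈ Mon F n, ‖D f‖ ^ 2) ≤
        q F ^ h' * (q F ^ h' * (q F ^ (2 * k + d) * ((k + l + 2 : ℝ) ^ 2 * q F ^ n))) := by gcongr
      _ ≤ _ := by gcongr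
  rw [sum_congr rfl fun f _ => by rw [hdec f]]
  refine mink _ _ _ _ _ _ ?_ ?_ hmain herr ?_
  · have := kap_nonneg γ g h
    positivity
  · positivity
  · rw [card_Mon]
    unfold q
    push_cast
    rfl

end Pool.Agent.H23.FF
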