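import Pool.Agent.H23.FF.Circ
import Pool.Agent.H23.FF.Bonf

/-!
# Counting in residue classes
-/

set_option autoImplicit false

open Finset Polynomial ComplexConjugate
open Pool.Agent.H341R2.Sharp (Mon mem_Mon)

namespace Pool.Agent.H23.FF

variable {F : Type} [Field F] [Fintype F]

/-- the norm of a polynomial -/
noncomputable def nrm (P : F[X]) : ℝ := q F ^ P.natDegree

theorem nrm_pos (P : F[X]) : 0 < nrm P := pow_pos (q_pos F) _

theorem nrm_mul {P Q : F[X]} (hP : P.Monic) (hQ : Q.Monic) : nrm (P * Q) = nrm P * nrm Q := by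
  unfold nrm
  rw [hP.natDegree_mul hQ, pow_add]

theorem one_lt_nrm {P : F[X]} (hP : Irreducible P) : 1 < nrm P := by
  unfold nrm
  have h1 : P.natDegree ≠ 0 := by
    have := hP.natDegree_pos
    omega
  have := two_le_q F
  exact one_lt_pow₀ (by linarith) h1

theorem two_le_nrm {P : F[X]} (hP : Irreducible P) : 2 ≤ nrm P := by
  unfold nrm
  have h1 := hP.natDegree_pos
  have h2 := two_le_q F
  calc (2 : ℝ) ≤ q F := h2
    _ = q F ^ 1 := (pow_one _).symm
    _ ≤ q F ^ P.natDegree := pow_le_pow_right₀ (by linarith) h1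

open Classical in
/-- one residue class -/
theorem card_class {k n : ℕ} {g : F[X]} (hg : g.Monic) (hk : g.natDegree = k) (hkn : k ≤ n)
    (c : F[X]) : (((Mon F n).filter (fun f => g ∣ f + c)).card : ℝ) = q F ^ n / nrm g := by
  obtain ⟨m, rfl⟩ := Nat.exists_eq_add_of_le hkn
  rw [card_filter, sum_Mon_dec hg hk]
  have h1 : ∀ u ∈ Mon F m, ∑ b ∈ Lo F k, (if g ∣ g * u + b + c then 1 else 0) = 1 := by
    intro u _
    rw [sum_eq_single ((-c) %ₘ g)]
    · rw [if_pos]
      have h2 := modByMonic_add_div (-c) g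
      refine ⟨u - (-c) /ₘ g, ?_⟩
      have h3 : (-c) %ₘ g = -c - g * ((-c) /ₘ g) := by
        rw [eq_sub_iff_add_eq]
        exact h2
      rw [h3]
      ring
    · intro b hb hne
      rw [if_neg]
      intro hd
      apply hne
      have h3 : g ∣ b + c := by
        have h4 : b + c = (g * u + b + c) - g * u := by ring
        rw [h4]
        exact dvd_sub hd (dvd_mul_right _ _)
      have h4 : b = b %ₘ g := by
        rw [eq_comm, modByMonic_eq_self_iff hg]
        rw [mem_Lo] at hb
        rwa [degree_eq_natDegree hg.ne_zero, hk]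
      rw [h4]
      rw [← sub_eq_zero, ← sub_modByMonic, modByMonic_eq_zero_iff_dvd hg, sub_neg_eq_add]
      exact h3
    · intro h
      exact absurd (mod_mem_Lo hg hk (-c)) h
  rw [sum_congr rfl h1, sum_const, card_Mon, smul_eq_mul, mul_one]
  unfold nrm q
  rw [hk, pow_add]
  have : (0 : ℝ) < (Fintype.card F : ℝ) ^ k := by
    have := q_pos F
    unfold q at this
    positivity
  field_simp
  push_cast
  ring

omit [Fintype F] in
/-- the Chinese remainder theorem -/
theorem crt {g P : F[X]} (h : IsCoprime g P) (c ρ : F[X]) :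
    ∃ c', ∀ f, (g ∣ f + c ∧ P ∣ f + ρ) ↔ g * P ∣ f + c' := by
  obtain ⟨a, b, hab⟩ := h
  refine ⟨c * (b * P) + ρ * (a * g), fun f => ?_⟩
  have h1 : f + (c * (b * P) + ρ * (a * g)) = (f + c) + (ρ - c) * a * g := by
    have : b * P = 1 - a * g := by rw [← hab]; ring
    rw [this]
    ring
  have h2 : f + (c * (b * P) + ρ * (a * g)) = (f + ρ) + (c - ρ) * b * P := by
    have : a * g = 1 - b * P := by rw [← hab]; ring
    rw [this]
    ring
  constructor
  · rintro ⟨h3, h4⟩
    apply IsCoprime.mul_dvd ⟨a, b, hab⟩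
    · rw [h1]
      exact dvd_add h3 (dvd_mul_left _ _)
    · rw [h2]
      exact dvd_add h4 (dvd_mul_left _ _)
  · intro h3
    constructor
    · have h4 : f + c = (f + (c * (b * P) + ρ * (a * g))) - (ρ - c) * a * g := by rw [h1]; ring
      rw [h4]
      exact dvd_sub ((dvd_mul_right _ _).trans h3) (dvd_mul_left _ _)
    · have h4 : f + ρ = (f + (c * (b * P) + ρ * (a * g))) - (c - ρ) * b * P := by rw [h2]; ring
      rw [h4]
      exact dvd_sub ((dvd_mul_left _ _).trans h3) (dvd_mul_left _ _)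

section tuple

variable {ι : Type*} [Fintype ι]

open Classical in
/-- the residues of a tuple -/
noncomputable def res (b : ι → F[X]) (P : F[X]) : Finset F[X] := univ.image (fun i => b i %ₘ P)

/-- the number of residues occupied by a tuple -/
noncomputable def nu (b : ι → F[X]) (P : F[X]) : ℕ := (res b P).card

omit [Fintype F] in
theorem nu_le (b : ι → F[X]) (P : F[X]) : nu b P ≤ Fintype.card ι := by
  classical
  unfold nu res
  exact card_image_le.trans (by simp)

theorem nu_le_nrm (b : ι → F[X]) {P : F[X]} (hP : P.Monic) : (nu b P : ℝ) ≤ nrm P := by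
  classical
  have h1 : res b P ⊆ Lo F P.natDegree := by
    intro ρ hρ
    unfold res at hρ
    rw [mem_image] at hρ
    obtain ⟨i, _, rfl⟩ := hρ
    exact mod_mem_Lo hP rfl _
  have h2 := card_le_card h1
  rw [card_Lo] at h2
  unfold nu nrm q
  exact_mod_cast h2

omit [Fintype F] in
theorem mem_res {b : ι → F[X]} {P ρ : F[X]} (h : ρ ∈ res b P) (hP : P.Monic) :
    (∃ i, P ∣ b i - ρ) ∧ ρ.degree < P.degree := by
  classical
  unfold res at h
  rw [mem_image] at h
  obtain ⟨i, _, rfl⟩ := h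
  refine ⟨⟨i, ?_⟩, degree_modByMonic_lt _ hP⟩
  refine ⟨b i /ₘ P, ?_⟩
  have := modByMonic_add_div (b i) P
  nth_rewrite 1 [← this]
  ring

omit [Fintype F] in
theorem exists_res {b : ι → F[X]} {P f : F[X]} {i : ι} (h : P ∣ f + b i) :
    ∃ ρ ∈ res b P, P ∣ f + ρ := by
  classical
  refine ⟨b i %ₘ P, ?_, ?_⟩
  · unfold res
    exact mem_image_of_mem _ (mem_univ i)
  · have h1 := modByMonic_add_div (b i) P
    have h2 : f + b i %ₘ P = (f + b i) - P * (b i /ₘ P) := by
      nth_rewrite 2 [← h1]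
      ring
    rw [h2]
    exact dvd_sub h (dvd_mul_right _ _)

open Classical in
/-- **Exact counting of the polynomials with prescribed bad primes in a residue class.** -/
theorem card_bad (b : ι → F[X]) (S : Finset F[X]) (hS : ∀ P ∈ S, P.Monic ∧ Irreducible P) (n : ℕ) :
    ∀ g : F[X], g.Monic → (∀ P ∈ S, ¬ P ∣ g) → g.natDegree + ∑ P ∈ S, P.natDegree ≤ n → ∀ c : F[X],
    (((Mon F n).filter (fun f => g ∣ f + c ∧ ∀ P ∈ S, ∃ i, P ∣ f + b i)).card : ℝ) =
      q F ^ n / nrm g * ∏ P ∈ S, (nu b P / nrm P : ℝ) := by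
  induction S using Finset.induction_on with
  | empty =>
    intro g hg _ hn c
    rw [prod_empty, mul_one, ← card_class hg rfl (by simpa using hn) c]
    simp
  | insert P S hP ih =>
    intro g hg hgS hn c
    have hS' : ∀ P ∈ S, P.Monic ∧ Irreducible P := fun R hR => hS R (mem_insert_of_mem hR)
    obtain ⟨hPm, hPi⟩ := hS P (mem_insert_self P S)
    have hcop : IsCoprime g P := by
      rw [isCoprime_comm, hPi.coprime_iff_not_dvd]
      exact hgS P (mem_insert_self P S)
    have h1 : (Mon F n).filter (fun f => g ∣ f + c ∧ ∀ R ∈ insert P S, ∃ i, R ∣ f + b i) =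
        (res b P).biUnion (fun ρ => (Mon F n).filter
          (fun f => (g ∣ f + c ∧ P ∣ f + ρ) ∧ ∀ R ∈ S, ∃ i, R ∣ f + b i)) := by
      ext f
      rw [mem_filter, mem_biUnion]
      constructor
      · rintro ⟨hf, h2, h3⟩
        obtain ⟨i, hi⟩ := h3 P (mem_insert_self P S)
        obtain ⟨ρ, hρ, h4⟩ := exists_res hi
        refine ⟨ρ, hρ, ?_⟩
        rw [mem_filter]
        exact ⟨hf, ⟨h2, h4⟩, fun R hR => h3 R (mem_insert_of_mem hR)⟩
      · rintro ⟨ρ, hρ, h4⟩
        rw [mem_filter] at h4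
        obtain ⟨hf, ⟨h5, h6⟩, h7⟩ := h4
        refine ⟨hf, h5, ?_⟩
        intro R hR
        rw [mem_insert] at hR
        rcases hR with rfl | hR
        · obtain ⟨⟨i, hi⟩, _⟩ := mem_res hρ hPm
          refine ⟨i, ?_⟩
          have : f + b i = (f + ρ) + (b i - ρ) := by ring
          rw [this]
          exact dvd_add h6 hi
        · exact h7 R hR
    have hdisj : Set.PairwiseDisjoint (↑(res b P) : Set F[X]) (fun ρ => (Mon F n).filter
          (fun f => (g ∣ f + c ∧ P ∣ f + ρ) ∧ ∀ R ∈ S, ∃ i, R ∣ f + b i)) := by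
      intro ρ hρ ρ' hρ' hne
      rw [Function.onFun, disjoint_left]
      intro f hf hf'
      rw [mem_filter] at hf hf'
      apply hne
      have h3 : P ∣ ρ - ρ' := by
        have : ρ - ρ' = (f + ρ) - (f + ρ') := by ring
        rw [this]
        exact dvd_sub hf.2.1.2 hf'.2.1.2
      have h4 := (mem_res (mem_coe.1 hρ) hPm).2
      have h5 := (mem_res (mem_coe.1 hρ') hPm).2
      exact sub_eq_zero.1 (eq_zero_of_dvd_of_degree_lt h3
        ((degree_sub_le _ _).trans_lt (max_lt h4 h5)))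
    rw [h1, card_biUnion (fun ρ hρ ρ' hρ' hne => hdisj (mem_coe.2 hρ) (mem_coe.2 hρ') hne)]
    push_cast
    rw [sum_insert hP] at hn
    have hgP : (g * P).Monic := hg.mul hPm
    have hdeg : (g * P).natDegree = g.natDegree + P.natDegree := hg.natDegree_mul hPm
    have hgPS : ∀ R ∈ S, ¬ R ∣ g * P := by
      intro R hR hd
      rcases (hS' R hR).2.prime.dvd_or_dvd hd with h3 | h3
      · exact hgS R (mem_insert_of_mem hR) h3
      · have h4 : Associated R P := (hS' R hR).2.associated_of_dvd hPi h3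
        have h5 : R = P := eq_of_monic_of_associated (hS' R hR).1 hPm h4
        exact hP (h5 ▸ hR)
    have h2 : ∀ ρ ∈ res b P, (((Mon F n).filter
          (fun f => (g ∣ f + c ∧ P ∣ f + ρ) ∧ ∀ R ∈ S, ∃ i, R ∣ f + b i)).card : ℝ) =
        q F ^ n / nrm (g * P) * ∏ R ∈ S, (nu b R / nrm R : ℝ) := by
      intro ρ _
      obtain ⟨c', hc'⟩ := crt hcop c ρ
      rw [← ih hS' (g * P) hgP hgPS (by rw [hdeg]; omega) c']
      congr 2
      apply filter_congr
      intro f _
      rw [hc' f]
    rw [sum_congr rfl h2, sum_const, nsmul_eq_mul, prod_insert hP, nrm_mul hg hPm]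
    unfold nu
    have h3 := nrm_pos g
    have h4 := nrm_pos P
    field_simp

end tuple

/-! ### Euler's function -/

/-- Euler's function at a product -/
theorem phi_mul {P g' : F[X]} (hP : P.Monic) (hirr : Irreducible P) (hg' : g'.Monic)
    (hPg : ¬ P ∣ g') : (phi (P * g') : ℝ) = (nrm P - 1) * phi g' := by
  classical
  have hdeg : (P * g').natDegree = g'.natDegree + P.natDegree := by
    rw [hP.natDegree_mul hg', add_comm]
  have hcop : ∀ u b : F[X], IsCoprime (g' * u + b) (P * g') ↔ ¬ P ∣ g' * u + b ∧ IsCoprime b g' := by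
    intro u b
    rw [IsCoprime.mul_right_iff]
    have h1 : IsCoprime (g' * u + b) g' ↔ IsCoprime b g' := by
      rw [add_comm]
      exact IsCoprime.add_mul_left_left_iff
    have h2 : IsCoprime (g' * u + b) P ↔ ¬ P ∣ g' * u + b := by
      rw [isCoprime_comm, hirr.coprime_iff_not_dvd]
    rw [h1, h2]
  have hcopP : IsCoprime P g' := by
    rw [hirr.coprime_iff_not_dvd]
    exact hPg
  have huniq : ∀ b : F[X], ((Lo F P.natDegree).filter (fun u => P ∣ g' * u + b)).card = 1 := by
    intro b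
    obtain ⟨x, y, hxy⟩ := hcopP
    rw [card_eq_one]
    refine ⟨(-(b * y)) %ₘ P, ?_⟩
    ext u
    rw [mem_filter, mem_singleton]
    have hz : P ∣ g' * ((-(b * y)) %ₘ P) + b := by
      have h1 := modByMonic_add_div (-(b * y)) P
      have h2 : (-(b * y)) %ₘ P = -(b * y) - P * ((-(b * y)) /ₘ P) := by
        rw [eq_sub_iff_add_eq]
        exact h1
      have h3 : y * g' = 1 - x * P := by rw [← hxy]; ring
      refine ⟨b * x - g' * ((-(b * y)) /ₘ P), ?_⟩
      rw [h2]
      calc g' * (-(b * y) - P * ((-(b * y)) /ₘ P)) + b =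
          b * (1 - y * g') - P * (g' * ((-(b * y)) /ₘ P)) := by ring
        _ = P * (b * x - g' * ((-(b * y)) /ₘ P)) := by rw [h3]; ring
    constructor
    · rintro ⟨hu1, hu2⟩
      have h1 : P ∣ g' * (u - (-(b * y)) %ₘ P) := by
        have h2 : g' * (u - (-(b * y)) %ₘ P) = (g' * u + b) - (g' * ((-(b * y)) %ₘ P) + b) := by ring
        rw [h2]
        exact dvd_sub hu2 hz
      have h2 : P ∣ u - (-(b * y)) %ₘ P := (hirr.prime.dvd_or_dvd h1).resolve_left hPg
      have h3 : u - (-(b * y)) %ₘ P ∈ Lo F P.natDegree := sub_mem_Lo hu1 (mod_mem_Lo hP rfl _)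
      rw [mem_Lo, ← degree_eq_natDegree hP.ne_zero] at h3
      exact sub_eq_zero.1 (eq_zero_of_dvd_of_degree_lt h2 h3)
    · rintro rfl
      exact ⟨mod_mem_Lo hP rfl _, hz⟩
  have h1 : phi (P * g') = ∑ b ∈ (Lo F g'.natDegree).filter (fun b => IsCoprime b g'),
      ((Lo F P.natDegree).filter (fun u => ¬ P ∣ g' * u + b)).card := by
    unfold phi
    rw [card_filter, hdeg, sum_Lo_dec hg' rfl, sum_comm, sum_filter]
    apply sum_congr rfl
    intro b _
    by_cases hb : IsCoprime b g'
    · rw [if_pos hb, card_filter]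
      apply sum_congr rfl
      intro u _
      by_cases hu : P ∣ g' * u + b
      · rw [if_neg, if_neg (not_not.2 hu)]
        intro h
        exact ((hcop u b).1 h).1 hu
      · rw [if_pos ((hcop u b).2 ⟨hu, hb⟩), if_pos hu]
    · rw [if_neg hb]
      apply sum_eq_zero
      intro u _
      rw [if_neg]
      intro h
      exact hb ((hcop u b).1 h).2
  have h2 : ∀ b ∈ (Lo F g'.natDegree).filter (fun b => IsCoprime b g'),
      ((((Lo F P.natDegree).filter (fun u => ¬ P ∣ g' * u + b)).card : ℕ) : ℝ) = nrm P - 1 := by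
    intro b _
    have h3 := card_filter_add_card_filter_not (s := Lo F P.natDegree) (fun u => P ∣ g' * u + b)
    rw [huniq b, card_Lo] at h3
    have h4 : ((Fintype.card F ^ P.natDegree : ℕ) : ℝ) =
        ((1 + ((Lo F P.natDegree).filter (fun u => ¬ P ∣ g' * u + b)).card : ℕ) : ℝ) := by
      rw [h3]
    unfold nrm q
    push_cast at h4
    linarith
  rw [h1]
  push_cast
  rw [sum_congr rfl h2, sum_const, nsmul_eq_mul]
  unfold phi
  ring

theorem phi_one : phi (1 : F[X]) = 1 := by
  classical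
  unfold phi
  rw [natDegree_one]
  have h1 : Lo F 0 = {0} := by
    ext v
    rw [mem_Lo, mem_singleton]
    constructor
    · intro h
      by_contra hv
      rw [degree_eq_natDegree hv] at h
      have : v.natDegree < 0 := by exact_mod_cast h
      omega
    · rintro rfl
      rw [degree_zero]
      exact WithBot.bot_lt_coe _
  rw [h1, filter_singleton, if_pos isCoprime_one_right, card_singleton]

omit [Fintype F] in
theorem monic_prod_id {S : Finset F[X]} (hS : ∀ P ∈ S, P.Monic) : (∏ P ∈ S, P).Monic :=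
  monic_prod_of_monic _ _ hS

omit [Fintype F] in
theorem not_dvd_prod {S : Finset F[X]} (hS : ∀ P ∈ S, P.Monic ∧ Irreducible P) {P : F[X]}
    (hP : P.Monic ∧ Irreducible P) (hPS : P ∉ S) : ¬ P ∣ ∏ R ∈ S, R := by
  intro h
  rw [hP.2.prime.dvd_finsetProd_iff] at h
  obtain ⟨R, hR, hd⟩ := h
  have h4 : Associated P R := hP.2.associated_of_dvd (hS R hR).2 hd
  have h5 : P = R := eq_of_monic_of_associated hP.1 (hS R hR).1 h4
  exact hPS (h5 ▸ hR)

theorem phi_prod [DecidableEq F[X]] (S : Finset F[X]) (hS : ∀ P ∈ S, P.Monic ∧ Irreducible P) :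
    (phi (∏ P ∈ S, P) : ℝ) = ∏ P ∈ S, (nrm P - 1) := by
  induction S using Finset.induction_on with
  | empty =>
    rw [prod_empty, prod_empty, phi_one]
    norm_num
  | insert P S hP ih =>
    have hS' : ∀ P ∈ S, P.Monic ∧ Irreducible P := fun R hR => hS R (mem_insert_of_mem hR)
    have hPm := hS P (mem_insert_self P S)
    rw [prod_insert hP, prod_insert hP, phi_mul hPm.1 hPm.2 (monic_prod_id fun R hR => (hS' R hR).1)
      (not_dvd_prod hS' hPm hP), ih hS']

theorem nrm_prod (S : Finset F[X]) (hS : ∀ P ∈ S, P.Monic) :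
    nrm (∏ P ∈ S, P) = ∏ P ∈ S, nrm P := by
  unfold nrm
  rw [natDegree_prod_of_monic _ _ hS, prod_pow_eq_pow_sum]

/-! ### Primes in a residue class -/

open Classical in
/-- the prime number theorem in a residue class -/
theorem th_class {n : ℕ} {g : F[X]} (hg : g.Monic) (hgn : g.natDegree < n) {c : F[X]}
    (hc : IsCoprime c g) :
    |∑ f ∈ (Mon F n).filter (fun f => g ∣ f + c), th n f - q F ^ n / phi g| ≤
      (g.natDegree + 2 : ℝ) * (√(q F)) ^ n := by
  obtain ⟨k, hk⟩ : ∃ k, g.natDegree = k := ⟨_, rfl⟩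
  obtain ⟨m, hm⟩ : ∃ m, n = k + m := ⟨n - k, by omega⟩
  have hq := q_pos F
  -- a representative
  set f₀ : F[X] := g * X ^ m + (-c) %ₘ g with hf₀
  have hf₀m : f₀ ∈ Mon F n := by
    rw [hm]
    apply add_mem_Mon
    · rw [mem_Mon]
      exact ⟨hg.mul (monic_X_pow m), by rw [hg.natDegree_mul (monic_X_pow m), hk, natDegree_X_pow]⟩
    · exact Lo_mono (by omega) (mod_mem_Lo hg hk (-c))
  have hf₀c : g ∣ f₀ + c := by
    have h1 := modByMonic_add_div (-c) g
    have h3 : (-c) %ₘ g = -c - g * ((-c) /ₘ g) := by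
      rw [eq_sub_iff_add_eq]
      exact h1
    refine ⟨X ^ m - (-c) /ₘ g, ?_⟩
    rw [hf₀, h3]
    ring
  have hf₀g : IsCoprime f₀ g := by
    obtain ⟨z, hz⟩ := hf₀c
    have h1 : f₀ = -c + g * z := by rw [← hz]; ring
    rw [h1]
    exact IsCoprime.add_mul_left_left hc.neg_left z
  -- the class
  have hcl : (Mon F n).filter (fun f => g ∣ f + c) = (Lo F m).image (fun u => f₀ + g * u) := by
    ext f
    rw [mem_filter, mem_image]
    constructor
    · rintro ⟨h1, h2⟩
      have h3 : f - f₀ ∈ Lo F (k + m) := by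
        rw [← hm]
        exact mem_Lo_iff_sub h1 hf₀m
      have h4 : g ∣ f - f₀ := by
        have : f - f₀ = (f + c) - (f₀ + c) := by ring
        rw [this]
        exact dvd_sub h2 hf₀c
      refine ⟨(f - f₀) /ₘ g, div_mem_Lo hg hk h3, ?_⟩
      have h5 := modByMonic_add_div (f - f₀) g
      rw [(modByMonic_eq_zero_iff_dvd hg).2 h4, zero_add] at h5
      rw [h5]
      ring
    · rintro ⟨u, hu, rfl⟩
      refine ⟨?_, ?_⟩
      · apply add_mem_Mon hf₀m
        rw [hm]
        exact mul_mem_Lo hg hk hu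
      · have : f₀ + g * u + c = (f₀ + c) + g * u := by ring
        rw [this]
        exact dvd_add hf₀c (dvd_mul_right _ _)
  set sc : ℝ := ∑ u ∈ Lo F m, wt n g (f₀ + g * u) with hsc
  have hsc2 : ∑ f ∈ (Mon F n).filter (fun f => g ∣ f + c), th n f - q F ^ n / phi g = sc := by
    rw [hcl, sum_image (fun u _ v _ h => inj_mul hg h), hsc]
    unfold wt
    rw [sum_sub_distrib]
    congr 1
    have h1 : ∀ u ∈ Lo F m, (if IsCoprime (f₀ + g * u) g then q F ^ g.natDegree / phi g else 0 : ℝ) =
        q F ^ g.natDegree / phi g := by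
      intro u _
      rw [if_pos (IsCoprime.add_mul_left_left hf₀g u)]
    rw [sum_congr rfl h1, sum_const, card_Lo, nsmul_eq_mul, hm, hk, pow_add]
    unfold q
    push_cast
    ring
  have hvar := variance (k := k) (m := m) (l := 0) hg hk (by omega)
  rw [add_zero, ← hm] at hvar
  have h1 : ∑ f ∈ (Mon F n).filter (fun f => g ∣ f + c),
      (∑ u ∈ Lo F m, wt n g (f + g * u)) ^ 2 = q F ^ m * sc ^ 2 := by
    rw [hcl, sum_image (fun u _ v _ h => inj_mul hg h)]
    have h2 : ∀ v ∈ Lo F m, (∑ u ∈ Lo F m, wt n g (f₀ + g * v + g * u)) ^ 2 = sc ^ 2 := by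
      intro v hv
      have h3 : ∑ u ∈ Lo F m, wt n g (f₀ + g * v + g * u) = ∑ u ∈ Lo F m, wt n g (f₀ + g * (u + v)) := by
        apply sum_congr rfl
        intro u _
        congr 1
        ring
      rw [h3, sum_Lo_add hv (fun u => wt n g (f₀ + g * u))]
    rw [sum_congr rfl h2, sum_const, card_Lo, nsmul_eq_mul]
    unfold q
    push_cast
    ring
  have h2 : q F ^ m * sc ^ 2 ≤ q F ^ m * ((k + 2 : ℝ) ^ 2 * q F ^ n) := by
    rw [← h1]
    refine le_trans (sum_le_sum_of_subset_of_nonneg (filter_subset _ _) ?_) (hvar.trans ?_)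
    · intro _ _ _
      positivity
    · push_cast
      rw [add_zero]
  have h3 : sc ^ 2 ≤ (k + 2 : ℝ) ^ 2 * q F ^ n := le_of_mul_le_mul_left h2 (by positivity)
  rw [hsc2, hk]
  apply abs_le_of_sq_le_sq _ (by positivity) |>.trans le_rfl
  have h4 : (√(q F) ^ n) ^ 2 = q F ^ n := by
    rw [← pow_mul, mul_comm, pow_mul, Real.sq_sqrt hq.le]
  rw [mul_pow, h4]
  exact h3

end Pool.Agent.H23.FF
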