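import Pool.Agent.H23.FF.Var

/-!
# Additive characters and their rational approximations
-/

set_option autoImplicit false

open Finset Polynomial ComplexConjugate
open Pool.Agent.H341R2.Sharp (Mon mem_Mon)

namespace Pool.Agent.H23.FF

variable {F : Type} [Field F] [Fintype F]

theorem norm_char (γ : AddChar F[X] ℂ) (f : F[X]) : ‖γ f‖ = 1 := by
  have h1 : γ f ^ Fintype.card F = 1 := by
    rw [← AddChar.map_nsmul_eq_pow]
    have h2 : Fintype.card F • f = 0 := by
      rw [nsmul_eq_mul]
      have h3 : ((Fintype.card F : ℕ) : F[X]) = C ((Fintype.card F : ℕ) : F) :=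
        (map_natCast (C : F →+* F[X]) _).symm
      rw [h3, FiniteField.cast_card_eq_zero, map_zero, zero_mul]
    rw [h2, AddChar.map_zero_eq_one]
  exact Complex.norm_eq_one_of_pow_eq_one h1 Fintype.card_ne_zero

omit [Fintype F] in
theorem char_mul_neg (γ : AddChar F[X] ℂ) (f : F[X]) : γ f * γ (-f) = 1 := by
  rw [← AddChar.map_add_eq_mul, add_neg_cancel, AddChar.map_zero_eq_one]

theorem conj_char (γ : AddChar F[X] ℂ) (f : F[X]) : conj (γ f) = γ (-f) := by
  have h1 : γ f * conj (γ f) = 1 := by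
    rw [Complex.mul_conj', norm_char]
    norm_num
  have h2 := char_mul_neg γ f
  have h0 : γ f ≠ 0 := by
    intro h
    rw [h, zero_mul] at h2
    exact zero_ne_one h2
  exact mul_left_cancel₀ h0 (h1.trans h2.symm)

/-- a nontrivial character has sum zero -/
theorem sum_char_zero (γ : AddChar F[X] ℂ) (h : ℕ) (g : F[X]) {y : F[X]} (hy : y ∈ Lo F h)
    (h1 : γ (g * y) ≠ 1) : ∑ u ∈ Lo F h, γ (g * u) = 0 := by
  have h2 := sum_Lo_add hy (fun u => γ (g * u))
  have h3 : ∑ u ∈ Lo F h, γ (g * (u + y)) = (∑ u ∈ Lo F h, γ (g * u)) * γ (g * y) := by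
    rw [sum_mul]
    apply sum_congr rfl
    intro u _
    rw [mul_add, AddChar.map_add_eq_mul]
  rw [h3] at h2
  have h4 : (∑ u ∈ Lo F h, γ (g * u)) * (γ (g * y) - 1) = 0 := by
    rw [mul_sub, h2, mul_one, sub_self]
  rcases mul_eq_zero.1 h4 with h5 | h5
  · exact h5
  · exact absurd (sub_eq_zero.1 h5) h1

/-- the character `v ↦ γ (g v)` -/
noncomputable def mulChar (γ : AddChar F[X] ℂ) (d : ℕ) (g : F[X]) : AddChar (degreeLT F d) ℂ where
  toFun v := γ (g * (v : F[X]))
  map_zero_eq_one' := by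
    rw [Submodule.coe_zero, mul_zero, AddChar.map_zero_eq_one]
  map_add_eq_mul' a b := by
    rw [Submodule.coe_add, mul_add, AddChar.map_add_eq_mul]

theorem dir_exists (γ : AddChar F[X] ℂ) (d : ℕ) :
    ∃ g : F[X], g.Monic ∧ g.natDegree ≤ d ∧ ∀ v ∈ Lo F d, γ (g * v) = 1 := by
  have h1 : Fintype.card (AddChar (degreeLT F d) ℂ) < Fintype.card (degreeLT F (d + 1)) := by
    rw [AddChar.card_eq, card_degreeLT, card_degreeLT]
    exact Nat.pow_lt_pow_right Fintype.one_lt_card (by omega)
  obtain ⟨a, b, hab, h2⟩ := Fintype.exists_ne_map_eq_of_card_lt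
    (fun g : degreeLT F (d + 1) => mulChar γ d (g : F[X])) h1
  set g₀ : F[X] := (a : F[X]) - b with hg₀
  have h0 : g₀ ≠ 0 := by
    intro h
    exact hab (Subtype.ext (sub_eq_zero.1 h))
  have h3 : ∀ v ∈ Lo F d, γ (g₀ * v) = 1 := by
    intro v hv
    have h4 : mulChar γ d (a : F[X]) ⟨v, mem_degreeLT.2 (mem_Lo.1 hv)⟩ =
        mulChar γ d (b : F[X]) ⟨v, mem_degreeLT.2 (mem_Lo.1 hv)⟩ := by
      exact DFunLike.congr_fun h2 _
    change γ ((a : F[X]) * v) = γ ((b : F[X]) * v) at h4
    rw [hg₀, sub_mul, sub_eq_add_neg, AddChar.map_add_eq_mul, h4]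
    exact char_mul_neg γ _
  have hdeg : g₀.natDegree ≤ d := by
    have h4 : g₀.degree < ((d + 1 : ℕ) : WithBot ℕ) := by
      have := sub_mem_Lo (h := d + 1) (mem_Lo.2 (mem_degreeLT.1 a.2)) (mem_Lo.2 (mem_degreeLT.1 b.2))
      exact mem_Lo.1 this
    rw [degree_eq_natDegree h0] at h4
    have h5 : g₀.natDegree < d + 1 := by exact_mod_cast h4
    omega
  have hlc : g₀.leadingCoeff ≠ 0 := leadingCoeff_ne_zero.2 h0
  refine ⟨g₀ * C (g₀.leadingCoeff⁻¹), monic_mul_leadingCoeff_inv h0, ?_, ?_⟩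
  · rw [natDegree_mul_leadingCoeff_inv _ h0]
    exact hdeg
  · intro v hv
    rw [mul_assoc]
    apply h3
    rw [mem_Lo] at *
    rcases eq_or_ne v 0 with rfl | hv0
    · rw [mul_zero, degree_zero]
      exact WithBot.bot_lt_coe _
    · rwa [degree_C_mul (inv_ne_zero hlc)]

theorem dir (γ : AddChar F[X] ℂ) (d : ℕ) :
    ∃ g : F[X], g.Monic ∧ g.natDegree ≤ d ∧ (∀ v ∈ Lo F d, γ (g * v) = 1) ∧
      ∀ g' : F[X], g'.Monic → g'.natDegree < g.natDegree → ∃ v ∈ Lo F d, γ (g' * v) ≠ 1 := by
  classical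
  have hex : ∃ k : ℕ, ∃ g : F[X], g.Monic ∧ g.natDegree = k ∧ ∀ v ∈ Lo F d, γ (g * v) = 1 := by
    obtain ⟨g, h1, _, h3⟩ := dir_exists γ d
    exact ⟨g.natDegree, g, h1, rfl, h3⟩
  obtain ⟨g, h1, h2, h3⟩ := Nat.find_spec hex
  refine ⟨g, h1, ?_, h3, ?_⟩
  · obtain ⟨g', h1', h2', h3'⟩ := dir_exists γ d
    have := Nat.find_min' hex ⟨g', h1', rfl, h3'⟩
    omega
  · intro g' hg' hlt
    by_contra hc
    push Not at hc
    have := Nat.find_min' hex ⟨g', hg', rfl, hc⟩
    omega

/-- the character `f ↦ γ (f mod g)` -/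
noncomputable def eta (γ : AddChar F[X] ℂ) (g : F[X]) : AddChar F[X] ℂ :=
  γ.compAddMonoidHom (modByMonicHom g).toAddMonoidHom

omit [Fintype F] in
theorem eta_apply (γ : AddChar F[X] ℂ) (g f : F[X]) : eta γ g f = γ (f %ₘ g) := rfl

omit [Fintype F] in
theorem eta_per (γ : AddChar F[X] ℂ) {g : F[X]} (hg : g.Monic) : Per g (eta γ g) := by
  intro x y
  rw [eta_apply, eta_apply, add_modByMonic]
  have : (g * y) %ₘ g = 0 := by
    rw [modByMonic_eq_zero_iff_dvd hg]
    exact dvd_mul_right _ _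
  rw [this, add_zero]

theorem eta_eq (γ : AddChar F[X] ℂ) {k d : ℕ} {g : F[X]} (hg : g.Monic) (hk : g.natDegree = k)
    (h : ∀ v ∈ Lo F d, γ (g * v) = 1) {v : F[X]} (hv : v ∈ Lo F (k + d)) : γ v = eta γ g v := by
  rw [eta_apply]
  conv_lhs => rw [← modByMonic_add_div v g]
  rw [AddChar.map_add_eq_mul, h _ (div_mem_Lo hg hk hv), mul_one]

/-- the Ramanujan sum -/
noncomputable def cE (ζ : AddChar F[X] ℂ) (g : F[X]) : ℂ :=
  open Classical in ∑ b ∈ (Lo F g.natDegree).filter (fun b => IsCoprime b g), ζ b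

theorem norm_cE_le (ζ : AddChar F[X] ℂ) (g : F[X]) : ‖cE ζ g‖ ≤ phi g := by
  classical
  unfold cE phi
  refine (norm_sum_le _ _).trans ?_
  rw [sum_congr rfl fun b _ => norm_char ζ b]
  simp

/-- the Ramanujan sums are small if the modulus has a large prime factor or is not squarefree -/
theorem cE_small (ζ : AddChar F[X] ℂ) {P g' : F[X]} (hP : P.Monic) (hirr : Irreducible P)
    (hg' : g'.Monic) (hper : Per (P * g') ζ) (hne : ∃ y, ζ (g' * y) ≠ 1) :
    (P ∣ g' → cE ζ (P * g') = 0) ∧
    (¬ P ∣ g' → ‖cE ζ (P * g')‖ ≤ phi g' ∧ (phi g' : ℝ) * (q F ^ P.natDegree - 1) ≤ phi (P * g')) := by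
  classical
  obtain ⟨y, hy⟩ := hne
  have hy2 : ζ (g' * (y %ₘ P)) ≠ 1 := by
    have h1 : ζ (g' * y) = ζ (g' * (y %ₘ P)) := by
      apply hper.congr
      refine ⟨y /ₘ P, ?_⟩
      have := modByMonic_add_div y P
      calc g' * y - g' * (y %ₘ P) = g' * (y - y %ₘ P) := by ring
        _ = g' * (P * (y /ₘ P)) := by
          congr 1
          nth_rewrite 1 [← this]
          ring
        _ = P * g' * (y /ₘ P) := by ring
    rwa [← h1]
  have hzero : ∑ u ∈ Lo F P.natDegree, ζ (g' * u) = 0 :=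
    sum_char_zero ζ P.natDegree g' (mod_mem_Lo hP rfl y) hy2
  have hdeg : (P * g').natDegree = g'.natDegree + P.natDegree := by
    rw [hP.natDegree_mul hg', add_comm]
  have hcop : ∀ u b : F[X], IsCoprime (g' * u + b) (P * g') ↔ ¬ P ∣ g' * u + b ∧ IsCoprime b g' := by
    intro u b
    rw [IsCoprime.mul_right_iff]
    have h1 : IsCoprime (g' * u + b) g' ↔ IsCoprime b g' := by
      rw [add_comm]
      exact IsCoprime.add_mul_left_left_iff
    have h2 : IsCoprime (g' * u + b) P ↔ ¬ P ∣ g' * u + b := by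
      rw [isCoprime_comm, hirr.coprime_iff_not_dvd]
    rw [h1, h2]
  have hsum : cE ζ (P * g') = ∑ b ∈ (Lo F g'.natDegree).filter (fun b => IsCoprime b g'),
      ζ b * ∑ u ∈ (Lo F P.natDegree).filter (fun u => ¬ P ∣ g' * u + b), ζ (g' * u) := by
    unfold cE
    rw [sum_filter, hdeg, sum_Lo_dec hg' rfl, sum_comm, sum_filter]
    apply sum_congr rfl
    intro b _
    by_cases hb : IsCoprime b g'
    · rw [if_pos hb, sum_filter, mul_sum]
      apply sum_congr rfl
      intro u _
      by_cases hu : P ∣ g' * u + b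
      · rw [if_neg, if_neg (not_not.2 hu), mul_zero]
        intro h
        exact ((hcop u b).1 h).1 hu
      · rw [if_pos ((hcop u b).2 ⟨hu, hb⟩), if_pos hu, AddChar.map_add_eq_mul, mul_comm]
    · rw [if_neg hb]
      apply sum_eq_zero
      intro u _
      rw [if_neg]
      intro h
      exact hb ((hcop u b).1 h).2
  constructor
  · intro hPg
    rw [hsum]
    apply sum_eq_zero
    intro b hb
    rw [mem_filter] at hb
    have h1 : (Lo F P.natDegree).filter (fun u => ¬ P ∣ g' * u + b) = Lo F P.natDegree := by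
      apply filter_true_of_mem
      intro u _ h
      have h2 : P ∣ b := by
        have h3 : P ∣ g' * u := dvd_mul_of_dvd_left hPg u
        have h4 : b = (g' * u + b) - g' * u := by ring
        rw [h4]
        exact dvd_sub h h3
      exact hirr.not_isUnit (hb.2.isUnit_of_dvd' h2 hPg)
    rw [h1, hzero, mul_zero]
  · intro hPg
    have huniq : ∀ b : F[X], ((Lo F P.natDegree).filter (fun u => P ∣ g' * u + b)).card ≤ 1 := by
      intro b
      rw [card_le_one]
      intro u hu v hv
      rw [mem_filter] at hu hv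
      have h1 : P ∣ g' * (u - v) := by
        have h2 : g' * (u - v) = (g' * u + b) - (g' * v + b) := by ring
        rw [h2]
        exact dvd_sub hu.2 hv.2
      have h2 : P ∣ u - v := (hirr.prime.dvd_or_dvd h1).resolve_left hPg
      have h3 : u - v ∈ Lo F P.natDegree := sub_mem_Lo hu.1 hv.1
      rw [mem_Lo, ← degree_eq_natDegree hP.ne_zero] at h3
      exact sub_eq_zero.1 (eq_zero_of_dvd_of_degree_lt h2 h3)
    constructor
    · rw [hsum]
      refine (norm_sum_le _ _).trans ?_
      unfold phi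
      rw [card_eq_sum_ones, Nat.cast_sum]
      apply sum_le_sum
      intro b _
      rw [norm_mul, norm_char, one_mul]
      have h1 := sum_filter_add_sum_filter_not (Lo F P.natDegree) (fun u => P ∣ g' * u + b)
        (fun u => ζ (g' * u))
      rw [hzero] at h1
      rw [eq_neg_of_add_eq_zero_right h1, norm_neg]
      refine (norm_sum_le _ _).trans ?_
      rw [sum_congr rfl fun u _ => norm_char ζ (g' * u), sum_const, nsmul_eq_mul, mul_one]
      exact_mod_cast huniq b
    · have h1 : phi (P * g') = ∑ b ∈ (Lo F g'.natDegree).filter (fun b => IsCoprime b g'),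
          ((Lo F P.natDegree).filter (fun u => ¬ P ∣ g' * u + b)).card := by
        unfold phi
        rw [card_filter, hdeg, sum_Lo_dec hg' rfl, sum_comm, sum_filter]
        apply sum_congr rfl
        intro b _
        by_cases hb : IsCoprime b g'
        · rw [if_pos hb, card_filter]
          apply sum_congr rfl
          intro u _
          by_cases hu : P ∣ g' * u + b
          · rw [if_neg, if_neg (not_not.2 hu)]
            intro h
            exact ((hcop u b).1 h).1 hu
          · rw [if_pos ((hcop u b).2 ⟨hu, hb⟩), if_pos hu]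
        · rw [if_neg hb]
          apply sum_eq_zero
          intro u _
          rw [if_neg]
          intro h
          exact hb ((hcop u b).1 h).2
      rw [h1]
      push_cast
      have h2 : (phi g' : ℝ) * (q F ^ P.natDegree - 1) =
          ∑ b ∈ (Lo F g'.natDegree).filter (fun b => IsCoprime b g'), (q F ^ P.natDegree - 1) := by
        rw [sum_const, nsmul_eq_mul]
        rfl
      rw [h2]
      apply sum_le_sum
      intro b _
      have h3 := card_filter_add_card_filter_not (s := Lo F P.natDegree) (fun u => P ∣ g' * u + b)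
      have h4 := huniq b
      rw [card_Lo] at h3
      have h5 : Fintype.card F ^ P.natDegree ≤
          ((Lo F P.natDegree).filter (fun u => ¬ P ∣ g' * u + b)).card + 1 := by omega
      unfold q
      have h6 : ((Fintype.card F ^ P.natDegree : ℕ) : ℝ) ≤
          ((((Lo F P.natDegree).filter (fun u => ¬ P ∣ g' * u + b)).card + 1 : ℕ) : ℝ) := by
        exact_mod_cast h5
      push_cast at h6
      linarith

end Pool.Agent.H23.FF
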