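import Pool.Agent.H23.FF.Model2

/-!
# The Fourier transform of the error
-/

set_option autoImplicit false

open Finset Polynomial ComplexConjugate
open Pool.Agent.H341R2.Sharp (Mon mem_Mon)

namespace Pool.Agent.H23.FF

variable {F : Type} [Field F] [Fintype F]

/-- correlations -/
noncomputable def corr (n : ℕ) (G H : F[X] → ℝ) (a : F[X]) : ℝ := ∑ f ∈ Mon F n, G f * H (f + a)

/-- the Fourier transform of the autocorrelations -/
theorem four_id {n h : ℕ} (hhn : h ≤ n) (G : F[X] → ℝ) (γ : AddChar F[X] ℂ) :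
    ((∑ f ∈ Mon F n, ‖hat G h γ f‖ ^ 2 : ℝ) : ℂ) =
      (q F : ℂ) ^ h * ∑ a ∈ Lo F h, (corr n G G a : ℂ) * γ a := by
  have h1 : ∀ f : F[X], ((‖hat G h γ f‖ ^ 2 : ℝ) : ℂ) =
      ∑ w ∈ Lo F h, ∑ a ∈ Lo F h, (G (f + w) : ℂ) * (G (f + w + a) : ℂ) * γ a := by
    intro f
    have h2 : ((‖hat G h γ f‖ ^ 2 : ℝ) : ℂ) = hat G h γ f * conj (hat G h γ f) := by
      rw [Complex.mul_conj']
      push_cast
      rfl
    rw [h2]
    unfold hat
    rw [map_sum, mul_sum]
    apply sum_congr rfl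
    intro w hw
    rw [← sum_Lo_add hw (fun v => (G (f + v) : ℂ) * γ v), sum_mul]
    apply sum_congr rfl
    intro a _
    rw [map_mul, Complex.conj_ofReal, conj_char, AddChar.map_add_eq_mul]
    have h3 : f + (a + w) = f + w + a := by ring
    rw [h3]
    have h4 := char_mul_neg γ w
    calc (G (f + w + a) : ℂ) * (γ a * γ w) * ((G (f + w) : ℂ) * γ (-w)) =
        (G (f + w) : ℂ) * (G (f + w + a) : ℂ) * γ a * (γ w * γ (-w)) := by ring
      _ = _ := by rw [h4, mul_one]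
  rw [Complex.ofReal_sum, sum_congr rfl fun f _ => h1 f, sum_comm]
  have h2 : ∀ w ∈ Lo F h, ∑ f ∈ Mon F n, ∑ a ∈ Lo F h,
      (G (f + w) : ℂ) * (G (f + w + a) : ℂ) * γ a = ∑ a ∈ Lo F h, (corr n G G a : ℂ) * γ a := by
    intro w hw
    rw [sum_comm]
    apply sum_congr rfl
    intro a _
    unfold corr
    push_cast
    rw [sum_mul]
    exact sum_Mon_add (Lo_mono hhn hw) (fun f => (G f : ℂ) * (G (f + a) : ℂ) * γ a)
  rw [sum_congr rfl h2, sum_const, card_Lo, nsmul_eq_mul]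
  unfold q
  push_cast
  ring

/-- the lower bound for the Fourier transform of the model -/
theorem four_lower {n h : ℕ} (hhn : h ≤ n) (G : F[X] → ℝ) (γ ζ : AddChar F[X] ℂ)
    (hγ : ∀ v ∈ Lo F h, γ v = ζ v) :
    (q F ^ h) ^ 2 * ‖∑ f ∈ Mon F n, (G f : ℂ) * ζ f‖ ^ 2 ≤
      q F ^ n * ∑ f ∈ Mon F n, ‖hat G h γ f‖ ^ 2 := by
  have h1 : ∑ f ∈ Mon F n, ζ f * hat G h γ f = (q F : ℂ) ^ h * ∑ f ∈ Mon F n, (G f : ℂ) * ζ f := by
    unfold hat
    simp_rw [mul_sum]
    rw [sum_comm]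
    have h2 : ∀ v ∈ Lo F h, ∑ f ∈ Mon F n, ζ f * ((G (f + v) : ℂ) * γ v) =
        ∑ f ∈ Mon F n, (G f : ℂ) * ζ f := by
      intro v hv
      rw [← sum_Mon_add (Lo_mono hhn hv) (fun f => (G f : ℂ) * ζ f)]
      apply sum_congr rfl
      intro f _
      rw [hγ v hv, AddChar.map_add_eq_mul]
      ring
    rw [sum_congr rfl h2, sum_const, card_Lo, nsmul_eq_mul, mul_sum]
    unfold q
    push_cast
    rfl
  have h2 : (q F ^ h) ^ 2 * ‖∑ f ∈ Mon F n, (G f : ℂ) * ζ f‖ ^ 2 =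
      ‖∑ f ∈ Mon F n, ζ f * hat G h γ f‖ ^ 2 := by
    rw [h1, norm_mul, norm_pow, Complex.norm_real, Real.norm_eq_abs, abs_of_pos (q_pos F), mul_pow]
  rw [h2]
  have h3 : ‖∑ f ∈ Mon F n, ζ f * hat G h γ f‖ ≤ ∑ f ∈ Mon F n, ‖hat G h γ f‖ := by
    refine (norm_sum_le _ _).trans (le_of_eq ?_)
    apply sum_congr rfl
    intro f _
    rw [norm_mul, norm_char, one_mul]
  have h4 := sq_sum_le_card_mul_sum_sq (s := Mon F n) (f := fun f => ‖hat G h γ f‖)
  refine (pow_le_pow_left₀ (norm_nonneg _) h3 2).trans (h4.trans (le_of_eq ?_))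
  rw [card_Mon]
  unfold q
  push_cast
  rfl

/-- the error -/
noncomputable def EE (n k : ℕ) (f : F[X]) : ℝ := th n f - lam k f

theorem corr_neg {n : ℕ} (G H : F[X] → ℝ) {a : F[X]} (ha : a ∈ Lo F n) :
    corr n G H (-a) = corr n H G a := by
  unfold corr
  rw [← sum_Mon_add ha (fun f => G f * H (f + -a))]
  apply sum_congr rfl
  intro f _
  rw [add_neg_cancel_right, mul_comm]

/-- the autocorrelations of the error -/
theorem corr_EE {n k J : ℕ} (hk : 1 ≤ k) (hn : 4 * ((k + 1) * J) ≤ n) (hn1 : 1 ≤ n) {a : F[X]}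
    (ha : a ∈ Lo F n) :
    |corr n (EE n k) (EE n k) a - (corr n (th n) (th n) a - corr n (lam k) (lam k) a)| ≤
      2 * (q F ^ n * tau n k J) := by
  have h1 : corr n (EE n k) (EE n k) a = corr n (th n) (th n) a - corr n (th n) (lam k) a -
      corr n (lam k) (th n) a + corr n (lam k) (lam k) a := by
    unfold corr EE
    rw [← sum_sub_distrib, ← sum_sub_distrib, ← sum_add_distrib]
    apply sum_congr rfl
    intro f _
    ring
  have h2 : |corr n (th n) (lam k) a - corr n (lam k) (lam k) a| ≤ q F ^ n * tau n k J :=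
    corr_cmp hk a hn hn1
  have h3 : |corr n (th n) (lam k) (-a) - corr n (lam k) (lam k) (-a)| ≤ q F ^ n * tau n k J :=
    corr_cmp hk (-a) hn hn1
  rw [corr_neg _ _ ha, corr_neg _ _ ha] at h3
  rw [h1]
  rw [abs_le] at h2 h3 ⊢
  constructor <;> linarith

theorem tau_nonneg (n : ℕ) {k : ℕ} (J : ℕ) : 0 ≤ tau n k J := by
  unfold tau ek
  positivity

/-- comparison of the Fourier transforms -/
theorem four_cmp {n h k J : ℕ} (hk : 1 ≤ k) (hn : 4 * ((k + 1) * J) ≤ n) (hn1 : 1 ≤ n)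
    (hhn : h ≤ n) (γ : AddChar F[X] ℂ) :
    ∑ f ∈ Mon F n, ‖hat (EE n k) h γ f‖ ^ 2 ≤ ∑ f ∈ Mon F n, ‖hat (th n) h γ f‖ ^ 2 -
      ∑ f ∈ Mon F n, ‖hat (lam k) h γ f‖ ^ 2 + q F ^ n * (q F ^ h) ^ 2 * (2 * tau n k J) := by
  have hq := q_pos F
  have h1 := four_id hhn (EE n k) γ
  have h2 := four_id hhn (th n) γ
  have h3 := four_id hhn (lam k) γ
  set A := ∑ f ∈ Mon F n, ‖hat (EE n k) h γ f‖ ^ 2 with hA
  set B := ∑ f ∈ Mon F n, ‖hat (th n) h γ f‖ ^ 2 with hB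
  set D := ∑ f ∈ Mon F n, ‖hat (lam k) h γ f‖ ^ 2 with hD
  have h4 : ((A - (B - D) : ℝ) : ℂ) = (q F : ℂ) ^ h * ∑ a ∈ Lo F h,
      ((corr n (EE n k) (EE n k) a - (corr n (th n) (th n) a - corr n (lam k) (lam k) a) : ℝ) : ℂ) *
        γ a := by
    push_cast
    rw [h1, h2, h3, ← mul_sub, ← mul_sub, ← sum_sub_distrib, ← sum_sub_distrib]
    congr 1
    apply sum_congr rfl
    intro a _
    ring
  have h5 : |A - (B - D)| ≤ q F ^ h * ∑ a ∈ Lo F h, 2 * (q F ^ n * tau n k J) := by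
    rw [← Real.norm_eq_abs, ← Complex.norm_real, h4, norm_mul, norm_pow, Complex.norm_real,
      Real.norm_eq_abs, abs_of_pos hq]
    apply mul_le_mul_of_nonneg_left _ (by positivity)
    refine (norm_sum_le _ _).trans ?_
    apply sum_le_sum
    intro a ha
    rw [norm_mul, norm_char, mul_one, Complex.norm_real, Real.norm_eq_abs]
    exact corr_EE hk hn hn1 (Lo_mono hhn ha)
  rw [sum_const, card_Lo, nsmul_eq_mul] at h5
  have h6 : ((Fintype.card F ^ h : ℕ) : ℝ) = q F ^ h := by unfold q; push_cast; rfl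
  rw [h6] at h5
  have h7 := (abs_le.1 h5).2
  have h8 : q F ^ h * (q F ^ h * (2 * (q F ^ n * tau n k J))) =
      q F ^ n * (q F ^ h) ^ 2 * (2 * tau n k J) := by ring
  linarith

/-- factorisation -/
theorem fac_alt (k : ℕ) {g : F[X]} (hg : g.Monic) :
    (∃ S ⊆ PP F k, g = ∏ P ∈ S, P) ∨
    ∃ P g' : F[X], P.Monic ∧ Irreducible P ∧ g'.Monic ∧ g = P * g' ∧ (P ∣ g' ∨ k < P.natDegree) := by
  classical
  set S := (PP F k).filter (fun P => P ∣ g) with hS
  have hS2 : ∀ P ∈ S, P.Monic ∧ Irreducible P := by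
    intro P hP
    rw [hS, mem_filter, mem_PP] at hP
    exact ⟨hP.1.1, hP.1.2.1⟩
  have h1 : (∏ P ∈ S, P) ∣ g := by
    apply Finset.prod_dvd_of_coprime
    · intro P hP R hR hne
      rw [Function.onFun, (hS2 P hP).2.coprime_iff_not_dvd]
      intro hd
      apply hne
      exact eq_of_monic_of_associated (hS2 P hP).1 (hS2 R hR).1
        ((hS2 P hP).2.associated_of_dvd (hS2 R hR).2 hd)
    · intro P hP
      rw [hS, mem_filter] at hP
      exact hP.2
  obtain ⟨y, hy⟩ := h1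
  have hSm : (∏ P ∈ S, P).Monic := monic_prod_id fun P hP => (hS2 P hP).1
  have hym : y.Monic := by
    rw [hy] at hg
    exact Monic.of_mul_monic_left hSm hg
  by_cases hu : IsUnit y
  · left
    refine ⟨S, filter_subset _ _, ?_⟩
    rw [hy, hym.isUnit_iff.1 hu, mul_one]
  · right
    obtain ⟨P, hPm, hPi, hPd⟩ := exists_monic_irreducible_factor y hu
    obtain ⟨z, hz⟩ := hPd
    have hzm : z.Monic := by
      rw [hz] at hym
      exact Monic.of_mul_monic_left hPm hym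
    refine ⟨P, (∏ P ∈ S, P) * z, hPm, hPi, hSm.mul hzm, ?_, ?_⟩
    · rw [hy, hz]
      ring
    · by_cases hk : P.natDegree ≤ k
      · left
        apply dvd_mul_of_dvd_left
        apply dvd_prod_of_mem (fun P : F[X] => P)
        rw [hS, mem_filter, mem_PP]
        refine ⟨⟨hPm, hPi, hk⟩, ?_⟩
        rw [hy, hz]
        exact ⟨(∏ P ∈ S, P) * z, by ring⟩
      · right
        omega

end Pool.Agent.H23.FF
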