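import Pool.Agent.H23.FF.Sup

/-!
# Averages over the shifts
-/

set_option autoImplicit false

open Finset Polynomial ComplexConjugate
open Pool.Agent.H341R2.Sharp (Mon mem_Mon)

namespace Pool.Agent.H23.FF

variable {F : Type} [Field F] [Fintype F]

variable (F) in
/-- the box of shifts -/
noncomputable def Box (r h : ℕ) : Finset (Fin r → F[X]) := Fintype.piFinset (fun _ => Lo F h)

variable (F) in
theorem card_Box (r h : ℕ) : ((Box F r h).card : ℝ) = (q F ^ h) ^ r := by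
  unfold Box
  rw [Fintype.card_piFinset, prod_const, card_univ, Fintype.card_fin, card_Lo]
  unfold q
  push_cast
  rfl

/-- the correlations of a tuple of functions -/
noncomputable def TT {r : ℕ} (n : ℕ) (G : Fin r → F[X] → ℝ) (b : Fin r → F[X]) : ℝ :=
  ∑ f ∈ Mon F n, ∏ i, G i (f + b i)

/-- the kernels -/
noncomputable def KK (h : ℕ) (G : F[X] → ℝ) (c f f' : F[X]) : ℝ :=
  ∑ a ∈ Lo F h, G (f + (c + a)) * G (f' + (c + a))

theorem sum_TT_sq {r n h : ℕ} (G : Fin r → F[X] → ℝ) (c : Fin r → F[X]) :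
    ∑ a ∈ Box F r h, TT n G (c + a) ^ 2 =
      ∑ f ∈ Mon F n, ∑ f' ∈ Mon F n, ∏ i, KK h (G i) (c i) f f' := by
  have h1 : ∀ a : Fin r → F[X], TT n G (c + a) ^ 2 =
      ∑ f ∈ Mon F n, ∑ f' ∈ Mon F n, ∏ i, (G i (f + (c i + a i)) * G i (f' + (c i + a i))) := by
    intro a
    unfold TT
    rw [pow_two, sum_mul_sum]
    apply sum_congr rfl
    intro f _
    apply sum_congr rfl
    intro f' _
    rw [← prod_mul_distrib]
    rfl
  rw [sum_congr rfl fun a _ => h1 a, sum_comm]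
  apply sum_congr rfl
  intro f _
  rw [sum_comm]
  apply sum_congr rfl
  intro f' _
  unfold KK Box
  rw [prod_univ_sum]

/-- the sum of the squares of a kernel -/
theorem sum_KK_sq {n h : ℕ} (hhn : h ≤ n) (G : F[X] → ℝ) {c : F[X]} (hc : c ∈ Lo F n) :
    ∑ f ∈ Mon F n, ∑ f' ∈ Mon F n, KK h G c f f' ^ 2 =
      q F ^ h * ∑ a ∈ Lo F h, corr n G G a ^ 2 := by
  have h1 : ∀ f f' : F[X], KK h G c f f' ^ 2 = ∑ a ∈ Lo F h, ∑ a' ∈ Lo F h,
      (G (f + (c + a)) * G (f + (c + a'))) * (G (f' + (c + a)) * G (f' + (c + a'))) := by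
    intro f f'
    unfold KK
    rw [pow_two, sum_mul_sum]
    apply sum_congr rfl
    intro a _
    apply sum_congr rfl
    intro a' _
    ring
  have h2 : ∑ f ∈ Mon F n, ∑ f' ∈ Mon F n, KK h G c f f' ^ 2 =
      ∑ a ∈ Lo F h, ∑ a' ∈ Lo F h, (∑ f ∈ Mon F n, G (f + (c + a)) * G (f + (c + a'))) ^ 2 := by
    simp_rw [h1]
    rw [sum_congr rfl fun f _ => sum_comm, sum_comm]
    apply sum_congr rfl
    intro a _
    rw [sum_congr rfl fun f _ => sum_comm, sum_comm]
    apply sum_congr rfl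
    intro a' _
    rw [pow_two, sum_mul_sum]
  have h3 : ∀ a ∈ Lo F h, ∑ a' ∈ Lo F h, (∑ f ∈ Mon F n, G (f + (c + a)) * G (f + (c + a'))) ^ 2 =
      ∑ a ∈ Lo F h, corr n G G a ^ 2 := by
    intro a ha
    rw [← sum_Lo_add ha (fun a' => (∑ f ∈ Mon F n, G (f + (c + a)) * G (f + (c + a'))) ^ 2)]
    apply sum_congr rfl
    intro a' _
    congr 1
    unfold corr
    have hca : c + a ∈ Lo F n := add_mem_Lo hc (Lo_mono hhn ha)
    rw [← sum_Mon_add hca (fun f => G f * G (f + a'))]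
    apply sum_congr rfl
    intro f _
    have : f + (c + (a' + a)) = f + (c + a) + a' := by ring
    rw [this]
  rw [h2, sum_congr rfl h3, sum_const, card_Lo, nsmul_eq_mul]
  unfold q
  push_cast
  rfl

theorem KK_le {n h : ℕ} (hhn : h ≤ n) {G : F[X] → ℝ} {B : ℝ} (hG : ∀ f ∈ Mon F n, |G f| ≤ B)
    {c f f' : F[X]} (hc : c ∈ Lo F n) (hf : f ∈ Mon F n) (hf' : f' ∈ Mon F n) :
    |KK h G c f f'| ≤ B ^ 2 * q F ^ h := by
  unfold KK
  refine (abs_sum_le_sum_abs _ _).trans ?_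
  have h1 : ∀ a ∈ Lo F h, |G (f + (c + a)) * G (f' + (c + a))| ≤ B ^ 2 := by
    intro a ha
    have hca : c + a ∈ Lo F n := add_mem_Lo hc (Lo_mono hhn ha)
    rw [abs_mul, pow_two]
    have h2 := hG _ (add_mem_Mon hf hca)
    have h3 := hG _ (add_mem_Mon hf' hca)
    exact mul_le_mul h2 h3 (abs_nonneg _) ((abs_nonneg _).trans h2)
  refine (sum_le_sum h1).trans (le_of_eq ?_)
  rw [sum_const, card_Lo, nsmul_eq_mul, mul_comm]
  unfold q
  push_cast
  rfl

/-- **One factor with small autocorrelations makes the average of the correlations small.** -/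
theorem gram {r n h : ℕ} (hhn : h ≤ n) (G : Fin r → F[X] → ℝ) {B : ℝ} (hB : 0 ≤ B)
    (hG : ∀ i, ∀ f ∈ Mon F n, |G i f| ≤ B) (j : Fin r) {D : ℝ} (hD : 0 ≤ D)
    (hC : ∑ a ∈ Lo F h, corr n (G j) (G j) a ^ 2 ≤ q F ^ n * q F ^ h * D * corr n (G j) (G j) (0 : F[X]))
    {c : Fin r → F[X]} (hc : ∀ i, c i ∈ Lo F n) :
    ∑ a ∈ Box F r h, TT n G (c + a) ^ 2 ≤ B ^ (2 * r - 1) * √D * ((q F ^ h) ^ r * (q F ^ n) ^ 2) := by
  have hq := q_pos F
  have hr : 1 ≤ r := by have := j.pos; omega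
  rw [sum_TT_sq]
  -- separate the factor `j`
  have h1 : ∀ f ∈ Mon F n, ∀ f' ∈ Mon F n, ∏ i, KK h (G i) (c i) f f' ≤
      (B ^ 2 * q F ^ h) ^ (r - 1) * |KK h (G j) (c j) f f'| := by
    intro f hf f' hf'
    refine (le_abs_self _).trans ?_
    rw [abs_prod, ← mul_prod_erase univ _ (mem_univ j), mul_comm]
    apply mul_le_mul_of_nonneg_right _ (abs_nonneg _)
    have h2 : ∀ i ∈ univ.erase j, |KK h (G i) (c i) f f'| ≤ B ^ 2 * q F ^ h :=
      fun i _ => KK_le hhn (hG i) (hc i) hf hf'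
    refine (prod_le_prod (fun _ _ => abs_nonneg _) h2).trans (le_of_eq ?_)
    rw [prod_const, card_erase_of_mem (mem_univ j), card_univ, Fintype.card_fin]
  refine (sum_le_sum fun f hf => sum_le_sum fun f' hf' => h1 f hf f' hf').trans ?_
  simp_rw [← mul_sum]
  -- the kernel of the factor `j`
  set S := ∑ f ∈ Mon F n, ∑ f' ∈ Mon F n, |KK h (G j) (c j) f f'| with hS
  have hC0 : corr n (G j) (G j) (0 : F[X]) ≤ B ^ 2 * q F ^ n := by
    unfold corr
    have h2 : ∀ f ∈ Mon F n, G j f * G j (f + 0) ≤ B ^ 2 := by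
      intro f hf
      rw [add_zero, ← pow_two, ← sq_abs]
      exact pow_le_pow_left₀ (abs_nonneg _) (hG j f hf) 2
    refine (sum_le_sum h2).trans (le_of_eq ?_)
    rw [sum_const, card_Mon, nsmul_eq_mul, mul_comm]
    unfold q
    push_cast
    rfl
  have h2 : S ^ 2 ≤ (q F ^ n) ^ 2 * (q F ^ h * (q F ^ n * q F ^ h * D * (B ^ 2 * q F ^ n))) := by
    have h3 : S = ∑ x ∈ Mon F n ×ˢ Mon F n, |KK h (G j) (c j) x.1 x.2| := by
      rw [hS, ← sum_product' (Mon F n) (Mon F n) (fun f f' => |KK h (G j) (c j) f f'|)]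
    have h4 := sq_sum_le_card_mul_sum_sq (s := Mon F n ×ˢ Mon F n)
      (f := fun x => |KK h (G j) (c j) x.1 x.2|)
    rw [← h3, card_product, card_Mon] at h4
    have h5 : ∑ x ∈ Mon F n ×ˢ Mon F n, |KK h (G j) (c j) x.1 x.2| ^ 2 =
        ∑ f ∈ Mon F n, ∑ f' ∈ Mon F n, KK h (G j) (c j) f f' ^ 2 := by
      rw [← sum_product' (Mon F n) (Mon F n) (fun f f' => KK h (G j) (c j) f f' ^ 2)]
      apply sum_congr rfl
      intro x _
      rw [sq_abs]
    rw [h5, sum_KK_sq hhn (G j) (hc j)] at h4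
    have h6 : ((Fintype.card F ^ n * Fintype.card F ^ n : ℕ) : ℝ) = (q F ^ n) ^ 2 := by
      unfold q
      push_cast
      ring
    rw [h6] at h4
    refine h4.trans ?_
    gcongr
    refine hC.trans ?_
    gcongr
  have h3 : S ≤ q F ^ n * (q F ^ h * q F ^ n * B * √D) := by
    apply le_of_sq_le_sq _ (by positivity)
    refine h2.trans (le_of_eq ?_)
    have h4 : √D ^ 2 = D := Real.sq_sqrt hD
    calc (q F ^ n) ^ 2 * (q F ^ h * (q F ^ n * q F ^ h * D * (B ^ 2 * q F ^ n))) =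
        (q F ^ n * (q F ^ h * q F ^ n * B)) ^ 2 * D := by ring
      _ = (q F ^ n * (q F ^ h * q F ^ n * B * √D)) ^ 2 := by
        nth_rewrite 1 [← h4]
        ring
  calc (B ^ 2 * q F ^ h) ^ (r - 1) * S ≤
      (B ^ 2 * q F ^ h) ^ (r - 1) * (q F ^ n * (q F ^ h * q F ^ n * B * √D)) := by gcongr
    _ = B ^ (2 * r - 1) * √D * ((q F ^ h) ^ r * (q F ^ n) ^ 2) := by
      have h5 : 2 * r - 1 = 2 * (r - 1) + 1 := by omega
      have h6 : (q F ^ h) ^ r = (q F ^ h) ^ (r - 1) * q F ^ h := by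
        rw [← pow_succ]
        congr 1
        omega
      rw [h5, h6, mul_pow, ← pow_mul, pow_succ]
      ring

/-- telescoping -/
theorem telescope {r : ℕ} (x y : Fin r → ℝ) :
    ∏ i, x i - ∏ i, y i =
      ∑ i, ∏ j, (if j < i then y j else if j = i then x j - y j else x j) := by
  have h1 := prod_sub_ordered univ x (fun i => x i - y i)
  simp only [sub_sub_cancel] at h1
  rw [h1, sub_sub_cancel]
  apply sum_congr rfl
  intro i _
  rw [prod_filter, prod_filter]
  have h2 : x i - y i = ∏ j, (if j = i then x j - y j else 1) := by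
    rw [prod_ite_eq' univ i (fun j => x j - y j), if_pos (mem_univ i)]
  rw [h2, ← prod_mul_distrib, ← prod_mul_distrib]
  apply prod_congr rfl
  intro j _
  rcases lt_trichotomy j i with h | h | h
  · rw [if_pos h, if_pos h, if_neg h.ne, if_neg (not_lt.2 h.le)]
    ring
  · subst h
    simp
  · rw [if_neg (not_lt.2 h.le), if_neg (not_lt.2 h.le), if_neg h.ne', if_neg h.ne', if_pos h]
    ring

/-- the hybrid functions -/
noncomputable def hyb {r : ℕ} (n k : ℕ) (i j : Fin r) (f : F[X]) : ℝ :=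
  if j < i then lam k f else if j = i then EE n k f else th n f

theorem TT_telescope {r n : ℕ} (k : ℕ) (b : Fin r → F[X]) :
    TT n (fun _ => th n) b - TT n (fun _ => lam k) b = ∑ i, TT n (hyb n k i) b := by
  unfold TT
  rw [← sum_sub_distrib, sum_comm]
  apply sum_congr rfl
  intro f _
  rw [telescope]
  apply sum_congr rfl
  intro i _
  apply prod_congr rfl
  intro j _
  unfold hyb EE
  split_ifs <;> rfl

/-- **The primes and the model have the same correlations on average.** -/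
theorem avg {r n h d k J : ℕ} (hk : 1 ≤ k) (h2d : 2 * d ≤ h) (hhn : h ≤ n) (hn1 : 1 ≤ n)
    (hn : 4 * ((k + 1) * J) ≤ n) {B : ℝ} (hB1 : (n : ℝ) ≤ B) (hB2 : ek k ^ 2 ≤ B)
    {c : Fin r → F[X]} (hc : ∀ i, c i ∈ Lo F n) :
    ∑ a ∈ Box F r h, (TT n (fun _ => th n) (c + a) - TT n (fun _ => lam k) (c + a)) ^ 2 ≤
      (r : ℝ) ^ 2 * (B ^ (2 * r - 1) * √(del F n d k J)) * ((q F ^ h) ^ r * (q F ^ n) ^ 2) := by
  have hB : 0 ≤ B := (Nat.cast_nonneg n).trans hB1
  have hbd : ∀ i j : Fin r, ∀ f ∈ Mon F n, |hyb n k i j f| ≤ B := by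
    intro i j f _
    have h1 := th_nonneg n f
    have h2 := th_le n f
    have h3 := lam_nonneg k f
    have h4 := lam_le k hk f
    unfold hyb EE
    split_ifs
    · rw [abs_of_nonneg h3]
      linarith
    · rw [abs_le]
      constructor <;> linarith
    · rw [abs_of_nonneg h1]
      linarith
  have h1 : ∀ i : Fin r, ∑ a ∈ Box F r h, TT n (hyb n k i) (c + a) ^ 2 ≤
      B ^ (2 * r - 1) * √(del F n d k J) * ((q F ^ h) ^ r * (q F ^ n) ^ 2) := by
    intro i
    have h2 : hyb (F := F) n k i i = EE n k := by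
      funext f
      unfold hyb
      simp
    apply gram hhn (hyb n k i) hB (hbd i) i (del_nonneg F n d k J) _ hc
    rw [h2]
    exact corr_sq hk h2d hhn hn1 hn
  have h2 : ∀ a : Fin r → F[X],
      (TT n (fun _ => th n) (c + a) - TT n (fun _ => lam k) (c + a)) ^ 2 ≤
        r * ∑ i, TT n (hyb n k i) (c + a) ^ 2 := by
    intro a
    rw [TT_telescope]
    have := sq_sum_le_card_mul_sum_sq (s := (univ : Finset (Fin r)))
      (f := fun i => TT n (hyb n k i) (c + a))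
    rwa [card_univ, Fintype.card_fin] at this
  refine (sum_le_sum fun a _ => h2 a).trans ?_
  rw [← mul_sum, sum_comm]
  calc (r : ℝ) * ∑ i, ∑ a ∈ Box F r h, TT n (hyb n k i) (c + a) ^ 2 ≤
      r * ∑ i : Fin r, B ^ (2 * r - 1) * √(del F n d k J) * ((q F ^ h) ^ r * (q F ^ n) ^ 2) := by
        apply mul_le_mul_of_nonneg_left _ (Nat.cast_nonneg r)
        exact sum_le_sum fun i _ => h1 i
    _ = _ := by
      rw [sum_const, card_univ, Fintype.card_fin, nsmul_eq_mul]
      ring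

end Pool.Agent.H23.FF
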