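import Pool.Agent.H23.FF.Planch

/-!
# The group of Hayes classes; character sums over primes
-/

set_option autoImplicit false

open Finset Polynomial ComplexConjugate
open Pool.Agent.H341R2.Sharp (Mon mem_Mon)
open Pool.Agent.Q284.PS (Hay PD)
open Pool.Agent.Q284.WE (trc NonPr)

namespace Pool.Agent.H23.FF

variable {F : Type} [Field F] [Fintype F]

/-- the group of the residue classes modulo `g` and of the classes of the leading coefficients -/
abbrev RR (g : F[X]) (l : ℕ) : Type :=
  Additive ((AdjoinRoot g)ˣ × (AdjoinRoot (X ^ (l + 1) : F[X]))ˣ)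

theorem finite_adj {g : F[X]} (hg : g.Monic) : Finite (AdjoinRoot g) := by
  have := hg.finite_adjoinRoot
  exact Module.finite_of_finite F

theorem finite_RR {g : F[X]} (hg : g.Monic) (l : ℕ) : Finite (RR g l) := by
  have h1 := finite_adj hg
  have h2 := finite_adj (monic_X_pow (R := F) (l + 1))
  have h3 : Finite ((AdjoinRoot g)ˣ × (AdjoinRoot (X ^ (l + 1) : F[X]))ˣ) := inferInstance
  exact h3

open Classical in
/-- the unit defined by a polynomial -/
noncomputable def un (g f : F[X]) : (AdjoinRoot g)ˣ :=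
  if h : IsUnit (AdjoinRoot.mk g f) then h.unit else 1

omit [Fintype F] in
theorem isUnit_mk {g f : F[X]} (h : IsCoprime f g) : IsUnit (AdjoinRoot.mk g f) := by
  obtain ⟨a, b, hab⟩ := h
  refine IsUnit.of_mul_eq_one (AdjoinRoot.mk g a) ?_
  have h1 : AdjoinRoot.mk g (a * f + b * g) = 1 := by rw [hab, map_one]
  rw [map_add, map_mul, map_mul, AdjoinRoot.mk_self, mul_zero, add_zero] at h1
  rw [mul_comm]
  exact h1

omit [Fintype F] in
theorem un_coe {g f : F[X]} (h : IsCoprime f g) : ((un g f : (AdjoinRoot g)ˣ) : AdjoinRoot g) =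
    AdjoinRoot.mk g f := by
  unfold un
  rw [dif_pos (isUnit_mk h)]
  rfl

omit [Fintype F] in
theorem un_mul {g f f' : F[X]} (h : IsCoprime f g) (h' : IsCoprime f' g) :
    un g (f * f') = un g f * un g f' := by
  apply Units.ext
  rw [Units.val_mul, un_coe h, un_coe h', un_coe (h.mul_left h'), map_mul]

omit [Fintype F] in
theorem un_one (g : F[X]) : un g 1 = 1 := by
  apply Units.ext
  rw [un_coe isCoprime_one_left, map_one, Units.val_one]

omit [Fintype F] in
theorem un_eq_iff {g f f' : F[X]} (h : IsCoprime f g) (h' : IsCoprime f' g) :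
    un g f = un g f' ↔ g ∣ f - f' := by
  rw [← AdjoinRoot.mk_eq_mk, ← un_coe h, ← un_coe h']
  exact Units.ext_iff

omit [Fintype F] in
theorem coprime_reverse {f : F[X]} (hf : f.Monic) (l : ℕ) :
    IsCoprime f.reverse (X ^ (l + 1) : F[X]) := by
  apply IsCoprime.pow_right
  have h1 : X ∣ f.reverse - C (f.reverse.coeff 0) := by
    rw [X_dvd_iff]
    simp
  rw [coeff_zero_reverse, hf.leadingCoeff, map_one] at h1
  obtain ⟨r, hr⟩ := h1
  refine ⟨1, -r, ?_⟩
  have : f.reverse = 1 + X * r := by rw [← hr]; ring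
  rw [this]
  ring

/-- the Hayes class -/
noncomputable def cl (g : F[X]) (l : ℕ) (f : F[X]) : RR g l :=
  Additive.ofMul (un g f, un (X ^ (l + 1)) f.reverse)

omit [Fintype F] in
theorem cl_mul {g f f' : F[X]} (l : ℕ) (hf : f.Monic) (hf' : f'.Monic) (h : IsCoprime f g)
    (h' : IsCoprime f' g) : cl g l (f * f') = cl g l f + cl g l f' := by
  unfold cl
  rw [← ofMul_mul, Prod.mk_mul_mk, un_mul h h', reverse_mul_of_domain,
    un_mul (coprime_reverse hf l) (coprime_reverse hf' l)]

omit [Fintype F] in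
theorem cl_one (g : F[X]) (l : ℕ) : cl g l 1 = 0 := by
  unfold cl
  have h1 : (1 : F[X]).reverse = 1 := by
    have := reverse_C (1 : F)
    rwa [map_one] at this
  rw [h1, un_one, un_one]
  rfl

omit [Fintype F] in
theorem cl_eq_iff {g f f' : F[X]} (l : ℕ) (hf : f.Monic) (hf' : f'.Monic) (h : IsCoprime f g)
    (h' : IsCoprime f' g) :
    cl g l f = cl g l f' ↔ g ∣ f - f' ∧ X ^ (l + 1) ∣ f.reverse - f'.reverse := by
  unfold cl
  rw [Additive.ofMul.apply_eq_iff_eq, Prod.mk.injEq, un_eq_iff h h',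
    un_eq_iff (coprime_reverse hf l) (coprime_reverse hf' l)]

open Classical in
/-- the Hayes character of a character of the class group -/
noncomputable def ch (g : F[X]) (l : ℕ) (χ : AddChar (RR g l) ℂ) (f : F[X]) : ℂ :=
  if f.Monic ∧ IsCoprime f g then χ (cl g l f) else 0

theorem hay_ch {g : F[X]} (hg : g.Monic) (l : ℕ) (χ : AddChar (RR g l) ℂ) : Hay g l (ch g l χ) := by
  have hfin := finite_RR hg l
  refine ⟨hg, ?_, ?_, ?_, ?_, ?_, ?_⟩
  · intro f hf
    unfold ch
    rw [if_neg (fun h => hf h.1)]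
  · unfold ch
    rw [if_pos ⟨monic_one, isCoprime_one_left⟩, cl_one, AddChar.map_zero_eq_one]
  · intro f f' hf hf'
    unfold ch
    by_cases h : IsCoprime f g
    · by_cases h' : IsCoprime f' g
      · rw [if_pos ⟨hf.mul hf', h.mul_left h'⟩, if_pos ⟨hf, h⟩, if_pos ⟨hf', h'⟩,
          cl_mul l hf hf' h h', AddChar.map_add_eq_mul]
      · rw [if_neg (fun hh : (f * f').Monic ∧ IsCoprime (f * f') g => h' hh.2.of_mul_left_right),
          if_neg (fun hh : f'.Monic ∧ IsCoprime f' g => h' hh.2), mul_zero]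
    · rw [if_neg (fun hh : (f * f').Monic ∧ IsCoprime (f * f') g => h hh.2.of_mul_left_left),
        if_neg (fun hh : f.Monic ∧ IsCoprime f g => h hh.2), zero_mul]
  · intro f hf h
    unfold ch
    rw [if_pos ⟨hf, h⟩]
    exact χ.norm_apply _
  · intro f hf h
    unfold ch
    rw [if_neg (fun hh => h hh.2)]
  · intro f f' hf hf' h1 h2
    unfold ch
    by_cases h : IsCoprime f g
    · have h' : IsCoprime f' g := by
        obtain ⟨y, hy⟩ := h1
        have : f' = f + g * (-y) := by
          have : f' = f - (f - f') := by ring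
          rw [this, hy]; ring
        rw [this]
        exact h.add_mul_left_left _
      rw [if_pos ⟨hf, h⟩, if_pos ⟨hf', h'⟩, (cl_eq_iff l hf hf' h h').2 ⟨h1, h2⟩]
    · have h' : ¬ IsCoprime f' g := by
        intro hh
        apply h
        obtain ⟨y, hy⟩ := h1
        have : f = f' + g * y := by
          rw [← hy]; ring
        rw [this]
        exact hh.add_mul_left_left _
      rw [if_neg (fun hh => h hh.2), if_neg (fun hh => h' hh.2)]

/-- the weight of the primes -/
noncomputable def th (n : ℕ) (f : F[X]) : ℝ := open Classical in if Irreducible f then (n : ℝ) else 0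

omit [Fintype F] in
theorem th_nonneg (n : ℕ) (f : F[X]) : 0 ≤ th n f := by
  unfold th
  split_ifs
  · exact Nat.cast_nonneg n
  · exact le_rfl

omit [Fintype F] in
theorem th_le (n : ℕ) (f : F[X]) : th n f ≤ n := by
  unfold th
  split_ifs
  · exact le_rfl
  · exact Nat.cast_nonneg n

variable (F) in
/-- the order of the field -/
noncomputable def q : ℝ := (Fintype.card F : ℝ)

variable (F) in
theorem two_le_q : 2 ≤ q F := by
  have : 2 ≤ Fintype.card F := Fintype.one_lt_card
  unfold q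
  exact_mod_cast this

variable (F) in
theorem q_pos : 0 < q F := by
  have := two_le_q F
  linarith

theorem mem_PD {n : ℕ} {P : F[X]} (hn : 1 ≤ n) :
    P ∈ PD F n ↔ P.Monic ∧ Irreducible P ∧ P.natDegree ∣ n := by
  classical
  unfold PD
  rw [mem_filter, mem_biUnion]
  constructor
  · rintro ⟨⟨j, _, hj⟩, h2, h3⟩
    rw [mem_Mon] at hj
    exact ⟨hj.1, h2, h3⟩
  · rintro ⟨h1, h2, h3⟩
    refine ⟨⟨P.natDegree, ?_, mem_Mon.2 ⟨h1, rfl⟩⟩, h2, h3⟩
    have := Nat.le_of_dvd (by omega) h3
    rw [mem_range]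
    omega

theorem geom_le (x : ℝ) (hx : 2 ≤ x) (d : ℕ) : ∑ i ∈ range (d + 1), x ^ i ≤ 2 * x ^ d := by
  induction d with
  | zero => simp
  | succ d ih =>
    rw [sum_range_succ]
    have h1 : x ^ (d + 1) = x ^ d * x := pow_succ _ _
    have h2 : 0 < x ^ d := by positivity
    nlinarith

/-- the prime powers are negligible -/
theorem small_primes (n : ℕ) (hn : 1 ≤ n) :
    ∑ P ∈ (PD F n).filter (fun P => P.natDegree ≠ n), (P.natDegree : ℝ) ≤ 2 * (√(q F)) ^ n := by
  classical
  have hq := two_le_q F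
  have h1 : ∀ P ∈ (PD F n).filter (fun P => P.natDegree ≠ n), P.natDegree ∈ Icc 1 (n / 2) := by
    intro P hP
    rw [mem_filter, mem_PD hn] at hP
    obtain ⟨⟨h1, h2, h3⟩, h4⟩ := hP
    have h5 : 1 ≤ P.natDegree := h2.natDegree_pos
    rw [mem_Icc]
    refine ⟨h5, ?_⟩
    obtain ⟨c, hc⟩ := h3
    rw [Nat.le_div_iff_mul_le (by norm_num)]
    have hc1 : c ≠ 0 := by rintro rfl; omega
    have hc2 : c ≠ 1 := by rintro rfl; exact h4 (by omega)
    have : 2 ≤ c := by omega
    nlinarith
  have h2 : ∑ P ∈ (PD F n).filter (fun P => P.natDegree ≠ n), (P.natDegree : ℝ) ≤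
      ∑ d ∈ Icc 1 (n / 2), ∑ P ∈ PD F d, (P.natDegree : ℝ) := by
    rw [← sum_fiberwise_of_maps_to h1]
    apply sum_le_sum
    intro d hd
    rw [mem_Icc] at hd
    apply sum_le_sum_of_subset_of_nonneg
    · intro P hP
      rw [mem_filter, mem_filter, mem_PD hn] at hP
      rw [mem_PD hd.1]
      exact ⟨hP.1.1.1, hP.1.1.2.1, by rw [hP.2]⟩
    · intro _ _ _
      exact Nat.cast_nonneg _
  have h3 : ∀ d ∈ Icc 1 (n / 2), ∑ P ∈ PD F d, (P.natDegree : ℝ) = q F ^ d := by
    intro d hd
    rw [mem_Icc] at hd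
    have := Pool.Agent.Q53.PS.t_CPR F d hd.1
    unfold q
    exact_mod_cast this
  rw [sum_congr rfl h3] at h2
  have h4 : ∑ d ∈ Icc 1 (n / 2), q F ^ d ≤ ∑ d ∈ range (n / 2 + 1), q F ^ d := by
    apply sum_le_sum_of_subset_of_nonneg
    · intro d hd
      rw [mem_Icc] at hd
      rw [mem_range]
      omega
    · intro d _ _
      have := q_pos F
      positivity
  have h5 := geom_le (q F) hq (n / 2)
  have h6 : q F ^ (n / 2) ≤ (√(q F)) ^ n := by
    have h7 : q F = √(q F) ^ 2 := (Real.sq_sqrt (q_pos F).le).symm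
    have h8 : (1 : ℝ) ≤ √(q F) := by
      rw [Real.one_le_sqrt]
      linarith
    calc q F ^ (n / 2) = (√(q F) ^ 2) ^ (n / 2) := by rw [← h7]
      _ = √(q F) ^ (2 * (n / 2)) := by rw [pow_mul]
      _ ≤ √(q F) ^ n := pow_le_pow_right₀ h8 (by omega)
  linarith

end Pool.Agent.H23.FF
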