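import Pool.Agent.H23.FF.Sing

/-!
# Choice of the parameters
-/

set_option autoImplicit false

open Finset Polynomial
open Pool.Agent.H341R2.Sharp (Mon mem_Mon)

namespace Pool.Agent.H23.FF

/-- the degree up to which the sieve goes -/
def KA (A' n : ℕ) : ℕ := A' * (Nat.log 2 n + 1)

theorem asym (c A' : ℕ) : ∃ n₀ : ℕ, ∀ n : ℕ, n₀ ≤ n → ek (KA A' n) ^ c ≤ n := by
  have h1 : Filter.Tendsto (fun n : ℕ => (n : ℝ)) Filter.atTop Filter.atTop :=
    tendsto_natCast_atTop_atTop
  have h2 := (Real.isLittleO_pow_log_id_atTop (n := c)).comp_tendsto h1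
  have h3 := h2.bound (c := 1 / (9 * (A' + 1 : ℝ)) ^ c) (by positivity)
  rw [Filter.eventually_atTop] at h3
  obtain ⟨n₁, hn₁⟩ := h3
  refine ⟨max n₁ 3, fun n hn => ?_⟩
  have h4 := hn₁ n ((le_max_left _ _).trans hn)
  have hn3 : 3 ≤ n := (le_max_right _ _).trans hn
  have hn3' : (3 : ℝ) ≤ n := by exact_mod_cast hn3
  have hlog1 : 1 ≤ Real.log n := by
    rw [Real.le_log_iff_exp_le (by linarith)]
    have := Real.exp_one_lt_d9
    linarith
  simp only [Function.comp, Real.norm_eq_abs, id] at h4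
  rw [abs_of_nonneg (by positivity), abs_of_nonneg (by positivity)] at h4
  have hlog : (Nat.log 2 n : ℝ) ≤ 2 * Real.log n := by
    have h5 : (Nat.log 2 n : ℝ) ≤ Real.logb 2 n := Real.natLog_le_logb n 2
    refine h5.trans ?_
    rw [Real.logb, div_le_iff₀ (Real.log_pos (by norm_num))]
    have h6 := Real.log_two_gt_d9
    nlinarith
  have h5 : ek (KA A' n) ≤ 9 * (A' + 1) * Real.log n := by
    unfold ek KA
    push_cast
    have h6 : Real.exp 1 ≤ 3 := by
      have := Real.exp_one_lt_d9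
      linarith
    have h7 : (Nat.log 2 n : ℝ) + 1 ≤ 3 * Real.log n := by linarith
    calc Real.exp 1 * (A' * (Nat.log 2 n + 1)) ≤ 3 * ((A' + 1) * (3 * Real.log n)) := by
          gcongr
          linarith
      _ = _ := by ring
  have h6 : 0 ≤ ek (KA A' n) := by
    unfold ek
    positivity
  calc ek (KA A' n) ^ c ≤ (9 * (A' + 1) * Real.log n) ^ c := pow_le_pow_left₀ h6 h5 c
    _ = (9 * (A' + 1 : ℝ)) ^ c * Real.log n ^ c := by rw [mul_pow]
    _ ≤ (9 * (A' + 1 : ℝ)) ^ c * (1 / (9 * (A' + 1 : ℝ)) ^ c * n) :=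
        mul_le_mul_of_nonneg_left h4 (by positivity)
    _ = n := by
      field_simp

theorem ek_mono {k K : ℕ} (h : k ≤ K) : ek k ≤ ek K := by
  unfold ek
  have : (k : ℝ) ≤ K := by exact_mod_cast h
  gcongr

variable {F : Type} [Field F] [Fintype F]

open Classical in
/-- **Hardy and Littlewood's asymptotic formula on average, absolute form.** -/
theorem main_T (r A : ℕ) : ∃ C n₀ : ℕ, ∀ (F : Type) [Field F] [Fintype F] (n h : ℕ), n₀ ≤ n →
    2 ≤ h → h ≤ n → n ^ C ≤ Fintype.card F ^ h →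
    ∀ c : Fin r → F[X], (∀ i, c i ∈ Lo F n) →
    (((Box F r h).filter (fun a => Function.Injective (c + a) ∧
      q F ^ n / (n : ℝ) ^ A < |TT n (fun _ => th n) (c + a) - q F ^ n * SS (c + a)|)).card : ℝ) ≤
      (q F ^ h) ^ r / (n : ℝ) ^ A := by
  set M : ℕ := 2 * (3 * A + 2 * r + 2) with hM
  set A' : ℕ := M + 4 with hA'
  set c₀ : ℕ := 20 + 10 * r with hc₀
  obtain ⟨n₁, hn₁⟩ := asym c₀ A'
  set Cr : ℕ := 2 ^ (r + 1) * r ^ 2 * (1 + r ^ 2) with hCr
  refine ⟨6 * (M + 3), max n₁ (max 16 (Cr + 2 * r + 4)), ?_⟩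
  intro F _ _ n h hn hh hhn hC c hc
  have hq := q_pos F
  have hq2 := two_le_q F
  have hn1 : n₁ ≤ n := (le_max_left _ _).trans hn
  have hn16 : 16 ≤ n := (le_max_left _ _).trans ((le_max_right _ _).trans hn)
  have hnC : Cr + 2 * r + 4 ≤ n := (le_max_right _ _).trans ((le_max_right _ _).trans hn)
  set N : ℝ := (n : ℝ) with hN
  have hN16 : (16 : ℝ) ≤ N := by
    rw [hN]
    exact_mod_cast hn16
  have hN1 : (1 : ℝ) ≤ N := by linarith
  have hN0 : (0 : ℝ) < N := by linarith
  have hNC : (Cr : ℝ) ≤ N := by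
    rw [hN]
    exact_mod_cast (by omega : Cr ≤ n)
  have hNr : 2 * (r : ℝ) ≤ N := by
    rw [hN]
    exact_mod_cast (by omega : 2 * r ≤ n)
  set K := KA A' n with hK
  set k := Nat.clog (Fintype.card F) (n ^ A') with hk
  set J := n / (4 * (K + 1)) with hJ
  set d := h / 2 with hd
  have hcard : 2 ≤ Fintype.card F := Fintype.one_lt_card
  have hnA : 1 < n ^ A' := Nat.one_lt_pow (by omega) (by omega)
  have hk1 : 1 ≤ k := by
    have := Nat.clog_pos (b := Fintype.card F) (n := n ^ A') (by omega) (by omega)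
    omega
  have hkq : n ^ A' ≤ Fintype.card F ^ k := Nat.le_pow_clog (by omega) _
  have hn2K : n ^ A' ≤ 2 ^ K := by
    have h1 : n ≤ 2 ^ (Nat.log 2 n + 1) := (Nat.lt_pow_succ_log_self (by norm_num) n).le
    calc n ^ A' ≤ (2 ^ (Nat.log 2 n + 1)) ^ A' := Nat.pow_le_pow_left h1 _
      _ = 2 ^ K := by
        rw [← pow_mul, hK]
        unfold KA
        congr 1
        ring
  have hkK : k ≤ K := by
    apply Nat.clog_le_of_le_pow
    exact hn2K.trans (Nat.pow_le_pow_left hcard K)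
  have hasym := hn₁ n hn1
  rw [← hK] at hasym
  have hek1 : 1 ≤ ek k := one_le_ek hk1
  have hekK : ek k ≤ ek K := ek_mono hkK
  have hK1 : 1 ≤ K := hk1.trans hkK
  have hekK1 : 1 ≤ ek K := one_le_ek hK1
  have hpow : ∀ e : ℕ, e ≤ c₀ → ek k ^ e ≤ N := by
    intro e he
    calc ek k ^ e ≤ ek K ^ e := pow_le_pow_left₀ (by linarith) hekK e
      _ ≤ ek K ^ c₀ := pow_le_pow_right₀ hekK1 he
      _ ≤ N := hasym
  -- `J` is at least `K`
  have hJK : K ≤ J := by
    rw [hJ, Nat.le_div_iff_mul_le (by positivity)]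
    have h1 : (8 : ℝ) * K ^ 2 ≤ N := by
      refine le_trans ?_ hasym
      have h2 : 2 * (K : ℝ) ≤ ek K := by
        unfold ek
        have h3 : (2 : ℝ) ≤ Real.exp 1 := by
          have := Real.add_one_le_exp (1 : ℝ)
          linarith
        exact mul_le_mul_of_nonneg_right h3 (Nat.cast_nonneg K)
      have hK1' : (1 : ℝ) ≤ K := by exact_mod_cast hK1
      calc (8 : ℝ) * K ^ 2 ≤ (2 * (K : ℝ)) ^ 4 := by nlinarith [pow_le_pow_right₀ hK1' (by norm_num : 2 ≤ 4)]
        _ ≤ ek K ^ 4 := pow_le_pow_left₀ (by positivity) h2 4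
        _ ≤ ek K ^ c₀ := pow_le_pow_right₀ hekK1 (by omega)
    have h2 : 8 * K ^ 2 ≤ n := by
      rw [hN] at h1
      exact_mod_cast h1
    have h3 : K * (4 * (K + 1)) ≤ 8 * K ^ 2 := by nlinarith
    exact h3.trans h2
  have h4J : 4 * ((k + 1) * J) ≤ n := by
    have h1 : 4 * (K + 1) * J ≤ n := Nat.mul_div_le n (4 * (K + 1))
    calc 4 * ((k + 1) * J) ≤ 4 * ((K + 1) * J) := by
          apply Nat.mul_le_mul_left
          apply Nat.mul_le_mul_right
          omega
      _ = 4 * (K + 1) * J := by ring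
      _ ≤ n := h1
  have hJn : J * k ≤ n := by nlinarith
  have h4Jn : N ^ (2 * A') ≤ (4 : ℝ) ^ J := by
    calc N ^ (2 * A') = (N ^ A') ^ 2 := by rw [mul_comm, pow_mul]
      _ ≤ ((2 : ℝ) ^ K) ^ 2 := by
        apply pow_le_pow_left₀ (by positivity)
        rw [hN]
        exact_mod_cast hn2K
      _ = 4 ^ K := by rw [← pow_mul, mul_comm, pow_mul]; norm_num
      _ ≤ 4 ^ J := pow_le_pow_right₀ (by norm_num) hJK
  -- the bounds
  have hτ : tau n k J ≤ 1 / N ^ (M + 1) := by
    unfold tau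
    rw [div_le_div_iff₀ (by positivity) (by positivity)]
    have h1 : ek k ^ 20 ≤ N := hpow 20 (by omega)
    have h2 : N + 6 ≤ N ^ 2 := by nlinarith
    calc ek k ^ 20 * (n + 6) * N ^ (M + 1) ≤ N * N ^ 2 * N ^ (M + 1) := by
          apply mul_le_mul_of_nonneg_right _ (by positivity)
          exact mul_le_mul h1 h2 (by positivity) hN0.le
      _ = N ^ (M + 4) := by rw [← pow_succ', ← pow_add]; congr 1; omega
      _ ≤ N ^ (2 * A') := pow_le_pow_right₀ hN1 (by omega)
      _ ≤ 4 ^ J := h4Jn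
      _ = 1 * 4 ^ J := (one_mul _).symm
  have hε : eps F n d ≤ 1 / N ^ (M + 1) := by
    unfold eps
    have h1 : N ^ (M + 3) ≤ √(q F) ^ d := by
      have h2 : (1 : ℝ) ≤ √(q F) := by
        rw [Real.one_le_sqrt]
        linarith
      have h3 : (N ^ (M + 3)) ^ 6 ≤ (√(q F) ^ d) ^ 6 := by
        calc (N ^ (M + 3)) ^ 6 = N ^ (6 * (M + 3)) := by rw [← pow_mul, mul_comm]
          _ ≤ q F ^ h := by
            rw [hN]
            unfold q
            exact_mod_cast hC
          _ = √(q F) ^ (2 * h) := by rw [pow_mul, Real.sq_sqrt hq.le]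
          _ ≤ √(q F) ^ (d * 6) := pow_le_pow_right₀ h2 (by omega)
          _ = (√(q F) ^ d) ^ 6 := by rw [pow_mul]
      exact le_of_pow_le_pow_left₀ (by norm_num) (by positivity) h3
    have h2 : 0 < √(q F) ^ d := lt_of_lt_of_le (by positivity) h1
    rw [div_le_div_iff₀ h2 (by positivity), one_mul]
    refine le_trans ?_ h1
    have h3 : N + 2 ≤ N ^ 2 := by nlinarith
    calc (n + 2 : ℝ) * N ^ (M + 1) ≤ N ^ 2 * N ^ (M + 1) := by
          apply mul_le_mul_of_nonneg_right h3 (by positivity)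
      _ = N ^ (M + 3) := by rw [← pow_add]; congr 1; omega
  have hqk : N ^ A' ≤ q F ^ k := by
    rw [hN]
    unfold q
    exact_mod_cast hkq
  have hκ : kap1 F k ≤ 1 / N ^ (M + 1) := by
    unfold kap1
    apply one_div_le_one_div_of_le (by positivity)
    have h1 : q F ^ (k + 1) = q F ^ k * q F := pow_succ _ _
    have h2 : 1 ≤ q F ^ k := one_le_pow₀ (by linarith)
    have h3 : N ^ (M + 1) ≤ N ^ A' := pow_le_pow_right₀ hN1 (by omega)
    nlinarith
  set y := 1 / N ^ (M + 1) with hy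
  have hy0 : 0 ≤ y := by positivity
  have hy1 : y ≤ 1 := by
    rw [hy, div_le_one (by positivity)]
    exact one_le_pow₀ hN1
  have hε0 := eps_nonneg F n d
  have hκ0 := kap1_nonneg F k
  have hτ0 := tau_nonneg n (k := k) J
  have hδ : del F n d k J ≤ 1 / N ^ M := by
    have h1 : del F n d k J ≤ 11 * y := by
      unfold del
      have h2 : eps F n d ^ 2 ≤ y := by
        calc eps F n d ^ 2 ≤ y ^ 2 := pow_le_pow_left₀ hε0 hε 2
          _ ≤ y := by nlinarith
      have h3 : (kap1 F k + eps F n d) ^ 2 ≤ 4 * y := by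
        calc (kap1 F k + eps F n d) ^ 2 ≤ (2 * y) ^ 2 := pow_le_pow_left₀ (by positivity) (by linarith) 2
          _ ≤ 4 * y := by nlinarith
      linarith
    refine h1.trans ?_
    rw [hy, pow_succ, mul_one_div, div_le_div_iff₀ (by positivity) (by positivity)]
    have : 0 < N ^ M := by positivity
    nlinarith
  have hsδ : √(del F n d k J) ≤ 1 / N ^ (3 * A + 2 * r + 2) := by
    rw [Real.sqrt_le_left (by positivity), div_pow, one_pow, ← pow_mul]
    refine hδ.trans (le_of_eq ?_)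
    rw [hM, mul_comm]
  -- the mean square
  have havg := avg (r := r) (h := h) (d := d) (c := c) hk1 (by omega) hhn (by omega) h4J (B := N) le_rfl (hpow 2 (by omega)) hc
  -- the error terms
  have he1 : 2 * (ek k ^ (10 * r) / 8 ^ J) ≤ 1 / (4 * N ^ A) := by
    have h1 : ek k ^ (10 * r) ≤ N := hpow _ (by omega)
    have h2 : (4 : ℝ) ^ J ≤ 8 ^ J := pow_le_pow_left₀ (by norm_num) (by norm_num) J
    rw [mul_div_assoc', div_le_div_iff₀ (by positivity) (by positivity), one_mul]
    refine le_trans ?_ (h4Jn.trans h2)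
    calc 2 * ek k ^ (10 * r) * (4 * N ^ A) ≤ 2 * N * (4 * N ^ A) := by gcongr
      _ = 8 * N ^ (A + 1) := by ring
      _ ≤ N * N ^ (A + 1) := by
        apply mul_le_mul_of_nonneg_right _ (by positivity)
        linarith
      _ = N ^ (A + 2) := by ring
      _ ≤ N ^ (2 * A') := pow_le_pow_right₀ hN1 (by omega)
  -- the discriminants
  have hdisc : ∀ a ∈ Box F r h, ((disc (c + a)).natDegree : ℝ) ≤ r ^ 2 * N := by
    intro a ha
    have h1 : ∀ i, ((c + a) i).natDegree ≤ n := by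
      intro i
      have h2 : a i ∈ Lo F h := by
        unfold Box at ha
        exact Fintype.mem_piFinset.1 ha i
      have h3 : (c + a) i ∈ Lo F n := add_mem_Lo (hc i) (Lo_mono hhn h2)
      rw [mem_Lo] at h3
      exact natDegree_le_of_degree_le h3.le
    have := disc_deg h1
    rw [hN]
    exact_mod_cast this
  have hbig : ∀ a ∈ Box F r h, 2 * (2 ^ r * r ^ 2 * ((1 + (disc (c + a)).natDegree) / q F ^ k)) ≤
      N ^ 2 / N ^ A' := by
    intro a ha
    have h1 := hdisc a ha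
    have h2 : 2 * (2 ^ r * (r : ℝ) ^ 2 * (1 + (disc (c + a)).natDegree)) ≤ N ^ 2 := by
      calc 2 * (2 ^ r * (r : ℝ) ^ 2 * (1 + (disc (c + a)).natDegree)) ≤
          2 * (2 ^ r * (r : ℝ) ^ 2 * ((1 + r ^ 2) * N)) := by
            gcongr
            nlinarith
        _ = Cr * N := by
          rw [hCr]
          push_cast
          ring
        _ ≤ N * N := by gcongr
        _ = N ^ 2 := by ring
    calc 2 * (2 ^ r * r ^ 2 * ((1 + (disc (c + a)).natDegree) / q F ^ k)) =
        2 * (2 ^ r * (r : ℝ) ^ 2 * (1 + (disc (c + a)).natDegree)) / q F ^ k := by ring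
      _ ≤ N ^ 2 / N ^ A' := div_le_div₀ (by positivity) h2 (by positivity) hqk
  -- the bad shifts
  have hbad : ∀ a ∈ (Box F r h).filter (fun a => Function.Injective (c + a) ∧
      q F ^ n / N ^ A < |TT n (fun _ => th n) (c + a) - q F ^ n * SS (c + a)|),
      (q F ^ n / (2 * N ^ A)) ^ 2 ≤
        (TT n (fun _ => th n) (c + a) - TT n (fun _ => lam k) (c + a)) ^ 2 := by
    intro a ha
    rw [mem_filter] at ha
    obtain ⟨haB, hinj, hlt⟩ := ha
    have h1 := model_tuple hk1 (c + a) hJn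
    rw [Fintype.card_fin] at h1
    have h2 : |TT n (fun _ => lam k) (c + a) - q F ^ n * SW k (c + a)| ≤
        2 * q F ^ n * (ek k ^ (10 * r) / 8 ^ J) := h1
    have hb := hbig a haB
    have h3 : N ^ 2 / N ^ A' ≤ 1 := by
      rw [div_le_one (by positivity)]
      exact pow_le_pow_right₀ hN1 (by omega)
    have h4 := SS_SW hk1 hinj (by
      have : 0 ≤ 2 ^ r * (r : ℝ) ^ 2 * ((1 + (disc (c + a)).natDegree) / q F ^ k) := by positivity
      linarith)
    have h5 : |SS (c + a) - SW k (c + a)| ≤ 1 / (4 * N ^ A) := by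
      refine h4.trans ?_
      calc 2 * ek k ^ (2 * r) * (2 ^ r * r ^ 2 * ((1 + (disc (c + a)).natDegree) / q F ^ k)) =
          ek k ^ (2 * r) * (2 * (2 ^ r * r ^ 2 * ((1 + (disc (c + a)).natDegree) / q F ^ k))) := by ring
        _ ≤ N * (N ^ 2 / N ^ A') := by
          apply mul_le_mul (hpow _ (by omega)) hb (by positivity) hN0.le
        _ = N ^ 3 / N ^ A' := by ring
        _ ≤ 1 / (4 * N ^ A) := by
          rw [div_le_div_iff₀ (by positivity) (by positivity), one_mul]
          calc N ^ 3 * (4 * N ^ A) = 4 * N ^ (A + 3) := by ring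
            _ ≤ N * N ^ (A + 3) := by
              apply mul_le_mul_of_nonneg_right _ (by positivity)
              linarith
            _ = N ^ (A + 4) := by ring
            _ ≤ N ^ A' := pow_le_pow_right₀ hN1 (by omega)
    have h6 : |q F ^ n * SW k (c + a) - q F ^ n * SS (c + a)| ≤ q F ^ n * (1 / (4 * N ^ A)) := by
      rw [← mul_sub, abs_mul, abs_of_pos (by positivity), abs_sub_comm]
      exact mul_le_mul_of_nonneg_left h5 (by positivity)
    have h7 : 2 * q F ^ n * (ek k ^ (10 * r) / 8 ^ J) ≤ q F ^ n * (1 / (4 * N ^ A)) := by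
      calc 2 * q F ^ n * (ek k ^ (10 * r) / 8 ^ J) = q F ^ n * (2 * (ek k ^ (10 * r) / 8 ^ J)) := by ring
        _ ≤ _ := mul_le_mul_of_nonneg_left he1 (by positivity)
    have h8 := abs_sub_le (TT n (fun _ => th n) (c + a)) (TT n (fun _ => lam k) (c + a))
      (q F ^ n * SS (c + a))
    have h9 := abs_sub_le (TT n (fun _ => lam k) (c + a)) (q F ^ n * SW k (c + a))
      (q F ^ n * SS (c + a))
    have h10 : q F ^ n / N ^ A = 2 * (q F ^ n / (2 * N ^ A)) := by
      field_simp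
    have h11 : q F ^ n * (1 / (4 * N ^ A)) = (q F ^ n / (2 * N ^ A)) / 2 := by
      field_simp
      norm_num
    have h12 : q F ^ n / (2 * N ^ A) ≤
        |TT n (fun _ => th n) (c + a) - TT n (fun _ => lam k) (c + a)| := by linarith
    rw [← sq_abs (TT n (fun _ => th n) (c + a) - TT n (fun _ => lam k) (c + a))]
    exact pow_le_pow_left₀ (by positivity) h12 2
  -- Chebyshev
  set S := (Box F r h).filter (fun a => Function.Injective (c + a) ∧
      q F ^ n / N ^ A < |TT n (fun _ => th n) (c + a) - q F ^ n * SS (c + a)|) with hS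
  have h1 : (S.card : ℝ) * (q F ^ n / (2 * N ^ A)) ^ 2 ≤
      (r : ℝ) ^ 2 * (N ^ (2 * r - 1) * √(del F n d k J)) * ((q F ^ h) ^ r * (q F ^ n) ^ 2) := by
    refine le_trans ?_ havg
    rw [← nsmul_eq_mul, ← sum_const]
    refine (sum_le_sum hbad).trans ?_
    exact sum_le_sum_of_subset_of_nonneg (filter_subset _ _) fun _ _ _ => sq_nonneg _
  have h2 : (r : ℝ) ^ 2 * (N ^ (2 * r - 1) * √(del F n d k J)) ≤ 1 / (4 * N ^ (3 * A)) := by
    have h3 : N ^ (2 * r - 1) ≤ N ^ (2 * r) := pow_le_pow_right₀ hN1 (by omega)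
    have h4 : 4 * (r : ℝ) ^ 2 ≤ N ^ 2 := by nlinarith [Nat.cast_nonneg (α := ℝ) r]
    calc (r : ℝ) ^ 2 * (N ^ (2 * r - 1) * √(del F n d k J)) ≤
        (r : ℝ) ^ 2 * (N ^ (2 * r) * (1 / N ^ (3 * A + 2 * r + 2))) := by gcongr
      _ = 4 * (r : ℝ) ^ 2 / (4 * N ^ (3 * A + 2)) := by
        have h5 : N ^ (3 * A + 2 * r + 2) = N ^ (2 * r) * N ^ (3 * A + 2) := by
          rw [← pow_add]
          congr 1
          omega
        rw [h5]
        have : N ^ (2 * r) ≠ 0 := by positivity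
        field_simp
      _ ≤ N ^ 2 / (4 * N ^ (3 * A + 2)) := by gcongr
      _ = 1 / (4 * N ^ (3 * A)) := by
        rw [pow_add]
        field_simp
  have h3 : (S.card : ℝ) * (q F ^ n / (2 * N ^ A)) ^ 2 ≤
      1 / (4 * N ^ (3 * A)) * ((q F ^ h) ^ r * (q F ^ n) ^ 2) := by
    refine h1.trans ?_
    gcongr
  have h4 : 1 / (4 * N ^ (3 * A)) * ((q F ^ h) ^ r * (q F ^ n) ^ 2) =
      ((q F ^ h) ^ r / N ^ A) * (q F ^ n / (2 * N ^ A)) ^ 2 := by
    have h5 : N ^ (3 * A) = N ^ A * N ^ A * N ^ A := by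
      rw [← pow_add, ← pow_add]
      congr 1
      omega
    rw [h5]
    field_simp
    norm_num
  rw [h4] at h3
  exact le_of_mul_le_mul_right h3 (by positivity)

end Pool.Agent.H23.FF
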