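import Pool.Agent.H23.FF.Cnt

/-!
# The sieve model of the primes
-/

set_option autoImplicit false

open Finset Polynomial ComplexConjugate
open Pool.Agent.H341R2.Sharp (Mon mem_Mon)
open Pool.Agent.Q284.PS (Hay PD)

namespace Pool.Agent.H23.FF

variable {F : Type} [Field F] [Fintype F]

open Classical in
variable (F) in
/-- the monic irreducible polynomials of degree at most `k` -/
noncomputable def PP (k : ℕ) : Finset F[X] :=
  (Icc 1 k).biUnion (fun j => (Mon F j).filter (fun P => Irreducible P))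

theorem mem_PP {k : ℕ} {P : F[X]} : P ∈ PP F k ↔ P.Monic ∧ Irreducible P ∧ P.natDegree ≤ k := by
  classical
  unfold PP
  rw [mem_biUnion]
  constructor
  · rintro ⟨j, hj, h⟩
    rw [mem_filter, mem_Mon] at h
    rw [mem_Icc] at hj
    exact ⟨h.1.1, h.2, by rw [h.1.2]; exact hj.2⟩
  · rintro ⟨h1, h2, h3⟩
    refine ⟨P.natDegree, mem_Icc.2 ⟨h2.natDegree_pos, h3⟩, ?_⟩
    rw [mem_filter, mem_Mon]
    exact ⟨⟨h1, rfl⟩, h2⟩

variable (F) in
theorem card_PP (k : ℕ) : (PP F k).card + 1 ≤ Fintype.card F ^ (k + 1) := by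
  classical
  have hq : 2 ≤ Fintype.card F := Fintype.one_lt_card
  have h1 : (PP F k).card ≤ ∑ j ∈ Icc 1 k, Fintype.card F ^ j := by
    unfold PP
    refine card_biUnion_le.trans ?_
    apply sum_le_sum
    intro j _
    rw [← card_Mon]
    exact card_filter_le _ _
  have h2 : ∀ k : ℕ, ∑ j ∈ Icc 1 k, Fintype.card F ^ j + 1 ≤ Fintype.card F ^ (k + 1) := by
    intro k
    induction k with
    | zero => simp; omega
    | succ k ih =>
      rw [sum_Icc_succ_top (by omega)]
      have h3 : Fintype.card F ^ (k + 1 + 1) = Fintype.card F ^ (k + 1) * Fintype.card F :=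
        pow_succ _ _
      have h4 := Nat.mul_le_mul_left (Fintype.card F ^ (k + 1)) hq
      omega
  have := h2 k
  omega

open Classical in
variable (F) in
theorem card_irr (j : ℕ) (hj : 1 ≤ j) :
    (j : ℝ) * (((Mon F j).filter (fun P => Irreducible P)).card : ℝ) ≤ q F ^ j := by
  have h1 : ∑ P ∈ PD F j, (P.natDegree : ℝ) = q F ^ j := by
    have := Pool.Agent.Q53.PS.t_CPR F j hj
    unfold q
    exact_mod_cast this
  rw [← h1]
  have h2 : (j : ℝ) * (((Mon F j).filter (fun P => Irreducible P)).card : ℝ) =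
      ∑ P ∈ (Mon F j).filter (fun P => Irreducible P), (P.natDegree : ℝ) := by
    have : ∀ P ∈ (Mon F j).filter (fun P => Irreducible P), (P.natDegree : ℝ) = j := by
      intro P hP
      rw [mem_filter, mem_Mon] at hP
      rw [hP.1.2]
    rw [sum_congr rfl this, sum_const, nsmul_eq_mul, mul_comm]
  rw [h2]
  apply sum_le_sum_of_subset_of_nonneg
  · intro P hP
    rw [mem_filter, mem_Mon] at hP
    rw [mem_PD hj]
    exact ⟨hP.1.1, hP.2, by rw [hP.1.2]⟩
  · intro _ _ _
    exact Nat.cast_nonneg _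

/-- the size of the inverse of Mertens's product -/
noncomputable def ek (k : ℕ) : ℝ := Real.exp 1 * k

variable (F) in
/-- Mertens's sum -/
theorem mertens (k : ℕ) (hk : 1 ≤ k) : ∑ P ∈ PP F k, 1 / nrm P ≤ Real.log (ek k) := by
  classical
  have h1 : ∑ P ∈ PP F k, 1 / nrm P ≤ ∑ j ∈ Icc 1 k, (1 / (j : ℝ)) := by
    unfold PP
    rw [sum_biUnion]
    · apply sum_le_sum
      intro j hj
      rw [mem_Icc] at hj
      have h2 : ∀ P ∈ (Mon F j).filter (fun P => Irreducible P), 1 / nrm P = 1 / q F ^ j := by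
        intro P hP
        rw [mem_filter, mem_Mon] at hP
        unfold nrm
        rw [hP.1.2]
      rw [sum_congr rfl h2, sum_const, nsmul_eq_mul, mul_one_div, div_le_div_iff₀ (pow_pos (q_pos F) j)
        (by exact_mod_cast hj.1), mul_comm]
      have := card_irr F j hj.1
      linarith
    · intro i _ j _ hij
      rw [Function.onFun, disjoint_left]
      intro P hP hP'
      rw [mem_filter, mem_Mon] at hP hP'
      exact hij (hP.1.2.symm.trans hP'.1.2)
  refine h1.trans ?_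
  have h2 := harmonic_le_one_add_log k
  have h3 : ((harmonic k : ℚ) : ℝ) = ∑ j ∈ Icc 1 k, (1 / (j : ℝ)) := by
    rw [harmonic_eq_sum_Icc]
    push_cast
    apply sum_congr rfl
    intro j _
    rw [one_div]
  rw [h3] at h2
  unfold ek
  have hk0 : (0 : ℝ) < k := by exact_mod_cast hk
  rw [Real.log_mul (Real.exp_pos 1).ne' hk0.ne', Real.log_exp]
  exact h2

theorem ek_pos {k : ℕ} (hk : 1 ≤ k) : 0 < ek k := by
  unfold ek
  have : (0 : ℝ) < k := by exact_mod_cast hk
  positivity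

theorem one_le_ek {k : ℕ} (hk : 1 ≤ k) : 1 ≤ ek k := by
  unfold ek
  have h1 : (1 : ℝ) ≤ k := by exact_mod_cast hk
  have h2 : (1 : ℝ) ≤ Real.exp 1 := Real.one_le_exp (by norm_num)
  nlinarith

variable (F) in
theorem exp_mertens (k : ℕ) (hk : 1 ≤ k) (c : ℕ) :
    Real.exp (c * ∑ P ∈ PP F k, 1 / nrm P) ≤ ek k ^ c := by
  have h1 := mertens F k hk
  calc Real.exp (c * ∑ P ∈ PP F k, 1 / nrm P) ≤ Real.exp (c * Real.log (ek k)) := by
        apply Real.exp_le_exp.2
        exact mul_le_mul_of_nonneg_left h1 (Nat.cast_nonneg c)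
    _ = ek k ^ c := by
      rw [mul_comm, Real.exp_mul, Real.exp_log (ek_pos hk), Real.rpow_natCast]

/-- elementary symmetric functions of small weights -/
theorem es_PP (k : ℕ) (hk : 1 ≤ k) (c J : ℕ) (ω : F[X] → ℝ) (S : Finset F[X]) (hS : S ⊆ PP F k)
    (h : ∀ P ∈ S, 0 ≤ ω P ∧ ω P ≤ c / nrm P) : es ω S J ≤ ek k ^ (8 * c) / 8 ^ J := by
  refine (es_le ω S (fun p hp => (h p hp).1) J (t := 8) (by norm_num)).trans ?_
  apply div_le_div_of_nonneg_right _ (by positivity)
  refine le_trans ?_ (exp_mertens F k hk (8 * c))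
  apply Real.exp_le_exp.2
  push_cast
  rw [mul_assoc]
  apply mul_le_mul_of_nonneg_left _ (by norm_num)
  rw [mul_sum]
  calc ∑ p ∈ S, ω p ≤ ∑ p ∈ S, c * (1 / nrm p) := by
        apply sum_le_sum
        intro p hp
        have := (h p hp).2
        rw [mul_one_div]
        exact this
    _ ≤ ∑ p ∈ PP F k, c * (1 / nrm p) := by
      apply sum_le_sum_of_subset_of_nonneg hS
      intro p _ _
      have := nrm_pos p
      positivity

variable (F) in
/-- Mertens's product -/
noncomputable def VV (k : ℕ) : ℝ := ∏ P ∈ PP F k, (1 - 1 / nrm P)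

theorem fac_pos {P : F[X]} (hP : Irreducible P) : 0 < 1 - 1 / nrm P := by
  have h1 := one_lt_nrm hP
  rw [sub_pos, div_lt_one (by linarith)]
  exact h1

variable (F) in
theorem VV_pos (k : ℕ) : 0 < VV F k := by
  unfold VV
  apply prod_pos
  intro P hP
  exact fac_pos (mem_PP.1 hP).2.1

variable (F) in
theorem VV_inv_le (k : ℕ) (hk : 1 ≤ k) : (VV F k)⁻¹ ≤ ek k ^ 2 := by
  refine le_trans ?_ (exp_mertens F k hk 2)
  unfold VV
  rw [← prod_inv_distrib, mul_sum, Real.exp_sum]
  apply prod_le_prod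
  · intro P hP
    exact (inv_pos.2 (fac_pos (mem_PP.1 hP).2.1)).le
  · intro P hP
    have h1 := two_le_nrm (mem_PP.1 hP).2.1
    have h2 : (1 - 1 / nrm P)⁻¹ ≤ 1 + 2 * (1 / nrm P) := by
      have h3 : 0 < nrm P := by linarith
      have h4 : (1 - 1 / nrm P)⁻¹ = nrm P / (nrm P - 1) := by
        have : nrm P - 1 ≠ 0 := by linarith
        field_simp
      rw [h4, div_le_iff₀ (by linarith)]
      have h5 : (1 + 2 * (1 / nrm P)) * (nrm P - 1) = nrm P + 1 - 2 / nrm P := by
        field_simp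
        ring
      rw [h5]
      have h6 : 2 / nrm P ≤ 1 := by
        rw [div_le_one h3]
        exact h1
      linarith
    have h3 := Real.add_one_le_exp (2 * (1 / nrm P))
    push_cast
    linarith

open Classical in
/-- the model -/
noncomputable def lam (k : ℕ) (f : F[X]) : ℝ := if ∀ P ∈ PP F k, ¬ P ∣ f then (VV F k)⁻¹ else 0

theorem lam_nonneg (k : ℕ) (f : F[X]) : 0 ≤ lam k f := by
  unfold lam
  have := VV_pos F k
  split_ifs
  · positivity
  · exact le_rfl

theorem lam_le (k : ℕ) (hk : 1 ≤ k) (f : F[X]) : lam k f ≤ ek k ^ 2 := by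
  unfold lam
  have := VV_inv_le F k hk
  split_ifs
  · exact this
  · exact (inv_nonneg.2 (VV_pos F k).le).trans this

section tuple

variable {ι : Type*} [Fintype ι]

open Classical in
/-- **The sieve with exact counts.** -/
theorem sieve_count {n k J : ℕ} (hk : 1 ≤ k) (b : ι → F[X]) {g : F[X]} (hg : g.Monic) (c : F[X])
    (S : Finset F[X]) (hS : S ⊆ PP F k) (hSg : ∀ P ∈ S, ¬ P ∣ g) (hn : g.natDegree + J * k ≤ n) :
    |(((Mon F n).filter (fun f => g ∣ f + c ∧ ∀ P ∈ S, ¬ ∃ i, P ∣ f + b i)).card : ℝ) -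
      q F ^ n / nrm g * ∏ P ∈ S, (1 - nu b P / nrm P : ℝ)| ≤
      2 * (q F ^ n / nrm g) * (ek k ^ (8 * Fintype.card ι) / 8 ^ J) := by
  have hY : 0 ≤ q F ^ n / nrm g := by
    have := q_pos F
    have := nrm_pos g
    positivity
  have h1 := brun ((Mon F n).filter (fun f => g ∣ f + c)) (fun _ => 1) (fun _ _ => zero_le_one) S
    (fun P f => ∃ i, P ∣ f + b i) (fun P => nu b P / nrm P)
    (fun P hP => ⟨div_nonneg (Nat.cast_nonneg _) (nrm_pos P).le, by
      rw [div_le_one (nrm_pos P)]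
      exact nu_le_nrm b (mem_PP.1 (hS hP)).1⟩) (q F ^ n / nrm g) 0 hY J ?_
  · rw [zero_mul, add_zero, filter_filter, sum_const, nsmul_eq_mul, mul_one] at h1
    refine le_trans (le_of_eq ?_) (h1.trans ?_)
    · congr!
    apply mul_le_mul_of_nonneg_left _ (by positivity)
    apply es_PP k hk (Fintype.card ι) J _ S hS
    intro P _
    have h3 := nrm_pos P
    refine ⟨div_nonneg (Nat.cast_nonneg _) h3.le, ?_⟩
    apply div_le_div_of_nonneg_right _ h3.le
    exact_mod_cast nu_le b P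
  · intro T hT hTJ
    rw [filter_filter, sum_const, nsmul_eq_mul, mul_one]
    have h3 : ∑ P ∈ T, P.natDegree ≤ J * k := by
      calc ∑ P ∈ T, P.natDegree ≤ ∑ P ∈ T, k := by
            apply sum_le_sum
            intro P hP
            exact (mem_PP.1 (hS (hT hP))).2.2
        _ = T.card * k := by rw [sum_const, smul_eq_mul]
        _ ≤ J * k := Nat.mul_le_mul_right _ hTJ
    have h4 := card_bad b T (fun P hP => ⟨(mem_PP.1 (hS (hT hP))).1, (mem_PP.1 (hS (hT hP))).2.1⟩)
      n g hg (fun P hP => hSg P (hT hP)) (by omega) c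
    rw [← h4]
    refine le_of_eq ?_
    rw [abs_eq_zero, sub_eq_zero]
    congr!

theorem lam_prod (k : ℕ) (b : ι → F[X]) (f : F[X]) :
    ∏ i, lam k (f + b i) =
      open Classical in if ∀ P ∈ PP F k, ¬ ∃ i, P ∣ f + b i then (VV F k)⁻¹ ^ Fintype.card ι else 0 := by
  classical
  by_cases h : ∀ P ∈ PP F k, ¬ ∃ i, P ∣ f + b i
  · rw [if_pos h]
    have h1 : ∀ i ∈ (univ : Finset ι), lam k (f + b i) = (VV F k)⁻¹ := by
      intro i _
      unfold lam
      rw [if_pos]
      intro P hP hd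
      exact h P hP ⟨i, hd⟩
    rw [prod_congr rfl h1, prod_const, card_univ]
  · rw [if_neg h]
    push Not at h
    obtain ⟨P, hP, i, hi⟩ := h
    apply prod_eq_zero (mem_univ i)
    unfold lam
    rw [if_neg]
    intro h'
    exact h' P hP hi

/-- the singular series up to degree `k` -/
noncomputable def SW (k : ℕ) (b : ι → F[X]) : ℝ :=
  ∏ P ∈ PP F k, ((1 - nu b P / nrm P) * ((1 - 1 / nrm P)⁻¹) ^ Fintype.card ι)

/-- **The correlations of the model.** -/
theorem model_tuple {n k J : ℕ} (hk : 1 ≤ k) (b : ι → F[X]) (hn : J * k ≤ n) :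
    |∑ f ∈ Mon F n, ∏ i, lam k (f + b i) - q F ^ n * SW k b| ≤
      2 * q F ^ n * (ek k ^ (10 * Fintype.card ι) / 8 ^ J) := by
  classical
  have h1 := sieve_count hk b (g := 1) monic_one 0 (PP F k) (Subset.refl _)
    (fun P hP h => (mem_PP.1 hP).2.1.not_isUnit (isUnit_of_dvd_one h)) (n := n) (J := J)
    (by rw [natDegree_one]; omega)
  have h2 : nrm (1 : F[X]) = 1 := by
    unfold nrm
    rw [natDegree_one, pow_zero]
  rw [h2, div_one] at h1
  have h3 : (Mon F n).filter (fun f => 1 ∣ f + 0 ∧ ∀ P ∈ PP F k, ¬ ∃ i, P ∣ f + b i) =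
      (Mon F n).filter (fun f => ∀ P ∈ PP F k, ¬ ∃ i, P ∣ f + b i) := by
    apply filter_congr
    intro f _
    simp
  rw [h3] at h1
  set r := Fintype.card ι with hr
  set N : ℝ := (((Mon F n).filter (fun f => ∀ P ∈ PP F k, ¬ ∃ i, P ∣ f + b i)).card : ℝ) with hN
  have h4 : ∑ f ∈ Mon F n, ∏ i, lam k (f + b i) = (VV F k)⁻¹ ^ r * N := by
    rw [sum_congr rfl fun f _ => lam_prod k b f, ← sum_filter, sum_const, nsmul_eq_mul, mul_comm]
  have h5 : SW k b = (VV F k)⁻¹ ^ r * ∏ P ∈ PP F k, (1 - nu b P / nrm P : ℝ) := by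
    unfold SW VV
    rw [prod_mul_distrib, prod_pow, prod_inv_distrib, mul_comm]
  have h6 : ∑ f ∈ Mon F n, ∏ i, lam k (f + b i) - q F ^ n * SW k b =
      (VV F k)⁻¹ ^ r * (N - q F ^ n * ∏ P ∈ PP F k, (1 - nu b P / nrm P : ℝ)) := by
    rw [h4, h5]
    ring
  have hV := VV_pos F k
  rw [h6, abs_mul, abs_of_nonneg (by positivity : 0 ≤ (VV F k)⁻¹ ^ r)]
  have h7 : (VV F k)⁻¹ ^ r ≤ ek k ^ (2 * r) := by
    rw [pow_mul]
    exact pow_le_pow_left₀ (by positivity) (VV_inv_le F k hk) r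
  have hq := q_pos F
  have he := ek_pos hk
  calc (VV F k)⁻¹ ^ r * |N - q F ^ n * ∏ P ∈ PP F k, (1 - nu b P / nrm P : ℝ)| ≤
      ek k ^ (2 * r) * (2 * q F ^ n * (ek k ^ (8 * r) / 8 ^ J)) :=
        mul_le_mul h7 h1 (abs_nonneg _) (by positivity)
    _ = 2 * q F ^ n * (ek k ^ (10 * r) / 8 ^ J) := by
      have : 10 * r = 2 * r + 8 * r := by ring
      rw [this, pow_add]
      ring

end tuple

end Pool.Agent.H23.FF
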