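import Pool.Agent.H23.FF.Model

/-!
# The sieve model of the primes: characters and correlations with the primes
-/

set_option autoImplicit false

open Finset Polynomial ComplexConjugate
open Pool.Agent.H341R2.Sharp (Mon mem_Mon)
open Pool.Agent.Q284.PS (Hay PD)

namespace Pool.Agent.H23.FF

variable {F : Type} [Field F] [Fintype F]

omit [Fintype F] in
theorem nu_unit (P : F[X]) : nu (fun _ : Unit => (0 : F[X])) P = 1 := by
  classical
  unfold nu res
  simp

open Classical in
omit [Fintype F] in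
theorem not_coprime_iff {S : Finset F[X]} (hS : ∀ P ∈ S, P.Monic ∧ Irreducible P) (f : F[X]) :
    IsCoprime f (∏ P ∈ S, P) ↔ ∀ P ∈ S, ¬ P ∣ f := by
  constructor
  · intro h P hP hd
    have h1 : P ∣ ∏ R ∈ S, R := dvd_prod_of_mem _ hP
    exact (hS P hP).2.not_isUnit (h.isUnit_of_dvd' hd h1)
  · intro h
    apply IsCoprime.prod_right
    intro P hP
    rw [isCoprime_comm, (hS P hP).2.coprime_iff_not_dvd]
    exact h P hP

open Classical in
theorem model_class {n k J : ℕ} (hk : 1 ≤ k) (S : Finset F[X]) (hS : S ⊆ PP F k)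
    (hn : (∏ P ∈ S, P).natDegree + J * k ≤ n) {c : F[X]} (hc : IsCoprime c (∏ P ∈ S, P)) :
    |∑ f ∈ (Mon F n).filter (fun f => (∏ P ∈ S, P) ∣ f + (-c)), lam k f -
      q F ^ n / phi (∏ P ∈ S, P)| ≤
      2 * (q F ^ n / nrm (∏ P ∈ S, P)) * (ek k ^ 10 / 8 ^ J) := by
  have hS2 : ∀ P ∈ S, P.Monic ∧ Irreducible P := fun P hP =>
    ⟨(mem_PP.1 (hS hP)).1, (mem_PP.1 (hS hP)).2.1⟩
  set g : F[X] := ∏ P ∈ S, P with hg
  have hgm : g.Monic := monic_prod_id fun P hP => (hS2 P hP).1
  have hgS : ∀ P ∈ PP F k \ S, ¬ P ∣ g := by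
    intro P hP
    rw [mem_sdiff] at hP
    exact not_dvd_prod hS2 ⟨(mem_PP.1 hP.1).1, (mem_PP.1 hP.1).2.1⟩ hP.2
  have h1 := sieve_count hk (fun _ : Unit => (0 : F[X])) hgm (-c) (PP F k \ S) sdiff_subset hgS hn
  set N : ℝ := (((Mon F n).filter (fun f => g ∣ f + (-c) ∧
    ∀ P ∈ PP F k \ S, ¬ ∃ i : Unit, P ∣ f + (fun _ : Unit => (0 : F[X])) i)).card : ℝ) with hN
  have hV := VV_pos F k
  have h2 : ∑ f ∈ (Mon F n).filter (fun f => g ∣ f + (-c)), lam k f = (VV F k)⁻¹ * N := by
    rw [hN, card_eq_sum_ones, Nat.cast_sum, mul_sum, ← filter_filter, sum_filter]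
    rw [sum_filter, sum_filter]
    apply sum_congr rfl
    intro f _
    by_cases hf : g ∣ f + (-c)
    · rw [if_pos hf, if_pos hf]
      have h3 : ∀ P ∈ S, ¬ P ∣ f := by
        rw [← not_coprime_iff hS2]
        obtain ⟨y, hy⟩ := hf
        have h4 : f = c + g * y := by rw [← hy]; ring
        rw [h4]
        exact IsCoprime.add_mul_left_left hc y
      by_cases h4 : ∀ P ∈ PP F k \ S, ¬ ∃ i : Unit, P ∣ f + (fun _ : Unit => (0 : F[X])) i
      · rw [if_pos h4]
        unfold lam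
        rw [if_pos]
        · simp
        · intro P hP hd
          by_cases hPS : P ∈ S
          · exact h3 P hPS hd
          · exact h4 P (mem_sdiff.2 ⟨hP, hPS⟩) ⟨(), by rw [add_zero]; exact hd⟩
      · rw [if_neg h4]
        unfold lam
        rw [if_neg]
        intro h5
        apply h4
        rintro P hP ⟨_, hd⟩
        rw [add_zero] at hd
        exact h5 P (mem_sdiff.1 hP).1 hd
    · rw [if_neg hf, if_neg hf]
  have h3 : q F ^ n / phi g = (VV F k)⁻¹ * (q F ^ n / nrm g *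
      ∏ P ∈ PP F k \ S, (1 - nu (fun _ : Unit => (0 : F[X])) P / nrm P : ℝ)) := by
    have h4 : VV F k = (∏ P ∈ PP F k \ S, (1 - 1 / nrm P)) * ∏ P ∈ S, (1 - 1 / nrm P) := by
      unfold VV
      rw [prod_sdiff hS]
    have h5 : ∏ P ∈ PP F k \ S, (1 - nu (fun _ : Unit => (0 : F[X])) P / nrm P : ℝ) =
        ∏ P ∈ PP F k \ S, (1 - 1 / nrm P) := by
      apply prod_congr rfl
      intro P _
      rw [nu_unit]
      norm_num
    have h6 : (phi g : ℝ) = nrm g * ∏ P ∈ S, (1 - 1 / nrm P) := by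
      rw [hg, phi_prod S hS2, nrm_prod S fun P hP => (hS2 P hP).1, ← prod_mul_distrib]
      apply prod_congr rfl
      intro P _
      have := nrm_pos P
      field_simp
    have h7 : 0 < ∏ P ∈ PP F k \ S, (1 - 1 / nrm P) := by
      apply prod_pos
      intro P hP
      exact fac_pos (mem_PP.1 (mem_sdiff.1 hP).1).2.1
    have h8 : 0 < ∏ P ∈ S, (1 - 1 / nrm P) := by
      apply prod_pos
      intro P hP
      exact fac_pos (hS2 P hP).2
    have h9 := nrm_pos g
    rw [h6, h5, h4]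
    field_simp
  rw [h2, h3, ← mul_sub, abs_mul, abs_of_pos (inv_pos.2 hV)]
  have h7 := VV_inv_le F k hk
  have hq := q_pos F
  have he := ek_pos hk
  have h9 := nrm_pos g
  calc (VV F k)⁻¹ * |N - q F ^ n / nrm g *
      ∏ P ∈ PP F k \ S, (1 - nu (fun _ : Unit => (0 : F[X])) P / nrm P : ℝ)| ≤
      ek k ^ 2 * (2 * (q F ^ n / nrm g) * (ek k ^ (8 * Fintype.card Unit) / 8 ^ J)) :=
        mul_le_mul h7 h1 (abs_nonneg _) (by positivity)
    _ = _ := by
      rw [Fintype.card_unit]
      ring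

/-- the model and the characters of small modulus -/
theorem model_char {n k J : ℕ} (hk : 1 ≤ k) (S : Finset F[X]) (hS : S ⊆ PP F k)
    (hn : (∏ P ∈ S, P).natDegree + J * k ≤ n) (ζ : AddChar F[X] ℂ) (hζ : Per (∏ P ∈ S, P) ζ) :
    ‖∑ f ∈ Mon F n, (lam k f : ℂ) * ζ f - (q F : ℂ) ^ n / phi (∏ P ∈ S, P) * cE ζ (∏ P ∈ S, P)‖ ≤
      2 * q F ^ n * (ek k ^ 10 / 8 ^ J) := by
  classical
  have hS2 : ∀ P ∈ S, P.Monic ∧ Irreducible P := fun P hP =>
    ⟨(mem_PP.1 (hS hP)).1, (mem_PP.1 (hS hP)).2.1⟩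
  have hmc := fun (c : F[X]) (hc : IsCoprime c (∏ P ∈ S, P)) => model_class (J := J) hk S hS hn hc
  have hci := fun f : F[X] => not_coprime_iff hS2 f
  set g : F[X] := ∏ P ∈ S, P with hg
  have hgm : g.Monic := monic_prod_id fun P hP => (hS2 P hP).1
  set L : F[X] → ℝ := fun c => ∑ f ∈ (Mon F n).filter (fun f => g ∣ f + (-c)), lam k f with hL
  -- the partition into classes
  have h1 : ∑ f ∈ Mon F n, (lam k f : ℂ) * ζ f = ∑ c ∈ Lo F g.natDegree, ζ c * (L c : ℂ) := by
    rw [← sum_fiberwise_of_maps_to (g := fun f => f %ₘ g) (t := Lo F g.natDegree)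
      (fun f _ => mod_mem_Lo hgm rfl f)]
    apply sum_congr rfl
    intro c hc
    rw [hL]
    push_cast
    rw [mul_sum]
    apply sum_congr
    · apply filter_congr
      intro f _
      have hcg : c %ₘ g = c := by
        rw [modByMonic_eq_self_iff hgm]
        rw [mem_Lo] at hc
        rwa [degree_eq_natDegree hgm.ne_zero]
      constructor
      · intro h
        rw [← sub_eq_add_neg, ← modByMonic_eq_zero_iff_dvd hgm, sub_modByMonic, h, hcg, sub_self]
      · intro h
        rw [← sub_eq_add_neg, ← modByMonic_eq_zero_iff_dvd hgm, sub_modByMonic, hcg, sub_eq_zero] at h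
        exact h
    · intro f hf
      rw [mem_filter] at hf
      rw [hζ.congr (f := f) (f' := c) (by rw [sub_eq_add_neg]; exact hf.2), mul_comm]
  have h2 : ∑ c ∈ Lo F g.natDegree, ζ c * (L c : ℂ) =
      ∑ c ∈ (Lo F g.natDegree).filter (fun b => IsCoprime b g), ζ c * (L c : ℂ) := by
    rw [sum_filter]
    apply sum_congr rfl
    intro c _
    by_cases hc : IsCoprime c g
    · rw [if_pos hc]
    · rw [if_neg hc]
      have h3 : L c = 0 := by
        rw [hL]
        apply sum_eq_zero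
        intro f hf
        rw [mem_filter] at hf
        have h4 : ¬ IsCoprime f g := by
          intro h
          apply hc
          obtain ⟨y, hy⟩ := hf.2
          have h5 : c = f + g * (-y) := by rw [mul_neg, ← hy]; ring
          rw [h5]
          exact IsCoprime.add_mul_left_left h _
        rw [hci] at h4
        push Not at h4
        obtain ⟨P, hP, hd⟩ := h4
        unfold lam
        rw [if_neg]
        intro h
        exact h P (hS hP) hd
      rw [h3]
      simp
  have h3 : (q F : ℂ) ^ n / phi g * cE ζ g =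
      ∑ c ∈ (Lo F g.natDegree).filter (fun b => IsCoprime b g), ζ c * ((q F ^ n / phi g : ℝ) : ℂ) := by
    unfold cE
    rw [mul_sum]
    apply sum_congr rfl
    intro c _
    push_cast
    ring
  rw [h1, h2, h3, ← sum_sub_distrib]
  refine (norm_sum_le _ _).trans ?_
  have hq := q_pos F
  have he := ek_pos hk
  have hng := nrm_pos g
  have h4 : ∀ c ∈ (Lo F g.natDegree).filter (fun b => IsCoprime b g),
      ‖ζ c * (L c : ℂ) - ζ c * ((q F ^ n / phi g : ℝ) : ℂ)‖ ≤
        2 * (q F ^ n / nrm g) * (ek k ^ 10 / 8 ^ J) := by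
    intro c hc
    rw [mem_filter] at hc
    rw [← mul_sub, norm_mul, norm_char, one_mul, ← Complex.ofReal_sub, Complex.norm_real,
      Real.norm_eq_abs]
    exact hmc c hc.2
  refine (sum_le_sum h4).trans ?_
  rw [sum_const, nsmul_eq_mul]
  have h5 : ((((Lo F g.natDegree).filter (fun b => IsCoprime b g)).card : ℕ) : ℝ) ≤ nrm g := by
    have := card_filter_le (Lo F g.natDegree) (fun b => IsCoprime b g)
    rw [card_Lo] at this
    unfold nrm q
    exact_mod_cast this
  calc ((((Lo F g.natDegree).filter (fun b => IsCoprime b g)).card : ℕ) : ℝ) *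
      (2 * (q F ^ n / nrm g) * (ek k ^ 10 / 8 ^ J)) ≤
      nrm g * (2 * (q F ^ n / nrm g) * (ek k ^ 10 / 8 ^ J)) := by gcongr
    _ = 2 * q F ^ n * (ek k ^ 10 / 8 ^ J) := by
      field_simp

/-! ### The correlations of the primes with the model -/

open Classical in
/-- the local densities -/
noncomputable def om (a P : F[X]) : ℝ := if P ∣ a then 0 else 1 / (nrm P - 1)

theorem om_bd (a : F[X]) {P : F[X]} (hP : Irreducible P) :
    0 ≤ om a P ∧ om a P ≤ 1 ∧ om a P ≤ (2 : ℕ) / nrm P := by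
  have h1 := two_le_nrm hP
  unfold om
  split_ifs
  · refine ⟨le_rfl, zero_le_one, by positivity⟩
  · refine ⟨by apply div_nonneg <;> linarith, ?_, ?_⟩
    · rw [div_le_one (by linarith)]
      linarith
    · rw [div_le_div_iff₀ (by linarith) (by linarith)]
      push_cast
      linarith

open Classical in
/-- the primes with prescribed bad primes -/
theorem th_bad {n k J : ℕ} (a : F[X]) (T : Finset F[X]) (hT : T ⊆ PP F k) (hTJ : T.card ≤ J)
    (hn : J * k < n) :
    |∑ f ∈ Mon F n with ∀ P ∈ T, P ∣ f + a, th n f - q F ^ n * ∏ P ∈ T, om a P| ≤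
      (n + 2 : ℝ) * (√(q F)) ^ n := by
  have hT2 : ∀ P ∈ T, P.Monic ∧ Irreducible P := fun P hP =>
    ⟨(mem_PP.1 (hT hP)).1, (mem_PP.1 (hT hP)).2.1⟩
  have hq := q_pos F
  have hdeg : (∏ P ∈ T, P).natDegree ≤ J * k := by
    rw [natDegree_prod_of_monic _ _ fun P hP => (hT2 P hP).1]
    calc ∑ P ∈ T, P.natDegree ≤ ∑ P ∈ T, k := by
          apply sum_le_sum
          intro P hP
          exact (mem_PP.1 (hT hP)).2.2
      _ = T.card * k := by rw [sum_const, smul_eq_mul]
      _ ≤ J * k := Nat.mul_le_mul_right _ hTJ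
  by_cases hc : IsCoprime a (∏ P ∈ T, P)
  · have h1 := th_class (n := n) (monic_prod_id fun P hP => (hT2 P hP).1) (by omega) hc
    have h2 : (Mon F n).filter (fun f => ∀ P ∈ T, P ∣ f + a) =
        (Mon F n).filter (fun f => (∏ P ∈ T, P) ∣ f + a) := by
      apply filter_congr
      intro f _
      constructor
      · intro h
        apply Finset.prod_dvd_of_coprime _ h
        intro P hP R hR hne
        rw [Function.onFun, (hT2 P hP).2.coprime_iff_not_dvd]
        intro hd
        apply hne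
        exact eq_of_monic_of_associated (hT2 P hP).1 (hT2 R hR).1
          ((hT2 P hP).2.associated_of_dvd (hT2 R hR).2 hd)
      · intro h P hP
        exact (dvd_prod_of_mem _ hP).trans h
    have h3 : q F ^ n * ∏ P ∈ T, om a P = q F ^ n / phi (∏ P ∈ T, P) := by
      rw [phi_prod T hT2, div_eq_mul_inv, ← prod_inv_distrib]
      congr 1
      apply prod_congr rfl
      intro P hP
      unfold om
      rw [if_neg ((not_coprime_iff hT2 a).1 hc P hP), one_div]
    rw [h2, h3]
    refine h1.trans ?_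
    apply mul_le_mul_of_nonneg_right _ (by positivity)
    have : ((∏ P ∈ T, P).natDegree : ℝ) ≤ n := by
      exact_mod_cast (by omega : (∏ P ∈ T, P).natDegree ≤ n)
    linarith
  · rw [not_coprime_iff hT2] at hc
    push Not at hc
    obtain ⟨P, hP, hd⟩ := hc
    have h1 : ∏ P ∈ T, om a P = 0 := by
      apply prod_eq_zero hP
      unfold om
      rw [if_pos hd]
    have h2 : ∑ f ∈ Mon F n with ∀ P ∈ T, P ∣ f + a, th n f = 0 := by
      apply sum_eq_zero
      intro f hf
      rw [mem_filter] at hf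
      unfold th
      rw [if_neg]
      intro hirr
      have h3 : P ∣ f := by
        have : f = (f + a) - a := by ring
        rw [this]
        exact dvd_sub (hf.2 P hP) hd
      have h4 : P.natDegree < n := by
        have h5 : P.natDegree ≤ (∏ P ∈ T, P).natDegree := by
          rw [natDegree_prod_of_monic _ _ fun P hP => (hT2 P hP).1]
          exact single_le_sum (f := fun P : F[X] => P.natDegree) (fun _ _ => Nat.zero_le _) hP
        omega
      have h5 := coprime_of_irr (hT2 P hP).1 h4 (mem_Mon.1 hf.1) hirr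
      exact (hT2 P hP).2.not_isUnit (h5.isUnit_of_dvd' h3 dvd_rfl)
    rw [h1, h2, mul_zero, sub_zero, abs_zero]
    positivity

/-- the correlation of the primes and the model -/
theorem corr_thW {n k J : ℕ} (hk : 1 ≤ k) (a : F[X]) (hn : J * k < n) :
    |∑ f ∈ Mon F n, th n f * lam k (f + a) -
      q F ^ n * ((VV F k)⁻¹ * ∏ P ∈ PP F k, (1 - om a P))| ≤
      ek k ^ 2 * (2 * q F ^ n * (ek k ^ 16 / 8 ^ J) +
        (n + 2 : ℝ) * (√(q F)) ^ n * (q F ^ (k + 1)) ^ J) := by
  classical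
  have hq := q_pos F
  have h1 := brun (Mon F n) (th n) (fun f _ => th_nonneg n f) (PP F k) (fun P f => P ∣ f + a)
    (om a) (fun P hP => ⟨(om_bd a (mem_PP.1 hP).2.1).1, (om_bd a (mem_PP.1 hP).2.1).2.1⟩)
    (q F ^ n) ((n + 2 : ℝ) * (√(q F)) ^ n) (by positivity) J
    (fun T hT hTJ => by
      have := th_bad a T hT hTJ hn
      convert this)
  have h2 : ∑ f ∈ Mon F n, th n f * lam k (f + a) =
      (VV F k)⁻¹ * ∑ f ∈ Mon F n with ∀ P ∈ PP F k, ¬ P ∣ f + a, th n f := by
    rw [sum_filter, mul_sum]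
    apply sum_congr rfl
    intro f _
    unfold lam
    split_ifs
    · ring
    · ring
  have h3 : q F ^ n * ((VV F k)⁻¹ * ∏ P ∈ PP F k, (1 - om a P)) =
      (VV F k)⁻¹ * (q F ^ n * ∏ P ∈ PP F k, (1 - om a P)) := by ring
  have hV := VV_pos F k
  have he := ek_pos hk
  rw [h2, h3, ← mul_sub, abs_mul, abs_of_pos (inv_pos.2 hV)]
  apply mul_le_mul (VV_inv_le F k hk) _ (abs_nonneg _) (by positivity)
  have h4 : es (om a) (PP F k) J ≤ ek k ^ 16 / 8 ^ J :=
    es_PP k hk 2 J (om a) (PP F k) (Subset.refl _)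
      (fun P hP => ⟨(om_bd a (mem_PP.1 hP).2.1).1, (om_bd a (mem_PP.1 hP).2.1).2.2⟩)
  have h5 : (((PP F k).card + 1 : ℕ) : ℝ) ^ J ≤ (q F ^ (k + 1)) ^ J := by
    apply pow_le_pow_left₀ (Nat.cast_nonneg _)
    have := card_PP F k
    unfold q
    exact_mod_cast this
  refine le_trans (le_trans (le_of_eq ?_) h1) ?_
  · congr!
  · gcongr

/-- the correlation of the model with itself -/
theorem corr_WW {n k J : ℕ} (hk : 1 ≤ k) (a : F[X]) (hn : J * k ≤ n) :
    |∑ f ∈ Mon F n, lam k f * lam k (f + a) -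
      q F ^ n * ((VV F k)⁻¹ * ∏ P ∈ PP F k, (1 - om a P))| ≤
      2 * q F ^ n * (ek k ^ 20 / 8 ^ J) := by
  classical
  have h1 := model_tuple hk (![0, a] : Fin 2 → F[X]) hn
  have h2 : ∀ f : F[X], ∏ i, lam k (f + (![0, a] : Fin 2 → F[X]) i) = lam k f * lam k (f + a) := by
    intro f
    rw [Fin.prod_univ_two]
    simp
  rw [sum_congr rfl fun f _ => h2 f, Fintype.card_fin] at h1
  have h3 : SW k (![0, a] : Fin 2 → F[X]) = (VV F k)⁻¹ * ∏ P ∈ PP F k, (1 - om a P) := by
    unfold SW VV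
    rw [← prod_inv_distrib, ← prod_mul_distrib]
    apply prod_congr rfl
    intro P hP
    have hPm := (mem_PP.1 hP).1
    have hPi := (mem_PP.1 hP).2.1
    have h4 := one_lt_nrm hPi
    have h5 := fac_pos hPi
    rw [Fintype.card_fin]
    have hres : res (![0, a] : Fin 2 → F[X]) P = {0, a %ₘ P} := by
      unfold res
      ext x
      simp only [mem_image, mem_univ, true_and, Fin.exists_fin_two, mem_insert, mem_singleton]
      simp [eq_comm]
    by_cases hd : P ∣ a
    · have h6 : nu (![0, a] : Fin 2 → F[X]) P = 1 := by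
        unfold nu
        rw [hres, (modByMonic_eq_zero_iff_dvd hPm).2 hd]
        simp
      unfold om
      rw [h6, if_pos hd, sub_zero, mul_one]
      push_cast
      field_simp
    · have h6 : nu (![0, a] : Fin 2 → F[X]) P = 2 := by
        unfold nu
        rw [hres, card_pair]
        intro h
        exact hd ((modByMonic_eq_zero_iff_dvd hPm).1 h.symm)
      unfold om
      rw [h6, if_neg hd]
      have h7 : nrm P - 1 ≠ 0 := by linarith
      have h8 : nrm P ≠ 0 := by linarith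
      push_cast
      field_simp
      ring
  rw [h3] at h1
  exact h1

/-- the relative error -/
noncomputable def tau (n k J : ℕ) : ℝ := ek k ^ 20 * (n + 6) / 4 ^ J

/-- the correlations of the primes with the model agree with those of the model -/
theorem corr_cmp {n k J : ℕ} (hk : 1 ≤ k) (a : F[X]) (hn : 4 * ((k + 1) * J) ≤ n) (hn1 : 1 ≤ n) :
    |∑ f ∈ Mon F n, th n f * lam k (f + a) - ∑ f ∈ Mon F n, lam k f * lam k (f + a)| ≤
      q F ^ n * tau n k J := by
  have hq := q_pos F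
  have hq2 := two_le_q F
  have he := ek_pos hk
  have he1 := one_le_ek hk
  have hJk : J * k < n := by
    rcases Nat.eq_zero_or_pos J with h | h
    · subst h
      omega
    · nlinarith
  have h1 := corr_thW (J := J) hk a hJk
  have h2 := corr_WW (J := J) hk a hJk.le
  set M := q F ^ n * ((VV F k)⁻¹ * ∏ P ∈ PP F k, (1 - om a P)) with hM
  have h3 := abs_sub_le (∑ f ∈ Mon F n, th n f * lam k (f + a)) M
    (∑ f ∈ Mon F n, lam k f * lam k (f + a))
  rw [abs_sub_comm M] at h3
  have h4 : (√(q F)) ^ n * (q F ^ (k + 1)) ^ J ≤ q F ^ n / 4 ^ J := by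
    rw [le_div_iff₀ (by positivity)]
    have h5 : q F ^ n = (√(q F)) ^ n * (√(q F)) ^ n := by
      rw [← mul_pow, Real.mul_self_sqrt hq.le]
    have h6 : (4 : ℝ) ^ J ≤ (q F ^ (k + 1)) ^ J := by
      apply pow_le_pow_left₀ (by norm_num)
      calc (4 : ℝ) = 2 ^ 2 := by norm_num
        _ ≤ q F ^ 2 := pow_le_pow_left₀ (by norm_num) hq2 2
        _ ≤ q F ^ (k + 1) := pow_le_pow_right₀ (by linarith) (by omega)
    have h7 : (q F ^ (k + 1)) ^ J * (q F ^ (k + 1)) ^ J ≤ (√(q F)) ^ n := by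
      have h8 : (1 : ℝ) ≤ √(q F) := by
        rw [Real.one_le_sqrt]
        linarith
      calc (q F ^ (k + 1)) ^ J * (q F ^ (k + 1)) ^ J = (√(q F)) ^ (4 * ((k + 1) * J)) := by
            have h9 : q F = √(q F) ^ 2 := (Real.sq_sqrt hq.le).symm
            nth_rewrite 1 [h9]
            nth_rewrite 2 [h9]
            rw [← pow_mul, ← pow_mul, ← pow_add]
            congr 1
            ring
        _ ≤ (√(q F)) ^ n := pow_le_pow_right₀ h8 hn
    rw [h5, mul_assoc]
    apply mul_le_mul_of_nonneg_left _ (by positivity)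
    exact (mul_le_mul_of_nonneg_left h6 (by positivity)).trans h7
  have h5 : (8 : ℝ)⁻¹ ^ J ≤ 4⁻¹ ^ J := pow_le_pow_left₀ (by norm_num) (by norm_num) J
  have h6 : ek k ^ 16 / 8 ^ J ≤ ek k ^ 16 / 4 ^ J := by
    rw [div_eq_mul_inv, div_eq_mul_inv, ← inv_pow, ← inv_pow]
    gcongr
  have h7 : ek k ^ 20 / 8 ^ J ≤ ek k ^ 20 / 4 ^ J := by
    rw [div_eq_mul_inv, div_eq_mul_inv, ← inv_pow, ← inv_pow]
    gcongr
  have h8 : ek k ^ 2 * (2 * q F ^ n * (ek k ^ 16 / 8 ^ J) +
        (n + 2 : ℝ) * (√(q F)) ^ n * (q F ^ (k + 1)) ^ J) ≤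
      ek k ^ 2 * (2 * q F ^ n * (ek k ^ 16 / 4 ^ J) + (n + 2 : ℝ) * (q F ^ n / 4 ^ J)) := by
    apply mul_le_mul_of_nonneg_left _ (by positivity)
    apply add_le_add
    · gcongr
    · rw [mul_assoc]
      gcongr
  have h9 : 2 * q F ^ n * (ek k ^ 20 / 8 ^ J) ≤ 2 * q F ^ n * (ek k ^ 20 / 4 ^ J) := by gcongr
  have h10 : ek k ^ 18 ≤ ek k ^ 20 := pow_le_pow_right₀ he1 (by norm_num)
  have h11 : ek k ^ 2 ≤ ek k ^ 20 := pow_le_pow_right₀ he1 (by norm_num)
  have h12 : ek k ^ 2 * (2 * q F ^ n * (ek k ^ 16 / 4 ^ J) + (n + 2 : ℝ) * (q F ^ n / 4 ^ J)) ≤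
      2 * q F ^ n * (ek k ^ 20 / 4 ^ J) + (n + 2 : ℝ) * (q F ^ n * (ek k ^ 20 / 4 ^ J)) := by
    have h13 : ek k ^ 2 * (2 * q F ^ n * (ek k ^ 16 / 4 ^ J) + (n + 2 : ℝ) * (q F ^ n / 4 ^ J)) =
        2 * q F ^ n * (ek k ^ 18 / 4 ^ J) + (n + 2 : ℝ) * (q F ^ n * (ek k ^ 2 / 4 ^ J)) := by ring
    rw [h13]
    gcongr
  have h13 : q F ^ n * tau n k J = 4 * q F ^ n * (ek k ^ 20 / 4 ^ J) +
      (n + 2 : ℝ) * (q F ^ n * (ek k ^ 20 / 4 ^ J)) := by
    unfold tau
    ring
  rw [h13]
  linarith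

end Pool.Agent.H23.FF
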