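import Pool.Agent.H23.FF.Basic

/-!
# Fourier analysis on finite abelian groups
-/

set_option autoImplicit false

open Finset Polynomial ComplexConjugate
open Pool.Agent.H341R2.Sharp (Mon mem_Mon)

namespace Pool.Agent.H23.FF

theorem parseval {G : Type*} [AddCommGroup G] [Fintype G] (W : G → ℂ) :
    ∑ χ : AddChar G ℂ, ((‖∑ ρ, W ρ * χ ρ‖ ^ 2 : ℝ) : ℂ) =
      (Fintype.card G : ℂ) * ∑ ρ, ((‖W ρ‖ ^ 2 : ℝ) : ℂ) := by
  classical
  have h1 : ∀ χ : AddChar G ℂ, ((‖∑ ρ, W ρ * χ ρ‖ ^ 2 : ℝ) : ℂ) =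
      ∑ ρ, ∑ τ, W ρ * conj (W τ) * χ (ρ - τ) := by
    intro χ
    have h2 : ((‖∑ ρ, W ρ * χ ρ‖ ^ 2 : ℝ) : ℂ) =
        (∑ ρ, W ρ * χ ρ) * conj (∑ τ, W τ * χ τ) := by
      rw [Complex.mul_conj']
      push_cast
      rfl
    rw [h2, map_sum, sum_mul_sum]
    apply sum_congr rfl
    intro ρ _
    apply sum_congr rfl
    intro τ _
    rw [map_mul, ← AddChar.map_neg_eq_conj, sub_eq_add_neg, AddChar.map_add_eq_mul]
    ring
  rw [sum_congr rfl fun χ _ => h1 χ, sum_comm]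
  rw [mul_sum]
  apply sum_congr rfl
  intro ρ _
  rw [sum_comm]
  have h3 : ∀ τ : G, ∑ χ : AddChar G ℂ, W ρ * conj (W τ) * χ (ρ - τ) =
      if τ = ρ then (Fintype.card G : ℂ) * ((‖W ρ‖ ^ 2 : ℝ) : ℂ) else 0 := by
    intro τ
    rw [← mul_sum, AddChar.sum_apply_eq_ite]
    by_cases h : τ = ρ
    · subst h
      rw [if_pos (sub_self _), if_pos rfl, Complex.mul_conj']
      push_cast
      ring
    · rw [if_neg h, if_neg, mul_zero]
      intro h4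
      exact h (sub_eq_zero.1 h4).symm
  rw [sum_congr rfl fun τ _ => h3 τ, sum_ite_eq' univ ρ, if_pos (mem_univ _)]

theorem planch {G ι : Type*} [AddCommGroup G] [Fintype G] [DecidableEq G] (S : Finset ι)
    (w : ι → ℂ) (cl : ι → G) (B : ℝ)
    (hB : ∀ χ : AddChar G ℂ, ‖∑ s ∈ S, w s * χ (cl s)‖ ≤ B) :
    ∑ ρ : G, ‖∑ s ∈ S with cl s = ρ, w s‖ ^ 2 ≤ B ^ 2 := by
  set W : G → ℂ := fun ρ => ∑ s ∈ S with cl s = ρ, w s with hW
  have h1 : ∀ χ : AddChar G ℂ, ∑ ρ, W ρ * χ ρ = ∑ s ∈ S, w s * χ (cl s) := by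
    intro χ
    rw [← sum_fiberwise S cl (fun s => w s * χ (cl s))]
    apply sum_congr rfl
    intro ρ _
    rw [hW]
    change (∑ s ∈ S with cl s = ρ, w s) * χ ρ = _
    rw [sum_mul]
    apply sum_congr rfl
    intro s hs
    rw [(mem_filter.1 hs).2]
  have h2 := parseval W
  have h3 : ∑ χ : AddChar G ℂ, ‖∑ ρ, W ρ * χ ρ‖ ^ 2 = (Fintype.card G : ℝ) * ∑ ρ, ‖W ρ‖ ^ 2 := by
    exact_mod_cast h2
  have h4 : ∑ χ : AddChar G ℂ, ‖∑ ρ, W ρ * χ ρ‖ ^ 2 ≤ (Fintype.card G : ℝ) * B ^ 2 := by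
    have h5 : ∀ χ ∈ (univ : Finset (AddChar G ℂ)), ‖∑ ρ, W ρ * χ ρ‖ ^ 2 ≤ B ^ 2 := by
      intro χ _
      rw [h1]
      have := hB χ
      have h0 := norm_nonneg (∑ s ∈ S, w s * χ (cl s))
      exact pow_le_pow_left₀ h0 this 2
    refine (sum_le_card_nsmul _ _ _ h5).trans ?_
    rw [nsmul_eq_mul, card_univ, AddChar.card_eq]
  rw [h3] at h4
  have h5 : (0 : ℝ) < Fintype.card G := by
    have : 0 < Fintype.card G := Fintype.card_pos
    exact_mod_cast this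
  exact le_of_mul_le_mul_left h4 h5

variable {F : Type} [Field F] [Fintype F]

noncomputable instance (h : ℕ) : Fintype (degreeLT F h) :=
  Fintype.ofEquiv _ (degreeLTEquiv F h).toEquiv.symm

theorem sum_Lo_coe {M : Type*} [AddCommMonoid M] (h : ℕ) (G : F[X] → M) :
    ∑ a : degreeLT F h, G a = ∑ a ∈ Lo F h, G a := by
  refine Finset.sum_bij (fun a _ => (a : F[X])) ?_ ?_ ?_ ?_
  · intro a _
    rw [mem_Lo]
    exact mem_degreeLT.1 a.2
  · intro a _ b _ hab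
    exact Subtype.ext hab
  · intro b hb
    rw [mem_Lo] at hb
    exact ⟨⟨b, mem_degreeLT.2 hb⟩, mem_univ _, rfl⟩
  · intro a _
    rfl

theorem card_degreeLT (h : ℕ) : Fintype.card (degreeLT F h) = Fintype.card F ^ h := by
  rw [← card_Lo h, card_eq_sum_ones, ← sum_Lo_coe h (fun _ => 1)]
  simp

/-- reduction modulo `X ^ h` -/
noncomputable def proj (F : Type) [Field F] (h : ℕ) : F[X] →+ degreeLT F h :=
  (LinearMap.codRestrict (degreeLT F h) (modByMonicHom (X ^ h)) (fun f => by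
    rw [mem_degreeLT]
    have h1 := degree_modByMonic_lt f (monic_X_pow h)
    rw [degree_X_pow] at h1
    exact h1)).toAddMonoidHom

omit [Fintype F] in
theorem proj_coe {h : ℕ} (a : degreeLT F h) : proj F h (a : F[X]) = a := by
  apply Subtype.ext
  change (a : F[X]) %ₘ (X ^ h) = a
  rw [modByMonic_eq_self_iff (monic_X_pow h), degree_X_pow]
  exact mem_degreeLT.1 a.2

/-- sums of squares of positive definite functions -/
theorem sum_sq_le (h : ℕ) (C : F[X] → ℝ) (M : ℝ)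
    (hM : ∀ γ : AddChar F[X] ℂ, ∃ c : ℝ, 0 ≤ c ∧ c ≤ M ∧ ∑ a ∈ Lo F h, (C a : ℂ) * γ a = c) :
    ∑ a ∈ Lo F h, C a ^ 2 ≤ M * C 0 := by
  classical
  set W : degreeLT F h → ℂ := fun a => (C (a : F[X]) : ℂ) with hW
  have hex : ∀ χ : AddChar (degreeLT F h) ℂ, ∃ c : ℝ, 0 ≤ c ∧ c ≤ M ∧ ∑ a, W a * χ a = c := by
    intro χ
    obtain ⟨c, h0, h1, h2⟩ := hM (χ.compAddMonoidHom (proj F h))
    refine ⟨c, h0, h1, ?_⟩
    rw [← h2, ← sum_Lo_coe h]
    apply sum_congr rfl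
    intro a _
    rw [AddChar.compAddMonoidHom_apply, proj_coe]
  choose c hc0 hc1 hc2 using hex
  have h1 := parseval W
  have h2 : ∑ χ : AddChar (degreeLT F h) ℂ, c χ ^ 2 =
      (Fintype.card (degreeLT F h) : ℝ) * ∑ a ∈ Lo F h, C a ^ 2 := by
    rw [← sum_Lo_coe h (fun a => C a ^ 2)]
    have h3 : ∀ χ : AddChar (degreeLT F h) ℂ, ((‖∑ ρ, W ρ * χ ρ‖ ^ 2 : ℝ) : ℂ) =
        ((c χ ^ 2 : ℝ) : ℂ) := by
      intro χ
      rw [hc2 χ, Complex.norm_real, Real.norm_eq_abs, sq_abs]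
    have h4 : ∀ ρ : degreeLT F h, ((‖W ρ‖ ^ 2 : ℝ) : ℂ) = ((C (ρ : F[X]) ^ 2 : ℝ) : ℂ) := by
      intro ρ
      rw [hW]
      change ((‖(C (ρ : F[X]) : ℂ)‖ ^ 2 : ℝ) : ℂ) = _
      rw [Complex.norm_real, Real.norm_eq_abs, sq_abs]
    rw [sum_congr rfl fun χ _ => h3 χ, sum_congr rfl fun ρ _ => h4 ρ] at h1
    exact_mod_cast h1
  have h3 : ∑ χ : AddChar (degreeLT F h) ℂ, c χ =
      (Fintype.card (degreeLT F h) : ℝ) * C 0 := by
    have h4 : ∑ χ : AddChar (degreeLT F h) ℂ, ((c χ : ℝ) : ℂ) =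
        ∑ χ : AddChar (degreeLT F h) ℂ, ∑ a, W a * χ a := by
      apply sum_congr rfl
      intro χ _
      rw [hc2]
    rw [sum_comm] at h4
    have h5 : ∀ a : degreeLT F h, ∑ χ : AddChar (degreeLT F h) ℂ, W a * χ a =
        if a = 0 then (Fintype.card (degreeLT F h) : ℂ) * (C 0 : ℂ) else 0 := by
      intro a
      rw [← mul_sum, AddChar.sum_apply_eq_ite]
      by_cases h6 : a = 0
      · rw [if_pos h6, if_pos h6, h6, hW]
        change ((C ((0 : degreeLT F h) : F[X]) : ℝ) : ℂ) * _ = _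
        rw [Submodule.coe_zero]
        ring
      · rw [if_neg h6, if_neg h6, mul_zero]
    rw [sum_congr rfl fun a _ => h5 a, sum_ite_eq' univ, if_pos (mem_univ _)] at h4
    exact_mod_cast h4
  have h6 : ∑ χ : AddChar (degreeLT F h) ℂ, c χ ^ 2 ≤ M * ∑ χ : AddChar (degreeLT F h) ℂ, c χ := by
    rw [mul_sum]
    apply sum_le_sum
    intro χ _
    rw [sq]
    exact mul_le_mul_of_nonneg_right (hc1 χ) (hc0 χ)
  rw [h2, h3] at h6
  have h5 : (0 : ℝ) < Fintype.card (degreeLT F h) := by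
    have : 0 < Fintype.card (degreeLT F h) := Fintype.card_pos
    exact_mod_cast this
  refine le_of_mul_le_mul_left ?_ h5
  linarith

end Pool.Agent.H23.FF
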