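import Pool.Agent.H23.FF.Gram

/-!
# The singular series
-/

set_option autoImplicit false

open Finset Polynomial
open Pool.Agent.H341R2.Sharp (Mon mem_Mon)

namespace Pool.Agent.H23.FF

variable {F : Type} [Field F] [Fintype F]

variable (F) in
/-- the primes -/
abbrev Pr : Type := {P : F[X] // P.Monic ∧ Irreducible P}

/-- the local factors -/
noncomputable def fac {r : ℕ} (b : Fin r → F[X]) (P : F[X]) : ℝ :=
  (1 - nu b P / nrm P) * ((1 - 1 / nrm P)⁻¹) ^ r

/-- the singular series -/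
noncomputable def SS {r : ℕ} (b : Fin r → F[X]) : ℝ := ∏' P : Pr F, fac b (P : F[X])

theorem SW_eq {r : ℕ} (k : ℕ) (b : Fin r → F[X]) : SW k b = ∏ P ∈ PP F k, fac b P := by
  unfold SW fac
  rw [Fintype.card_fin]

/-! ### Elementary inequalities -/

theorem pow_bd (r : ℕ) {x : ℝ} (h0 : 0 ≤ x) (h1 : x ≤ 1) :
    1 - r * x ≤ (1 - x) ^ r ∧ (1 - x) ^ r ≤ 1 - r * x + r ^ 2 * x ^ 2 ∧ (1 - x) ^ r ≤ 1 := by
  refine ⟨?_, ?_, pow_le_one₀ (by linarith) (by linarith)⟩
  · have := one_add_mul_le_pow (a := -x) (by linarith) r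
    have h2 : 1 + -x = 1 - x := by ring
    rw [h2] at this
    linarith
  · induction r with
    | zero => simp
    | succ r ih =>
      rw [pow_succ]
      have h2 : (1 - x) ^ r * (1 - x) ≤ (1 - r * x + r ^ 2 * x ^ 2) * (1 - x) :=
        mul_le_mul_of_nonneg_right ih (by linarith)
      refine h2.trans ?_
      push_cast
      have h3 : (0 : ℝ) ≤ r := Nat.cast_nonneg r
      have h4 : 0 ≤ r ^ 2 * x ^ 3 := by positivity
      have h5 : 0 ≤ r * x ^ 2 := by positivity
      have h6 : 0 ≤ x ^ 2 := by positivity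
      nlinarith

/-- the local factors are close to one -/
theorem fac_bd {r : ℕ} (b : Fin r → F[X]) {P : F[X]} (hP : Irreducible P) :
    |fac b P - 1| ≤ 2 ^ r * r * (1 / nrm P) ∧
    (nu b P = r → |fac b P - 1| ≤ 2 ^ r * r ^ 2 * (1 / nrm P) ^ 2) := by
  have h2 := two_le_nrm hP
  have hx0 : 0 ≤ 1 / nrm P := by positivity
  have hx1 : 1 / nrm P ≤ 1 / 2 := one_div_le_one_div_of_le (by norm_num) h2
  have hν : (nu b P : ℝ) ≤ r := by
    have := nu_le b P
    rw [Fintype.card_fin] at this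
    exact_mod_cast this
  have hν0 : (0 : ℝ) ≤ nu b P := Nat.cast_nonneg _
  set x := 1 / nrm P with hx
  have hfac : fac b P - 1 = ((1 - x)⁻¹) ^ r * ((1 - nu b P * x) - (1 - x) ^ r) := by
    unfold fac
    rw [← hx]
    have h3 : (1 - x) ≠ 0 := by linarith
    have h4 : (nu b P : ℝ) / nrm P = nu b P * x := by rw [hx, mul_one_div]
    have h5 : ((1 - x)⁻¹) ^ r * (1 - x) ^ r = 1 := by
      rw [← mul_pow, inv_mul_cancel₀ h3, one_pow]
    rw [h4, mul_sub, h5]
    ring
  have hinv : ((1 - x)⁻¹) ^ r ≤ 2 ^ r := by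
    apply pow_le_pow_left₀ (inv_nonneg.2 (by linarith))
    rw [inv_le_comm₀ (by linarith) (by norm_num)]
    linarith
  have hinv0 : 0 ≤ ((1 - x)⁻¹) ^ r := pow_nonneg (inv_nonneg.2 (by linarith)) r
  obtain ⟨hb1, hb2, hb3⟩ := pow_bd r hx0 (by linarith : x ≤ 1)
  rw [hfac, abs_mul, abs_of_nonneg hinv0]
  constructor
  · have h3 : |(1 - nu b P * x) - (1 - x) ^ r| ≤ r * x := by
      rw [abs_le]
      have h4 : (nu b P : ℝ) * x ≤ r * x := mul_le_mul_of_nonneg_right hν hx0
      have h5 : 0 ≤ (nu b P : ℝ) * x := by positivity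
      constructor <;> linarith
    calc ((1 - x)⁻¹) ^ r * |(1 - nu b P * x) - (1 - x) ^ r| ≤ 2 ^ r * (r * x) :=
          mul_le_mul hinv h3 (abs_nonneg _) (by positivity)
      _ = 2 ^ r * r * x := by ring
  · intro hνr
    have h3 : |(1 - nu b P * x) - (1 - x) ^ r| ≤ r ^ 2 * x ^ 2 := by
      rw [hνr, abs_le]
      constructor <;> nlinarith [sq_nonneg ((r : ℝ) * x)]
    calc ((1 - x)⁻¹) ^ r * |(1 - nu b P * x) - (1 - x) ^ r| ≤ 2 ^ r * (r ^ 2 * x ^ 2) :=
          mul_le_mul hinv h3 (abs_nonneg _) (by positivity)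
      _ = 2 ^ r * r ^ 2 * x ^ 2 := by ring

/-- the local factors of an admissible tuple are bounded below -/
theorem fac_lower {r : ℕ} (b : Fin r → F[X]) {P : F[X]} (hP : Irreducible P)
    (hadm : (nu b P : ℝ) < nrm P) : Real.exp (-(8 * r ^ 3) * (1 / nrm P) ^ 2) ≤ fac b P := by
  have h2 := two_le_nrm hP
  have hn0 : 0 < nrm P := by linarith
  have hx0 : 0 < 1 / nrm P := by positivity
  have hx1 : 1 / nrm P ≤ 1 / 2 := one_div_le_one_div_of_le (by norm_num) h2
  have hν : (nu b P : ℝ) ≤ r := by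
    have := nu_le b P
    rw [Fintype.card_fin] at this
    exact_mod_cast this
  have hν0 : (0 : ℝ) ≤ nu b P := Nat.cast_nonneg _
  have hr0 : (0 : ℝ) ≤ r := Nat.cast_nonneg r
  set x := 1 / nrm P with hx
  have h4 : (nu b P : ℝ) / nrm P = nu b P * x := by rw [hx, mul_one_div]
  have hxn : nrm P * x = 1 := by rw [hx]; field_simp
  unfold fac
  rw [← hx, h4]
  have hone : 1 + x ≤ (1 - x)⁻¹ := by
    rw [le_inv_comm₀ (by linarith) (by linarith)]
    rw [inv_eq_one_div, le_div_iff₀ (by linarith)]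
    nlinarith [sq_nonneg x]
  have hpow : 1 + r * x ≤ ((1 - x)⁻¹) ^ r := by
    refine le_trans ?_ (pow_le_pow_left₀ (by linarith) hone r)
    exact one_add_mul_le_pow (by linarith) r
  have hνx : 0 < 1 - nu b P * x := by
    have : (nu b P : ℝ) * x < nrm P * x := mul_lt_mul_of_pos_right hadm hx0
    linarith
  have hmul : (1 - nu b P * x) * (1 + r * x) ≤ (1 - nu b P * x) * ((1 - x)⁻¹) ^ r :=
    mul_le_mul_of_nonneg_left hpow hνx.le
  refine le_trans ?_ hmul
  by_cases hcase : 2 * (r : ℝ) * x ≤ 1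
  · -- large primes
    have h5 : (1 - r * x) * (1 + r * x) ≤ (1 - nu b P * x) * (1 + r * x) := by
      apply mul_le_mul_of_nonneg_right _ (by positivity)
      have : (nu b P : ℝ) * x ≤ r * x := mul_le_mul_of_nonneg_right hν hx0.le
      linarith
    refine le_trans ?_ h5
    set y := (r : ℝ) ^ 2 * x ^ 2 with hy
    have hy0 : 0 ≤ y := by positivity
    have hy1 : y ≤ 1 / 4 := by
      have h6 : (r : ℝ) * x ≤ 1 / 2 := by linarith
      have h7 : 0 ≤ (r : ℝ) * x := by positivity
      have h8 : y = (r * x) ^ 2 := by rw [hy]; ring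
      rw [h8]
      nlinarith
    have h6 : (1 - r * x) * (1 + r * x) = 1 - y := by rw [hy]; ring
    rw [h6]
    have h7 : Real.exp (-(2 * y)) ≤ 1 - y := by
      rw [Real.exp_neg, inv_le_comm₀ (Real.exp_pos _) (by linarith)]
      have h8 : (1 - y)⁻¹ ≤ 1 + 2 * y := by
        rw [inv_le_comm₀ (by linarith) (by linarith), inv_eq_one_div, div_le_iff₀ (by linarith)]
        nlinarith
      have h9 := Real.add_one_le_exp (2 * y)
      linarith
    refine le_trans (Real.exp_le_exp.2 ?_) h7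
    have h8 : (r : ℝ) ^ 2 ≤ r ^ 3 := by
      rcases Nat.eq_zero_or_pos r with h | h
      · subst h
        simp
      · exact pow_le_pow_right₀ (by exact_mod_cast h) (by norm_num)
    have h9 : 2 * y ≤ 8 * r ^ 3 * x ^ 2 := by
      rw [hy]
      have : 0 ≤ x ^ 2 := by positivity
      nlinarith [pow_nonneg hr0 3]
    linarith
  · -- small primes
    push Not at hcase
    have hr1 : 1 ≤ r := by
      by_contra h
      have : r = 0 := by omega
      subst this
      simp at hcase
      linarith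
    have hr1' : (1 : ℝ) ≤ r := by exact_mod_cast hr1
    -- `1 - ν x ≥ x`
    have h5 : x ≤ 1 - nu b P * x := by
      have h6 : (nu b P : ℝ) + 1 ≤ nrm P := by
        unfold nrm q at hadm ⊢
        have h7 : nu b P < Fintype.card F ^ P.natDegree := by exact_mod_cast hadm
        exact_mod_cast h7
      have h7 : ((nu b P : ℝ) + 1) * x ≤ nrm P * x := mul_le_mul_of_nonneg_right h6 hx0.le
      rw [hxn] at h7
      linarith
    have h6 : x ≤ (1 - nu b P * x) * (1 + r * x) := by
      have : 0 ≤ (1 - nu b P * x) * (r * x) := mul_nonneg hνx.le (by positivity)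
      nlinarith
    refine le_trans ?_ h6
    -- `x ≥ 1 / (2 r)`
    have h7 : 1 / (2 * (r : ℝ)) ≤ x := by
      rw [div_le_iff₀ (by positivity)]
      linarith
    have h8 : Real.exp (-(2 * r)) ≤ 1 / (2 * (r : ℝ)) := by
      rw [Real.exp_neg, one_div]
      apply inv_anti₀ (by positivity)
      have := Real.add_one_le_exp (2 * (r : ℝ))
      linarith
    refine le_trans (le_trans (Real.exp_le_exp.2 ?_) h8) h7
    have h9 : 1 ≤ 4 * (r : ℝ) ^ 2 * x ^ 2 := by
      have h10 : 1 ≤ (2 * (r : ℝ) * x) ^ 2 := by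
        have : 0 ≤ 2 * (r : ℝ) * x - 1 := by linarith
        nlinarith
      nlinarith
    have h10 : 2 * (r : ℝ) * 1 ≤ 2 * r * (4 * (r : ℝ) ^ 2 * x ^ 2) :=
      mul_le_mul_of_nonneg_left h9 (by positivity)
    nlinarith

/-! ### Sums over primes -/

theorem PP_mono {k K : ℕ} (h : k ≤ K) : PP F k ⊆ PP F K := by
  intro P hP
  rw [mem_PP] at *
  exact ⟨hP.1, hP.2.1, hP.2.2.trans h⟩

open Classical in
variable (F) in
/-- the sum of the inverse squares of the norms of the large primes -/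
theorem sum_sq_tail (k K : ℕ) : ∑ P ∈ PP F K \ PP F k, (1 / nrm P) ^ 2 ≤ 1 / q F ^ k := by
  classical
  have hq := two_le_q F
  have hq0 := q_pos F
  have h1 : PP F K \ PP F k ⊆ (Ioc k K).biUnion (fun j => Mon F j) := by
    intro P hP
    rw [mem_sdiff, mem_PP, mem_PP] at hP
    rw [mem_biUnion]
    refine ⟨P.natDegree, ?_, mem_Mon.2 ⟨hP.1.1, rfl⟩⟩
    rw [mem_Ioc]
    refine ⟨?_, hP.1.2.2⟩
    by_contra h
    exact hP.2 ⟨hP.1.1, hP.1.2.1, by omega⟩
  refine (sum_le_sum_of_subset_of_nonneg h1 fun _ _ _ => by positivity).trans ?_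
  rw [sum_biUnion]
  · have h2 : ∀ j ∈ Ioc k K, ∑ P ∈ Mon F j, (1 / nrm P) ^ 2 = (1 / q F) ^ j := by
      intro j _
      have h3 : ∀ P ∈ Mon F j, (1 / nrm P) ^ 2 = (1 / q F ^ j) ^ 2 := by
        intro P hP
        rw [mem_Mon] at hP
        unfold nrm
        rw [hP.2]
      rw [sum_congr rfl h3, sum_const, card_Mon, nsmul_eq_mul]
      have h4 : ((Fintype.card F ^ j : ℕ) : ℝ) = q F ^ j := by unfold q; push_cast; rfl
      rw [h4]
      have h5 : q F ^ j ≠ 0 := by positivity
      have h6 : (1 / q F) ^ j = (q F ^ j)⁻¹ := by rw [one_div, inv_pow]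
      rw [h6, one_div, pow_two, ← mul_assoc, mul_inv_cancel₀ h5, one_mul]
    rw [sum_congr rfl h2]
    have h3 : ∀ K : ℕ, ∑ j ∈ Ioc k K, (1 / q F) ^ j ≤ 1 / q F ^ k - (if k < K then 1 / q F ^ K else 0) := by
      intro K
      induction K with
      | zero => simp; positivity
      | succ K ih =>
        by_cases hkK : k ≤ K
        · rw [← Finset.insert_Ioc_right_eq_Ioc_add_one hkK, sum_insert (by simp), if_pos (by omega)]
          have h4 : 1 / q F ^ (K + 1) * 2 ≤ 1 / q F ^ K := by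
            rw [pow_succ, div_mul_eq_mul_div, div_le_div_iff₀ (by positivity) (by positivity)]
            nlinarith [pow_pos hq0 K]
          have h5 : (1 / q F) ^ (K + 1) = 1 / q F ^ (K + 1) := by rw [one_div_pow]
          rw [h5]
          by_cases hkK' : k < K
          · rw [if_pos hkK'] at ih
            linarith
          · have : k = K := by omega
            subst this
            rw [if_neg (lt_irrefl _), Ioc_self, sum_empty] at ih
            rw [Ioc_self, sum_empty]
            linarith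
        · rw [Ioc_eq_empty (by omega), sum_empty, if_neg (by omega), sub_zero]
          positivity
    refine (h3 K).trans ?_
    have : (0 : ℝ) ≤ if k < K then 1 / q F ^ K else 0 := by
      split_ifs
      · positivity
      · exact le_rfl
    linarith
  · intro i _ j _ hij
    rw [Function.onFun, disjoint_left]
    intro P hP hP'
    rw [mem_Mon] at hP hP'
    exact hij (hP.2.symm.trans hP'.2)

/-- the discriminant of a tuple -/
noncomputable def disc {r : ℕ} (b : Fin r → F[X]) : F[X] :=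
  ∏ x ∈ (univ : Finset (Fin r × Fin r)).filter (fun x => x.1 ≠ x.2), (b x.1 - b x.2)

omit [Fintype F] in
theorem disc_ne_zero {r : ℕ} {b : Fin r → F[X]} (hb : Function.Injective b) : disc b ≠ 0 := by
  unfold disc
  rw [prod_ne_zero_iff]
  intro x hx
  rw [mem_filter] at hx
  rw [sub_ne_zero]
  exact fun h => hx.2 (hb h)

omit [Fintype F] in
theorem disc_deg {r n : ℕ} {b : Fin r → F[X]} (hb : ∀ i, (b i).natDegree ≤ n) :
    (disc b).natDegree ≤ r ^ 2 * n := by
  unfold disc
  refine (natDegree_prod_le _ _).trans ?_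
  calc ∑ x ∈ (univ : Finset (Fin r × Fin r)).filter (fun x => x.1 ≠ x.2), (b x.1 - b x.2).natDegree ≤
      ∑ x ∈ (univ : Finset (Fin r × Fin r)).filter (fun x => x.1 ≠ x.2), n := by
        apply sum_le_sum
        intro x _
        exact (natDegree_sub_le _ _).trans (max_le (hb _) (hb _))
    _ ≤ r ^ 2 * n := by
      rw [sum_const, smul_eq_mul]
      apply Nat.mul_le_mul_right
      refine (card_filter_le _ _).trans ?_
      rw [card_univ, Fintype.card_prod, Fintype.card_fin, pow_two]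

omit [Fintype F] in
theorem nu_eq {r : ℕ} (b : Fin r → F[X]) {P : F[X]} (hP : P.Monic) (h : ¬ P ∣ disc b) :
    nu b P = r := by
  classical
  unfold nu res
  rw [card_image_of_injective, card_univ, Fintype.card_fin]
  intro i j hij
  by_contra hne
  apply h
  unfold disc
  have h1 : P ∣ b i - b j := by
    have h2 : b i %ₘ P = b j %ₘ P := hij
    rw [← modByMonic_eq_zero_iff_dvd hP, sub_modByMonic, h2, sub_self]
  have h3 : (i, j) ∈ (univ : Finset (Fin r × Fin r)).filter (fun x => x.1 ≠ x.2) := by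
    rw [mem_filter]
    exact ⟨mem_univ _, hne⟩
  have h4 := dvd_prod_of_mem (fun x : Fin r × Fin r => b x.1 - b x.2) h3
  exact h1.trans h4

omit [Fintype F] in
open Classical in
/-- the number of prime divisors -/
theorem card_dvd_le {D : F[X]} (hD : D ≠ 0) (S : Finset F[X]) (hS : ∀ P ∈ S, P.Monic ∧ Irreducible P)
    (hd : ∀ P ∈ S, P ∣ D) : S.card ≤ D.natDegree := by
  have h1 : (∏ P ∈ S, P) ∣ D := by
    apply Finset.prod_dvd_of_coprime _ hd
    intro P hP R hR hne
    rw [Function.onFun, (hS P hP).2.coprime_iff_not_dvd]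
    intro hd
    apply hne
    exact eq_of_monic_of_associated (hS P hP).1 (hS R hR).1
      ((hS P hP).2.associated_of_dvd (hS R hR).2 hd)
  have h2 := natDegree_le_of_dvd h1 hD
  rw [natDegree_prod_of_monic _ _ fun P hP => (hS P hP).1] at h2
  refine le_trans ?_ h2
  rw [card_eq_sum_ones]
  apply sum_le_sum
  intro P hP
  exact (hS P hP).2.natDegree_pos

open Classical in
/-- **The tail of the singular series.** -/
theorem tail {r : ℕ} {b : Fin r → F[X]} (hb : Function.Injective b) (k K : ℕ) :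
    ∑ P ∈ PP F K \ PP F k, |fac b P - 1| ≤
      2 ^ r * r ^ 2 * ((1 + (disc b).natDegree) / q F ^ k) := by
  classical
  have hq0 := q_pos F
  have h1 : ∀ P ∈ PP F K \ PP F k, |fac b P - 1| ≤
      2 ^ r * r ^ 2 * (1 / nrm P) ^ 2 + (if P ∣ disc b then 2 ^ r * r ^ 2 * (1 / q F ^ k) else 0) := by
    intro P hP
    rw [mem_sdiff, mem_PP, mem_PP] at hP
    obtain ⟨h2, h3⟩ := fac_bd b hP.1.2.1
    have h4 := nrm_pos P
    by_cases hd : P ∣ disc b
    · rw [if_pos hd]
      have h5 : 1 / nrm P ≤ 1 / q F ^ k := by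
        apply one_div_le_one_div_of_le (by positivity)
        unfold nrm
        apply pow_le_pow_right₀ (by have := two_le_q F; linarith)
        by_contra h
        exact hP.2 ⟨hP.1.1, hP.1.2.1, by omega⟩
      have h6 : (r : ℝ) ≤ r ^ 2 := by
        rcases Nat.eq_zero_or_pos r with h | h
        · subst h
          simp
        · have : (1 : ℝ) ≤ r := by exact_mod_cast h
          nlinarith
      have h7 : 2 ^ r * r * (1 / nrm P) ≤ 2 ^ r * r ^ 2 * (1 / q F ^ k) := by
        apply mul_le_mul _ h5 (by positivity) (by positivity)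
        exact mul_le_mul_of_nonneg_left h6 (by positivity)
      have h8 : 0 ≤ 2 ^ r * (r : ℝ) ^ 2 * (1 / nrm P) ^ 2 := by positivity
      linarith
    · rw [if_neg hd, add_zero]
      exact h3 (nu_eq b hP.1.1 hd)
  refine (sum_le_sum h1).trans ?_
  rw [sum_add_distrib, ← mul_sum, ← sum_filter, sum_const, nsmul_eq_mul]
  have h2 := sum_sq_tail F k K
  have h3 : ((((PP F K \ PP F k).filter (fun P => P ∣ disc b)).card : ℕ) : ℝ) ≤
      (disc b).natDegree := by
    have := card_dvd_le (disc_ne_zero hb) ((PP F K \ PP F k).filter (fun P => P ∣ disc b))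
      (fun P hP => by
        rw [mem_filter, mem_sdiff, mem_PP] at hP
        exact ⟨hP.1.1.1, hP.1.1.2.1⟩)
      (fun P hP => (mem_filter.1 hP).2)
    exact_mod_cast this
  calc 2 ^ r * r ^ 2 * ∑ P ∈ PP F K \ PP F k, (1 / nrm P) ^ 2 +
      ((((PP F K \ PP F k).filter (fun P => P ∣ disc b)).card : ℕ) : ℝ) *
        (2 ^ r * r ^ 2 * (1 / q F ^ k)) ≤
      2 ^ r * r ^ 2 * (1 / q F ^ k) + (disc b).natDegree * (2 ^ r * r ^ 2 * (1 / q F ^ k)) := by
        gcongr
    _ = _ := by ring

variable (F) in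
theorem PP_zero : PP F 0 = ∅ := by
  rw [eq_empty_iff_forall_notMem]
  intro P hP
  rw [mem_PP] at hP
  have := hP.2.1.natDegree_pos
  omega

open Classical in
/-- the finite sets of primes, as primes -/
noncomputable def PS (F : Type) [Field F] [Fintype F] (k : ℕ) : Finset (Pr F) :=
  (PP F k).subtype (fun P => P.Monic ∧ Irreducible P)

theorem mem_PS {k : ℕ} {P : Pr F} : P ∈ PS F k ↔ (P : F[X]).natDegree ≤ k := by
  classical
  unfold PS
  rw [mem_subtype, mem_PP]
  exact ⟨fun h => h.2.2, fun h => ⟨P.2.1, P.2.2, h⟩⟩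

theorem prod_PS (k : ℕ) (G : F[X] → ℝ) : ∏ P ∈ PS F k, G P = ∏ P ∈ PP F k, G P := by
  classical
  unfold PS
  rw [prod_subtype_of_mem G]
  intro P hP
  exact ⟨(mem_PP.1 hP).1, (mem_PP.1 hP).2.1⟩

theorem sum_PS (k : ℕ) (G : F[X] → ℝ) : ∑ P ∈ PS F k, G P = ∑ P ∈ PP F k, G P := by
  classical
  unfold PS
  rw [sum_subtype_of_mem G]
  intro P hP
  exact ⟨(mem_PP.1 hP).1, (mem_PP.1 hP).2.1⟩

theorem PS_tendsto : Filter.Tendsto (PS F) Filter.atTop Filter.atTop := by
  apply Filter.tendsto_atTop_finset_of_monotone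
  · intro k K hkK P hP
    rw [mem_PS] at *
    exact hP.trans hkK
  · intro P
    exact ⟨(P : F[X]).natDegree, mem_PS.2 le_rfl⟩

/-- the singular series converges -/
theorem mult_fac {r : ℕ} {b : Fin r → F[X]} (hb : Function.Injective b) :
    Multipliable (fun P : Pr F => fac b (P : F[X])) := by
  classical
  have h1 : Summable (fun P : Pr F => ‖fac b (P : F[X]) - 1‖) := by
    apply summable_of_sum_le (c := 2 ^ r * r ^ 2 * ((1 + (disc b).natDegree) / q F ^ 0))
    · intro P
      exact norm_nonneg _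
    · intro u
      obtain ⟨K, hK⟩ : ∃ K, u ⊆ PS F K := by
        refine ⟨u.sup (fun P : Pr F => (P : F[X]).natDegree), ?_⟩
        intro P hP
        rw [mem_PS]
        exact le_sup (f := fun P : Pr F => (P : F[X]).natDegree) hP
      refine (sum_le_sum_of_subset_of_nonneg hK fun _ _ _ => norm_nonneg _).trans ?_
      rw [sum_PS K (fun P => ‖fac b P - 1‖)]
      have h2 := tail hb 0 K
      rw [PP_zero F, sdiff_empty] at h2
      exact h2
  have h2 := multipliable_one_add_of_summable h1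
  refine h2.congr ?_
  intro P
  ring

theorem SW_tendsto {r : ℕ} {b : Fin r → F[X]} (hb : Function.Injective b) :
    Filter.Tendsto (fun K => SW K b) Filter.atTop (nhds (SS b)) := by
  have h1 := (mult_fac hb).hasProd
  have h2 : Filter.Tendsto (fun s : Finset (Pr F) => ∏ P ∈ s, fac b (P : F[X])) Filter.atTop
      (nhds (SS b)) := h1
  have h3 := h2.comp (PS_tendsto (F := F))
  refine h3.congr ?_
  intro K
  rw [SW_eq]
  exact prod_PS K (fun P => fac b P)

theorem SW_nonneg {r : ℕ} (k : ℕ) (b : Fin r → F[X]) : 0 ≤ SW k b := by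
  rw [SW_eq]
  apply prod_nonneg
  intro P hP
  unfold fac
  have h1 := fac_pos (mem_PP.1 hP).2.1
  have h2 := nu_le_nrm b (mem_PP.1 hP).1
  have h3 := nrm_pos P
  apply mul_nonneg
  · rw [sub_nonneg, div_le_one h3]
    exact h2
  · positivity

theorem SW_le {r : ℕ} {k : ℕ} (hk : 1 ≤ k) (b : Fin r → F[X]) : SW k b ≤ ek k ^ (2 * r) := by
  have h1 : SW k b ≤ (VV F k)⁻¹ ^ r := by
    rw [SW_eq]
    unfold VV
    rw [← prod_inv_distrib, ← prod_pow]
    apply prod_le_prod
    · intro P hP
      unfold fac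
      have h1 := fac_pos (mem_PP.1 hP).2.1
      have h2 := nu_le_nrm b (mem_PP.1 hP).1
      have h3 := nrm_pos P
      apply mul_nonneg
      · rw [sub_nonneg, div_le_one h3]
        exact h2
      · positivity
    · intro P hP
      unfold fac
      have h1 := fac_pos (mem_PP.1 hP).2.1
      have h3 := nrm_pos P
      have h4 : 0 ≤ (nu b P : ℝ) / nrm P := by positivity
      have h5 : 0 ≤ ((1 - 1 / nrm P)⁻¹) ^ r := by positivity
      calc (1 - nu b P / nrm P) * ((1 - 1 / nrm P)⁻¹) ^ r ≤ 1 * ((1 - 1 / nrm P)⁻¹) ^ r :=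
            mul_le_mul_of_nonneg_right (by linarith) h5
        _ = _ := one_mul _
  refine h1.trans ?_
  rw [pow_mul]
  exact pow_le_pow_left₀ (inv_nonneg.2 (VV_pos F k).le) (VV_inv_le F k hk) r

/-- **The singular series and its partial products.** -/
theorem SS_SW {r : ℕ} {k : ℕ} (hk : 1 ≤ k) {b : Fin r → F[X]} (hb : Function.Injective b)
    (hη : 2 ^ r * r ^ 2 * ((1 + (disc b).natDegree) / q F ^ k) ≤ 1) :
    |SS b - SW k b| ≤ 2 * ek k ^ (2 * r) * (2 ^ r * r ^ 2 * ((1 + (disc b).natDegree) / q F ^ k)) := by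
  classical
  set η := 2 ^ r * r ^ 2 * ((1 + (disc b).natDegree) / q F ^ k) with hηd
  have hq0 := q_pos F
  have hη0 : 0 ≤ η := by rw [hηd]; positivity
  have h1 : ∀ K, k ≤ K → |SW K b - SW k b| ≤ 2 * ek k ^ (2 * r) * η := by
    intro K hkK
    have h2 : SW K b = SW k b * ∏ P ∈ PP F K \ PP F k, fac b P := by
      rw [SW_eq, SW_eq, ← prod_sdiff (PP_mono hkK), mul_comm]
    have h3 : SW K b - SW k b = SW k b * (∏ P ∈ PP F K \ PP F k, fac b P - 1) := by
      rw [h2]
      ring
    rw [h3, abs_mul, abs_of_nonneg (SW_nonneg k b)]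
    have h4 := norm_prod_one_add_sub_one_le (PP F K \ PP F k) (fun P => fac b P - 1)
    simp only [add_sub_cancel, Real.norm_eq_abs] at h4
    have h5 := tail hb k K
    have h6 : Real.exp (∑ P ∈ PP F K \ PP F k, |fac b P - 1|) - 1 ≤ 2 * η := by
      have h7 : Real.exp (∑ P ∈ PP F K \ PP F k, |fac b P - 1|) ≤ Real.exp η :=
        Real.exp_le_exp.2 h5
      have h8 := Real.abs_exp_sub_one_le (x := η) (by rw [abs_of_nonneg hη0]; exact hη)
      rw [abs_of_nonneg hη0] at h8
      have h9 := le_abs_self (Real.exp η - 1)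
      linarith
    calc SW k b * |∏ P ∈ PP F K \ PP F k, fac b P - 1| ≤ ek k ^ (2 * r) * (2 * η) :=
          mul_le_mul (SW_le hk b) (h4.trans h6) (abs_nonneg _) (by
            have := ek_pos hk
            positivity)
      _ = _ := by ring
  have h2 := ((SW_tendsto hb).sub_const (SW k b)).abs
  exact le_of_tendsto h2 (Filter.eventually_atTop.2 ⟨k, h1⟩)

/-- **The singular series of an admissible tuple is bounded below.** -/
theorem SS_lower {r : ℕ} {b : Fin r → F[X]} (hb : Function.Injective b)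
    (hadm : ∀ P : F[X], P.Monic → Irreducible P → (nu b P : ℝ) < nrm P) :
    Real.exp (-(8 * r ^ 3)) ≤ SS b := by
  classical
  apply ge_of_tendsto (SW_tendsto hb)
  rw [Filter.eventually_atTop]
  refine ⟨0, fun K _ => ?_⟩
  rw [SW_eq]
  have h1 : ∏ P ∈ PP F K, Real.exp (-(8 * r ^ 3) * (1 / nrm P) ^ 2) ≤ ∏ P ∈ PP F K, fac b P := by
    apply prod_le_prod
    · intro P _
      exact (Real.exp_pos _).le
    · intro P hP
      exact fac_lower b (mem_PP.1 hP).2.1
        (hadm P (mem_PP.1 hP).1 (mem_PP.1 hP).2.1)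
  refine le_trans ?_ h1
  rw [← Real.exp_sum, ← mul_sum]
  apply Real.exp_le_exp.2
  have h2 := sum_sq_tail F 0 K
  rw [PP_zero F, sdiff_empty, pow_zero, div_one] at h2
  have h3 : (0 : ℝ) ≤ 8 * (r : ℝ) ^ 3 := by positivity
  nlinarith

end Pool.Agent.H23.FF
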