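import Pool.Agent.H23.FF.Four

/-!
# The error is uniform
-/

set_option autoImplicit false

open Finset Polynomial ComplexConjugate
open Pool.Agent.H341R2.Sharp (Mon mem_Mon)

namespace Pool.Agent.H23.FF

variable {F : Type} [Field F] [Fintype F]

variable (F) in
/-- the error of the circle method -/
noncomputable def eps (n d : ℕ) : ℝ := (n + 2 : ℝ) / (√(q F)) ^ d

variable (F) in
/-- the size of the Ramanujan sums with large modulus -/
noncomputable def kap1 (k : ℕ) : ℝ := 1 / (q F ^ (k + 1) - 1)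

variable (F) in
/-- the uniformity of the error -/
noncomputable def del (n d k J : ℕ) : ℝ :=
  2 * eps F n d + eps F n d ^ 2 + 4 * tau n k J + (kap1 F k + eps F n d) ^ 2

omit [Field F] in
variable (F) in
theorem eps_nonneg (n d : ℕ) : 0 ≤ eps F n d := by
  unfold eps
  positivity

variable (F) in
theorem one_lt_qk (k : ℕ) : 1 < q F ^ (k + 1) := by
  have := two_le_q F
  exact one_lt_pow₀ (by linarith) (by omega)

variable (F) in
theorem kap1_nonneg (k : ℕ) : 0 ≤ kap1 F k := by
  unfold kap1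
  have := one_lt_qk F k
  apply div_nonneg <;> linarith

variable (F) in
theorem del_nonneg (n d k J : ℕ) : 0 ≤ del F n d k J := by
  unfold del
  have := eps_nonneg F n d
  have := tau_nonneg n (k := k) J
  positivity

theorem tau_ge {n k J : ℕ} (hk : 1 ≤ k) : 2 * (ek k ^ 10 / 8 ^ J) ≤ tau n k J := by
  unfold tau
  have he1 := one_le_ek hk
  have he := ek_pos hk
  have h5 : (8 : ℝ)⁻¹ ^ J ≤ 4⁻¹ ^ J := pow_le_pow_left₀ (by norm_num) (by norm_num) J
  have h6 : ek k ^ 10 / 8 ^ J ≤ ek k ^ 10 / 4 ^ J := by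
    rw [div_eq_mul_inv, div_eq_mul_inv, ← inv_pow, ← inv_pow]
    gcongr
  have h7 : ek k ^ 10 ≤ ek k ^ 20 := pow_le_pow_right₀ he1 (by norm_num)
  have h8 : (2 : ℝ) ≤ n + 6 := by
    have : (0 : ℝ) ≤ n := Nat.cast_nonneg n
    linarith
  calc 2 * (ek k ^ 10 / 8 ^ J) ≤ 2 * (ek k ^ 10 / 4 ^ J) := by gcongr
    _ ≤ (n + 6) * (ek k ^ 20 / 4 ^ J) := by gcongr
    _ = _ := by ring

/-- **The error is uniform.** -/
theorem sup_bound {n h d k J : ℕ} (hk : 1 ≤ k) (h2d : 2 * d ≤ h) (hhn : h ≤ n) (hn1 : 1 ≤ n)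
    (hn : 4 * ((k + 1) * J) ≤ n) (γ : AddChar F[X] ℂ) :
    ∑ f ∈ Mon F n, ‖hat (EE n k) h γ f‖ ^ 2 ≤ q F ^ n * (q F ^ h) ^ 2 * del F n d k J := by
  have hq := q_pos F
  obtain ⟨g, hg, hgd, hγ, hmin⟩ := dir γ d
  have h1 := circ h2d hhn hn1 γ hg hgd hγ
  have h2 := four_cmp hk hn hn1 hhn γ (J := J)
  have hε := eps_nonneg F n d
  have hτ := tau_nonneg n (k := k) J
  have hκ0 := kap_nonneg γ g h
  have hκ1 := kap_le_one γ hg h
  have hk1 := kap1_nonneg F k
  set κ := kap γ g h with hκ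
  set A := ∑ f ∈ Mon F n, ‖hat (EE n k) h γ f‖ ^ 2 with hA
  set B := ∑ f ∈ Mon F n, ‖hat (th n) h γ f‖ ^ 2 with hB
  set D := ∑ f ∈ Mon F n, ‖hat (lam k) h γ f‖ ^ 2 with hD
  have hB2 : B ≤ q F ^ n * (q F ^ h) ^ 2 * (κ + eps F n d) ^ 2 := by
    refine h1.trans (le_of_eq ?_)
    unfold eps
    ring
  have hD0 : 0 ≤ D := sum_nonneg fun _ _ => by positivity
  have hX : 0 < q F ^ n * (q F ^ h) ^ 2 := by positivity
  -- a small main term
  have hsmall : κ ≤ kap1 F k → A ≤ q F ^ n * (q F ^ h) ^ 2 * del F n d k J := by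
    intro hκk
    have h3 : (κ + eps F n d) ^ 2 ≤ (kap1 F k + eps F n d) ^ 2 :=
      pow_le_pow_left₀ (by positivity) (by linarith) 2
    have h4 : q F ^ n * (q F ^ h) ^ 2 * (κ + eps F n d) ^ 2 ≤
      q F ^ n * (q F ^ h) ^ 2 * (kap1 F k + eps F n d) ^ 2 := by gcongr
    have h5 : q F ^ n * (q F ^ h) ^ 2 * ((kap1 F k + eps F n d) ^ 2 + 2 * tau n k J) ≤
        q F ^ n * (q F ^ h) ^ 2 * del F n d k J := by
      apply mul_le_mul_of_nonneg_left _ hX.le
      unfold del
      nlinarith [sq_nonneg (eps F n d)]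
    have h6 : q F ^ n * (q F ^ h) ^ 2 * ((kap1 F k + eps F n d) ^ 2 + 2 * tau n k J) =
      q F ^ n * (q F ^ h) ^ 2 * (kap1 F k + eps F n d) ^ 2 +
        q F ^ n * (q F ^ h) ^ 2 * (2 * tau n k J) := by ring
    linarith
  by_cases hc : ∀ v ∈ Lo F h, γ v = eta γ g v
  · have hκe : κ = ‖cE (eta γ g) g‖ / phi g := by
      rw [hκ]
      unfold kap
      rw [if_pos hc]
    have hphi : (0 : ℝ) < phi g := by exact_mod_cast phi_pos hg
    rcases fac_alt k hg with ⟨S, hS, hgS⟩ | ⟨P, g', hP, hirr, hg', hgP, hor⟩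
    · -- the main case
      have hdeg : (∏ P ∈ S, P).natDegree + J * k ≤ n := by
        rw [← hgS]
        nlinarith
      have hper : Per (∏ P ∈ S, P) (eta γ g) := by
        rw [← hgS]
        exact eta_per γ hg
      have h3 := model_char hk S hS hdeg (eta γ g) hper
      rw [← hgS] at h3
      have h4 := four_lower hhn (lam k) γ (eta γ g) hc
      set z := ∑ f ∈ Mon F n, (lam k f : ℂ) * (eta γ g) f with hz
      have h5 : ‖(q F : ℂ) ^ n / phi g * cE (eta γ g) g‖ = q F ^ n * κ := by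
        rw [norm_mul, norm_div, norm_pow, Complex.norm_real, Real.norm_eq_abs, abs_of_pos hq,
          Complex.norm_natCast, hκe]
        ring
      have h6 : q F ^ n * κ - q F ^ n * tau n k J ≤ ‖z‖ := by
        have h7 : ‖(q F : ℂ) ^ n / phi g * cE (eta γ g) g‖ ≤ ‖z‖ +
            ‖z - (q F : ℂ) ^ n / phi g * cE (eta γ g) g‖ := by
          have h8 : (q F : ℂ) ^ n / phi g * cE (eta γ g) g =
              z - (z - (q F : ℂ) ^ n / phi g * cE (eta γ g) g) := by ring
          nth_rewrite 1 [h8]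
          exact norm_sub_le _ _
        have h8 : 2 * q F ^ n * (ek k ^ 10 / 8 ^ J) ≤ q F ^ n * tau n k J := by
          have h9 := tau_ge (n := n) (J := J) hk
          have h10 : 0 < q F ^ n := by positivity
          calc 2 * q F ^ n * (ek k ^ 10 / 8 ^ J) = q F ^ n * (2 * (ek k ^ 10 / 8 ^ J)) := by ring
            _ ≤ _ := mul_le_mul_of_nonneg_left h9 h10.le
        linarith
      have h7 : (q F ^ n) ^ 2 * (κ ^ 2 - 2 * κ * tau n k J) ≤ ‖z‖ ^ 2 := by
        have h10 : 0 < q F ^ n := by positivity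
        by_cases h8 : tau n k J ≤ κ
        · have h9 : 0 ≤ q F ^ n * κ - q F ^ n * tau n k J := by
            rw [← mul_sub]
            exact mul_nonneg h10.le (by linarith)
          have h11 := pow_le_pow_left₀ h9 h6 2
          refine le_trans ?_ h11
          have h12 : (q F ^ n * κ - q F ^ n * tau n k J) ^ 2 =
              (q F ^ n) ^ 2 * (κ ^ 2 - 2 * κ * tau n k J) + (q F ^ n) ^ 2 * tau n k J ^ 2 := by ring
          rw [h12]
          have : 0 ≤ (q F ^ n) ^ 2 * tau n k J ^ 2 := by positivity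
          linarith
        · push Not at h8
          have h9 : κ ^ 2 - 2 * κ * tau n k J ≤ 0 := by nlinarith
          have h11 : (q F ^ n) ^ 2 * (κ ^ 2 - 2 * κ * tau n k J) ≤ 0 :=
            mul_nonpos_of_nonneg_of_nonpos (by positivity) h9
          have := sq_nonneg ‖z‖
          linarith
      have h8 : q F ^ n * (q F ^ h) ^ 2 * (κ ^ 2 - 2 * κ * tau n k J) ≤ D := by
        have h10 : 0 < q F ^ n := by positivity
        have h11 : q F ^ n * (q F ^ n * (q F ^ h) ^ 2 * (κ ^ 2 - 2 * κ * tau n k J)) ≤ q F ^ n * D := by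
          refine le_trans ?_ h4
          calc q F ^ n * (q F ^ n * (q F ^ h) ^ 2 * (κ ^ 2 - 2 * κ * tau n k J)) =
              (q F ^ h) ^ 2 * ((q F ^ n) ^ 2 * (κ ^ 2 - 2 * κ * tau n k J)) := by ring
            _ ≤ _ := mul_le_mul_of_nonneg_left h7 (by positivity)
        exact le_of_mul_le_mul_left h11 h10
      have h9 : A ≤ q F ^ n * (q F ^ h) ^ 2 *
          (2 * κ * eps F n d + eps F n d ^ 2 + 2 * κ * tau n k J + 2 * tau n k J) := by
        have h10 : q F ^ n * (q F ^ h) ^ 2 *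
            (2 * κ * eps F n d + eps F n d ^ 2 + 2 * κ * tau n k J + 2 * tau n k J) =
            q F ^ n * (q F ^ h) ^ 2 * (κ + eps F n d) ^ 2 -
            q F ^ n * (q F ^ h) ^ 2 * (κ ^ 2 - 2 * κ * tau n k J) +
            q F ^ n * (q F ^ h) ^ 2 * (2 * tau n k J) := by ring
        linarith
      refine h9.trans ?_
      apply mul_le_mul_of_nonneg_left _ hX.le
      unfold del
      have h10 : κ * eps F n d ≤ eps F n d := by nlinarith
      have h11 : κ * tau n k J ≤ tau n k J := by nlinarith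
      have h12 : 0 ≤ (kap1 F k + eps F n d) ^ 2 := sq_nonneg _
      linarith
    · apply hsmall
      rw [hκe, hgP]
      rw [hgP] at hphi
      have hlt : g'.natDegree < g.natDegree := by
        rw [hgP, hP.natDegree_mul hg']
        have := hirr.natDegree_pos
        omega
      obtain ⟨v, hv, hne⟩ := hmin g' hg' hlt
      have h3 : g' * v ∈ Lo F (g.natDegree + d) := by
        apply Lo_mono _ (mul_mem_Lo hg' rfl hv)
        omega
      have h4 := eta_eq γ hg rfl hγ h3
      have hper : Per (P * g') (eta γ g) := by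
        rw [← hgP]
        exact eta_per γ hg
      have h5 := cE_small (eta γ g) hP hirr hg' hper ⟨v, by rw [← h4]; exact hne⟩
      rw [hgP] at h5
      by_cases hPg : P ∣ g'
      · rw [h5.1 hPg, norm_zero, zero_div]
        exact hk1
      · obtain ⟨h6, h7⟩ := h5.2 hPg
        have h8 : k < P.natDegree := hor.resolve_left hPg
        have h9 : q F ^ (k + 1) ≤ q F ^ P.natDegree :=
          pow_le_pow_right₀ (by have := two_le_q F; linarith) h8
        have h10 := one_lt_qk F k
        have h11 : (0 : ℝ) < phi g' := by exact_mod_cast phi_pos hg'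
        unfold kap1
        rw [div_le_div_iff₀ hphi (by linarith)]
        calc ‖cE (eta γ (P * g')) (P * g')‖ * (q F ^ (k + 1) - 1) ≤
            phi g' * (q F ^ P.natDegree - 1) := by
              apply mul_le_mul h6 (by linarith) (by linarith) h11.le
          _ ≤ 1 * phi (P * g') := by rw [one_mul]; exact h7
  · apply hsmall
    have : κ = 0 := by
      rw [hκ]
      unfold kap
      rw [if_neg hc]
    rw [this]
    exact hk1

/-- the autocorrelations of the error are small on average -/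
theorem corr_sq {n h d k J : ℕ} (hk : 1 ≤ k) (h2d : 2 * d ≤ h) (hhn : h ≤ n) (hn1 : 1 ≤ n)
    (hn : 4 * ((k + 1) * J) ≤ n) :
    ∑ a ∈ Lo F h, corr n (EE n k) (EE n k) a ^ 2 ≤
      q F ^ n * q F ^ h * del F n d k J * corr n (EE n k) (EE n k) (0 : F[X]) := by
  have hq := q_pos F
  apply sum_sq_le
  intro γ
  have h1 := sup_bound hk h2d hhn hn1 hn γ
  have h2 := four_id hhn (EE n k) γ
  set A := ∑ f ∈ Mon F n, ‖hat (EE n k) h γ f‖ ^ 2 with hA
  have hA0 : 0 ≤ A := sum_nonneg fun _ _ => by positivity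
  have hqh : (0 : ℝ) < q F ^ h := by positivity
  refine ⟨A / q F ^ h, by positivity, ?_, ?_⟩
  · rw [div_le_iff₀ hqh]
    calc A ≤ q F ^ n * (q F ^ h) ^ 2 * del F n d k J := h1
      _ = q F ^ n * q F ^ h * del F n d k J * q F ^ h := by ring
  · push_cast
    rw [h2]
    have h3 : ((q F : ℂ)) ^ h ≠ 0 := by
      apply pow_ne_zero
      exact_mod_cast hq.ne'
    field_simp

end Pool.Agent.H23.FF
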