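import Pool.Agent.H23.FF.Hay

/-!
# The variance of the primes in residue classes and short intervals
-/

set_option autoImplicit false

open Finset Polynomial ComplexConjugate
open Pool.Agent.H341R2.Sharp (Mon mem_Mon)
open Pool.Agent.Q284.PS (Hay PD)
open Pool.Agent.Q284.WE (trc NonPr)

namespace Pool.Agent.H23.FF

variable {F : Type} [Field F] [Fintype F]

/-- Euler's function -/
noncomputable def phi (g : F[X]) : ℕ :=
  open Classical in ((Lo F g.natDegree).filter (fun b => IsCoprime b g)).card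

/-- the primes minus their expectation in the residue classes modulo `g` -/
noncomputable def wt (n : ℕ) (g f : F[X]) : ℝ :=
  open Classical in th n f - if IsCoprime f g then q F ^ g.natDegree / phi g else 0

theorem phi_pos {g : F[X]} (hg : g.Monic) : 0 < phi g := by
  classical
  unfold phi
  rw [card_pos]
  by_cases h : g.natDegree = 0
  · refine ⟨0, ?_⟩
    rw [mem_filter]
    refine ⟨zero_mem_Lo _, ?_⟩
    rw [eq_one_of_monic_natDegree_zero hg h]
    exact isCoprime_one_right
  · refine ⟨1, ?_⟩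
    rw [mem_filter, mem_Lo, degree_one]
    refine ⟨?_, isCoprime_one_left⟩
    exact_mod_cast (by omega : 0 < g.natDegree)

omit [Fintype F] in
theorem coprime_of_irr {n : ℕ} {g f : F[X]} (hg : g.Monic) (hn : g.natDegree < n)
    (hf : f.Monic ∧ f.natDegree = n) (h : Irreducible f) : IsCoprime f g := by
  rw [h.coprime_iff_not_dvd]
  intro h1
  have := natDegree_le_of_dvd h1 hg.ne_zero
  omega

theorem card_coprime {k m : ℕ} {g : F[X]} (hg : g.Monic) (hk : g.natDegree = k) :
    (open Classical in ((Mon F (k + m)).filter (fun f => IsCoprime f g)).card) =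
      Fintype.card F ^ m * phi g := by
  classical
  rw [card_filter, sum_Mon_dec hg hk]
  have h1 : ∀ u ∈ Mon F m, ∑ b ∈ Lo F k, (if IsCoprime (g * u + b) g then 1 else 0) = phi g := by
    intro u _
    unfold phi
    rw [card_filter, hk]
    apply sum_congr rfl
    intro b _
    have h2 : IsCoprime (g * u + b) g ↔ IsCoprime b g := by
      rw [add_comm]
      exact IsCoprime.add_mul_left_left_iff
    by_cases h3 : IsCoprime b g
    · rw [if_pos (h2.2 h3), if_pos h3]
    · rw [if_neg (fun h => h3 (h2.1 h)), if_neg h3]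
  rw [sum_congr rfl h1, sum_const, card_Mon, smul_eq_mul]

/-- the prime number theorem -/
theorem sum_th (n : ℕ) (hn : 1 ≤ n) : |∑ f ∈ Mon F n, th n f - q F ^ n| ≤ 2 * (√(q F)) ^ n := by
  classical
  have h1 : ∑ f ∈ Mon F n, th n f =
      ∑ P ∈ (PD F n).filter (fun P => P.natDegree = n), (P.natDegree : ℝ) := by
    unfold th
    rw [← sum_filter]
    symm
    apply sum_congr
    · ext P
      rw [mem_filter, mem_filter, mem_PD hn, mem_Mon]
      constructor
      · rintro ⟨⟨h1, h2, _⟩, h4⟩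
        exact ⟨⟨h1, h4⟩, h2⟩
      · rintro ⟨⟨h1, h4⟩, h2⟩
        exact ⟨⟨h1, h2, by rw [h4]⟩, h4⟩
    · intro P hP
      rw [mem_filter, mem_Mon] at hP
      rw [hP.1.2]
  have h2 : ∑ P ∈ PD F n, (P.natDegree : ℝ) = q F ^ n := by
    have := Pool.Agent.Q53.PS.t_CPR F n hn
    unfold q
    exact_mod_cast this
  have h3 := sum_filter_add_sum_filter_not (PD F n) (fun P => P.natDegree = n)
    (fun P => (P.natDegree : ℝ))
  have h4 := small_primes (F := F) n hn
  have h5 : 0 ≤ ∑ P ∈ (PD F n).filter (fun P => P.natDegree ≠ n), (P.natDegree : ℝ) :=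
    sum_nonneg fun _ _ => Nat.cast_nonneg _
  rw [h1, abs_le]
  constructor <;> linarith

theorem sum_th_ch {g : F[X]} (hg : g.Monic) (l n : ℕ) (hn : 1 ≤ n) (χ : AddChar (RR g l) ℂ)
    (hχ : NonPr g (ch g l χ)) :
    ‖∑ f ∈ Mon F n, (th n f : ℂ) * ch g l χ f‖ ≤ (g.natDegree + l + 2 : ℝ) * (√(q F)) ^ n := by
  classical
  have hH := hay_ch hg l χ
  have hnorm : ∀ f, ‖ch g l χ f‖ ≤ 1 := by
    intro f
    by_cases h1 : f.Monic
    · by_cases h2 : IsCoprime f g
      · rw [hH.norm f h1 h2]
      · rw [hH.zero f h1 h2, norm_zero]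
        exact zero_le_one
    · rw [hH.off f h1, norm_zero]
      exact zero_le_one
  have h1 : ∑ f ∈ Mon F n, (th n f : ℂ) * ch g l χ f =
      ∑ P ∈ (PD F n).filter (fun P => P.natDegree = n),
        (P.natDegree : ℂ) * ch g l χ P ^ (n / P.natDegree) := by
    unfold th
    have h2 : ∀ f ∈ Mon F n, (((if Irreducible f then (n : ℝ) else 0 : ℝ)) : ℂ) * ch g l χ f =
        if Irreducible f then (n : ℂ) * ch g l χ f else 0 := by
      intro f _
      split_ifs <;> simp
    rw [sum_congr rfl h2, ← sum_filter]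
    symm
    apply sum_congr
    · ext P
      rw [mem_filter, mem_filter, mem_PD hn, mem_Mon]
      constructor
      · rintro ⟨⟨h1, h2, _⟩, h4⟩
        exact ⟨⟨h1, h4⟩, h2⟩
      · rintro ⟨⟨h1, h4⟩, h2⟩
        exact ⟨⟨h1, h2, by rw [h4]⟩, h4⟩
    · intro P hP
      rw [mem_filter, mem_Mon] at hP
      rw [hP.1.2, Nat.div_self (by omega), pow_one]
  have h2 := Pool.Agent.Q284.WE.weil_hayes F g l (ch g l χ) hH hχ n hn
  have h3 := sum_filter_add_sum_filter_not (PD F n) (fun P => P.natDegree = n)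
    (fun P => (P.natDegree : ℂ) * ch g l χ P ^ (n / P.natDegree))
  have h4 := small_primes (F := F) n hn
  have h5 : ‖∑ P ∈ (PD F n).filter (fun P => P.natDegree ≠ n),
      (P.natDegree : ℂ) * ch g l χ P ^ (n / P.natDegree)‖ ≤
      ∑ P ∈ (PD F n).filter (fun P => P.natDegree ≠ n), (P.natDegree : ℝ) := by
    refine (norm_sum_le _ _).trans (sum_le_sum fun P _ => ?_)
    rw [norm_mul, norm_pow, Complex.norm_natCast]
    have := pow_le_one₀ (norm_nonneg (ch g l χ P)) (hnorm P) (n := n / P.natDegree)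
    have h6 : (0 : ℝ) ≤ P.natDegree := Nat.cast_nonneg _
    nlinarith
  have h6 : ∑ f ∈ Mon F n, (th n f : ℂ) * ch g l χ f = trc (ch g l χ) n -
      ∑ P ∈ (PD F n).filter (fun P => P.natDegree ≠ n),
        (P.natDegree : ℂ) * ch g l χ P ^ (n / P.natDegree) := by
    rw [h1]
    unfold trc
    rw [← h3]
    ring
  rw [h6]
  refine (norm_sub_le _ _).trans ?_
  have h7 : ‖trc (ch g l χ) n‖ ≤ (g.natDegree + l : ℝ) * (√(q F)) ^ n := by
    refine h2.trans (le_of_eq ?_)
    unfold q
    push_cast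
    rfl
  have h8 : (g.natDegree + l + 2 : ℝ) * (√(q F)) ^ n =
      (g.natDegree + l : ℝ) * (√(q F)) ^ n + 2 * (√(q F)) ^ n := by ring
  rw [h8]
  linarith

/-- the character sums of the weight -/
theorem sum_wt_ch {k m l : ℕ} {g : F[X]} (hg : g.Monic) (hk : g.natDegree = k)
    (hml : 1 ≤ m + l) (χ : AddChar (RR g l) ℂ) :
    (open Classical in ‖∑ f ∈ (Mon F (k + m + l)).filter (fun f => IsCoprime f g),
      (wt (k + m + l) g f : ℂ) * χ (cl g l f)‖) ≤ (k + l + 2 : ℝ) * (√(q F)) ^ (k + m + l) := by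
  classical
  set n := k + m + l with hn
  have hn1 : 1 ≤ n := by omega
  have hH := hay_ch hg l χ
  have hphi : (phi g : ℝ) ≠ 0 := by
    have := phi_pos hg
    exact_mod_cast this.ne'
  set c : ℝ := q F ^ k / phi g with hc
  have h1 : ∑ f ∈ (Mon F n).filter (fun f => IsCoprime f g), (wt n g f : ℂ) * χ (cl g l f) =
      ∑ f ∈ Mon F n, (th n f : ℂ) * ch g l χ f - (c : ℂ) * ∑ f ∈ Mon F n, ch g l χ f := by
    rw [mul_sum, ← sum_sub_distrib, sum_filter]
    apply sum_congr rfl
    intro f hf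
    rw [mem_Mon] at hf
    unfold wt ch
    by_cases h2 : IsCoprime f g
    · rw [if_pos h2, if_pos h2, if_pos ⟨hf.1, h2⟩, hk, hc]
      push_cast
      ring
    · rw [if_neg h2, if_neg (fun h => h2 h.2)]
      ring
  rw [h1]
  by_cases hχ : NonPr g (ch g l χ)
  · have h2 : ∑ f ∈ Mon F n, ch g l χ f = 0 := by
      have h3 := Pool.Agent.Q166.PS.Van.t_VAN F g l (ch g l χ) hH (by
        obtain ⟨h, hm, hcop, h1⟩ := hχ
        refine ⟨h, hm, ?_, h1⟩
        intro h0
        have := hH.norm h hm hcop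
        rw [h0, norm_zero] at this
        exact zero_ne_one this) 1 n monic_one (by rw [natDegree_one, hk]; omega)
      have h4 : (Mon F n).filter (fun f => (1 : F[X]) ∣ f) = Mon F n := by
        apply filter_true_of_mem
        intro f _
        exact one_dvd f
      rw [← h3]
      apply sum_congr
      · rw [← h4]
        congr
        exact h4.symm
      · intro _ _
        rfl
    rw [h2, mul_zero, sub_zero]
    have := sum_th_ch hg l n hn1 χ hχ
    rwa [hk] at this
  · have h2 : ∀ f ∈ Mon F n, ch g l χ f = if IsCoprime f g then 1 else 0 := by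
      intro f hf
      rw [mem_Mon] at hf
      by_cases h3 : IsCoprime f g
      · rw [if_pos h3]
        by_contra h4
        exact hχ ⟨f, hf.1, h3, h4⟩
      · rw [if_neg h3, hH.zero f hf.1 h3]
    have h3 : ∑ f ∈ Mon F n, (th n f : ℂ) * ch g l χ f = ((∑ f ∈ Mon F n, th n f : ℝ) : ℂ) := by
      push_cast
      apply sum_congr rfl
      intro f hf
      rw [h2 f hf]
      by_cases h4 : IsCoprime f g
      · rw [if_pos h4, mul_one]
      · rw [if_neg h4, mul_zero]
        unfold th
        rw [if_neg]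
        · simp
        · intro h5
          exact h4 (coprime_of_irr hg (by omega) (mem_Mon.1 hf) h5)
    have h4 : (c : ℂ) * ∑ f ∈ Mon F n, ch g l χ f = ((q F ^ n : ℝ) : ℂ) := by
      rw [sum_congr rfl h2, ← sum_filter, sum_const, nsmul_eq_mul, mul_one]
      have h5 := card_coprime (m := m + l) hg hk
      rw [← add_assoc, ← hn] at h5
      rw [h5, hc]
      have h6 : q F ^ n = q F ^ k / phi g * (((Fintype.card F ^ (m + l) * phi g : ℕ)) : ℝ) := by
        push_cast
        rw [hn, add_assoc, pow_add]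
        unfold q
        field_simp
      rw [h6]
      push_cast
      rfl
    rw [h3, h4, ← Complex.ofReal_sub, Complex.norm_real, Real.norm_eq_abs]
    refine (sum_th n hn1).trans ?_
    have h7 : 0 ≤ (√(q F)) ^ n := by positivity
    have h8 : (0 : ℝ) ≤ k := Nat.cast_nonneg _
    have h9 : (0 : ℝ) ≤ l := Nat.cast_nonneg _
    nlinarith [mul_nonneg h8 h7, mul_nonneg h9 h7]

omit [Fintype F] in
theorem rev_iff {n l : ℕ} {f f' : F[X]} (hln : l ≤ n) (hf : f.Monic ∧ f.natDegree = n)
    (hf' : f'.Monic ∧ f'.natDegree = n) :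
    X ^ (l + 1) ∣ f'.reverse - f.reverse ↔ (f' - f).degree < ((n - l : ℕ) : WithBot ℕ) := by
  rw [X_pow_dvd_iff, degree_lt_iff_coeff_zero]
  constructor
  · intro h m hm
    rw [coeff_sub]
    by_cases hmn : m ≤ n
    · have h1 := h (n - m) (by omega)
      rw [coeff_sub, coeff_reverse, coeff_reverse, hf.2, hf'.2, revAt_le (by omega)] at h1
      have : n - (n - m) = m := by omega
      rwa [this] at h1
    · rw [coeff_eq_zero_of_natDegree_lt (by rw [hf'.2]; omega),
        coeff_eq_zero_of_natDegree_lt (by rw [hf.2]; omega), sub_zero]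
  · intro h d hd
    rw [coeff_sub, coeff_reverse, coeff_reverse, hf.2, hf'.2, revAt_le (by omega), ← coeff_sub]
    exact h _ (by omega)

open Classical in
theorem fiber_eq {k m l : ℕ} {g f : F[X]} (hg : g.Monic) (hk : g.natDegree = k)
    (hf : f ∈ Mon F (k + m + l)) (hc : IsCoprime f g) :
    ((Mon F (k + m + l)).filter (fun f => IsCoprime f g)).filter (fun f' => cl g l f' = cl g l f) =
      (Lo F m).image (fun u => f + g * u) := by
  ext f'
  rw [mem_filter, mem_filter, mem_image]
  have hf1 := mem_Mon.1 hf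
  constructor
  · rintro ⟨⟨h1, h2⟩, h3⟩
    have h1' := mem_Mon.1 h1
    rw [cl_eq_iff l h1'.1 hf1.1 h2 hc, rev_iff (by omega) hf1 h1'] at h3
    have e : k + m + l - l = k + m := by omega
    rw [e] at h3
    have h4 : f' - f ∈ Lo F (k + m) := mem_Lo.2 h3.2
    refine ⟨(f' - f) /ₘ g, div_mem_Lo hg hk h4, ?_⟩
    have h5 := (modByMonic_eq_zero_iff_dvd hg).2 h3.1
    have h6 := modByMonic_add_div (f' - f) g
    rw [h5, zero_add] at h6
    rw [h6]
    ring
  · rintro ⟨u, hu, rfl⟩
    have h1 : f + g * u ∈ Mon F (k + m + l) :=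
      add_mem_Mon hf (Lo_mono (by omega) (mul_mem_Lo hg hk hu))
    have h2 : IsCoprime (f + g * u) g := hc.add_mul_left_left _
    refine ⟨⟨h1, h2⟩, ?_⟩
    rw [cl_eq_iff l (mem_Mon.1 h1).1 hf1.1 h2 hc, rev_iff (by omega) hf1 (mem_Mon.1 h1)]
    have e : k + m + l - l = k + m := by omega
    have e2 : f + g * u - f = g * u := by ring
    rw [e, e2]
    exact ⟨dvd_mul_right _ _, mem_Lo.1 (mul_mem_Lo hg hk hu)⟩

omit [Fintype F] in
theorem inj_mul {g f : F[X]} (hg : g.Monic) : Function.Injective (fun u : F[X] => f + g * u) := by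
  intro u v h
  have h1 : g * u = g * v := by
    have : f + g * u = f + g * v := h
    exact add_left_cancel this
  exact mul_left_cancel₀ hg.ne_zero h1

/-- **The variance.** -/
theorem variance {k m l : ℕ} {g : F[X]} (hg : g.Monic) (hk : g.natDegree = k) (hml : 1 ≤ m + l) :
    ∑ f ∈ Mon F (k + m + l), (∑ u ∈ Lo F m, wt (k + m + l) g (f + g * u)) ^ 2 ≤
      q F ^ m * ((k + l + 2 : ℝ) ^ 2 * q F ^ (k + m + l)) := by
  classical
  set n := k + m + l with hn
  have hfin := finite_RR hg l
  have : Fintype (RR g l) := Fintype.ofFinite _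
  set S := (Mon F n).filter (fun f => IsCoprime f g) with hS
  have h1 := planch S (fun f => (wt n g f : ℂ)) (cl g l) _ (sum_wt_ch hg hk hml)
  rw [mul_pow, ← pow_mul, mul_comm (k + m + l) 2, pow_mul, Real.sq_sqrt (q_pos F).le, ← hn] at h1
  have h2 : ∀ f ∈ Mon F n, f ∉ S → ∑ u ∈ Lo F m, wt n g (f + g * u) = 0 := by
    intro f hf hfS
    have hc : ¬ IsCoprime f g := by
      intro h
      exact hfS (mem_filter.2 ⟨hf, h⟩)
    apply sum_eq_zero
    intro u hu
    have h3 : ¬ IsCoprime (f + g * u) g := by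
      intro h
      exact hc (IsCoprime.add_mul_left_left_iff.1 h)
    unfold wt
    rw [if_neg h3, sub_zero]
    unfold th
    rw [if_neg]
    intro h4
    apply h3
    have h5 : f + g * u ∈ Mon F n := add_mem_Mon hf (Lo_mono (by omega) (mul_mem_Lo hg hk hu))
    exact coprime_of_irr hg (by omega) (mem_Mon.1 h5) h4
  have h3 : ∀ f ∈ S, ∑ u ∈ Lo F m, wt n g (f + g * u) =
      ∑ f' ∈ S with cl g l f' = cl g l f, wt n g f' := by
    intro f hf
    rw [hS, mem_filter] at hf
    rw [hS, fiber_eq hg hk hf.1 hf.2, sum_image (fun u _ v _ h => inj_mul hg h)]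
  have h4 : ∀ ρ : RR g l, ((S.filter (fun f => cl g l f = ρ)).card : ℝ) ≤ q F ^ m := by
    intro ρ
    rcases (S.filter (fun f => cl g l f = ρ)).eq_empty_or_nonempty with h | ⟨f, hf⟩
    · rw [h]
      simp only [card_empty, Nat.cast_zero]
      have := q_pos F
      positivity
    · rw [mem_filter] at hf
      have hf1 := hf.1
      rw [hS, mem_filter] at hf1
      have h5 : S.filter (fun f' => cl g l f' = ρ) = (Lo F m).image (fun u => f + g * u) := by
        rw [← hf.2]
        exact fiber_eq hg hk hf1.1 hf1.2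
      rw [h5, card_image_of_injective _ (inj_mul hg), card_Lo]
      unfold q
      push_cast
      exact le_rfl
  have h5 : ∑ f ∈ Mon F n, (∑ u ∈ Lo F m, wt n g (f + g * u)) ^ 2 =
      ∑ f ∈ S, (∑ f' ∈ S with cl g l f' = cl g l f, wt n g f') ^ 2 := by
    rw [← sum_subset (filter_subset _ (Mon F n) : S ⊆ Mon F n)]
    · apply sum_congr rfl
      intro f hf
      rw [h3 f hf]
    · intro f hf hfS
      rw [h2 f hf hfS]
      norm_num
  rw [h5, ← sum_fiberwise S (cl g l)]
  have h6 : ∀ ρ : RR g l, ∑ f ∈ S with cl g l f = ρ,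
      (∑ f' ∈ S with cl g l f' = cl g l f, wt n g f') ^ 2 ≤
      q F ^ m * ‖∑ f' ∈ S with cl g l f' = ρ, (wt n g f' : ℂ)‖ ^ 2 := by
    intro ρ
    have h7 : ∀ f ∈ S.filter (fun f => cl g l f = ρ),
        (∑ f' ∈ S with cl g l f' = cl g l f, wt n g f') ^ 2 =
        ‖∑ f' ∈ S with cl g l f' = ρ, (wt n g f' : ℂ)‖ ^ 2 := by
      intro f hf
      rw [mem_filter] at hf
      rw [hf.2, ← Complex.ofReal_sum, Complex.norm_real, Real.norm_eq_abs, sq_abs]
    rw [sum_congr rfl h7, sum_const, nsmul_eq_mul]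
    exact mul_le_mul_of_nonneg_right (h4 ρ) (by positivity)
  refine (sum_le_sum fun ρ _ => h6 ρ).trans ?_
  rw [← mul_sum]
  apply mul_le_mul_of_nonneg_left h1
  have := q_pos F
  positivity

end Pool.Agent.H23.FF
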